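import Pool.Agent.CMG.GPO

/-!
# CMG/GPB: growth of the positions

PROOFS.  `le_PPn`, `bd_le_PPn`: `Nat.left_le_pair`, `Nat.right_le_pair` (`bd u > u`).  `encode_le_bl`: `Encodable.encode_list_cons` and monotonicity
of `Nat.pair` (`Nat.pair_lt_pair_left`, `Nat.pair_lt_pair_right`).  `rq_lt_bd`: the same (`rq t a e = pair t (pair (encode a) e)`), `bl_mono`.
-/

set_option autoImplicit false

namespace Pool.Agent.CMG

open Encodable Nat.Partrec Pool.Agent.H19 Pool.Agent.AEI

variable {h : Hist}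

private theorem gpb_pair_le {a b c d : ℕ} (h1 : a ≤ c) (h2 : b ≤ d) : Nat.pair a b ≤ Nat.pair c d := by
  have e1 : Nat.pair a b ≤ Nat.pair c b := by
    rcases h1.lt_or_eq with h | h
    · exact (Nat.pair_lt_pair_left b h).le
    · rw [h]
  have e2 : Nat.pair c b ≤ Nat.pair c d := by
    rcases h2.lt_or_eq with h | h
    · exact (Nat.pair_lt_pair_right c h).le
    · rw [h]
  exact e1.trans e2

private theorem gpb_lt_bd (u : ℕ) : u < bd u := by
  have h1 : u ≤ Nat.pair (bl u u) u := Nat.right_le_pair _ _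
  have h2 : Nat.pair (bl u u) u ≤ Nat.pair 1 (Nat.pair (bl u u) u) := Nat.right_le_pair _ _
  unfold bd
  omega

theorem bd_le_PPn (k : ℕ) : bd (PPn h k) ≤ PPn h (k + 1) :=
  Nat.left_le_pair _ _

theorem le_PPn (k : ℕ) : k ≤ PPn h k := by
  induction k with
  | zero => exact Nat.zero_le _
  | succ k ih =>
    have h1 := bd_le_PPn (h := h) k
    have h2 := gpb_lt_bd (PPn h k)
    omega

theorem PPn_mono {k l : ℕ} (hkl : k ≤ l) : PPn h k ≤ PPn h l := by
  refine monotone_nat_of_le_succ (f := fun k => PPn h k) (fun k => ?_) hkl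
  have h1 := bd_le_PPn (h := h) k
  have h2 := gpb_lt_bd (PPn h k)
  show PPn h k ≤ PPn h (k + 1)
  omega

theorem bl_mono {u i j : ℕ} (hij : i ≤ j) : bl u i ≤ bl u j := by
  refine monotone_nat_of_le_succ (f := fun k => bl u k) (fun k => ?_) hij
  have h1 : bl u k ≤ Nat.pair u (bl u k) := Nat.right_le_pair _ _
  show bl u k ≤ Nat.pair u (bl u k) + 1
  omega

theorem encode_le_bl {a : List ℕ} {u : ℕ} (ha : ∀ x ∈ a, x ≤ u) : encode a ≤ bl u a.length := by
  induction a with
  | nil => simp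
  | cons x a ih =>
    rw [Encodable.encode_list_cons]
    show Nat.pair x (encode a) + 1 ≤ Nat.pair u (bl u a.length) + 1
    have h1 : x ≤ u := ha x (by simp)
    have h2 := ih fun y hy => ha y (by simp [hy])
    have h3 := gpb_pair_le h1 h2
    omega

theorem rq_lt_bd {t u : ℕ} {a : List ℕ} (ht : t ≤ 1) (ha : ∀ x ∈ a, x ≤ u) (hl : a.length ≤ u) :
    rq t a a.length < bd u := by
  have h1 := (encode_le_bl ha).trans (bl_mono hl)
  have h2 := gpb_pair_le ht (gpb_pair_le h1 hl)
  unfold rq bd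
  omega


end Pool.Agent.CMG
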