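import Pool.Agent.CMG.Defs

/-!
# CMG/LIB: strings, prefixes of sequences, string functionals

PROOFS.  `lastI`: it is `Nat.findGreatest` (Mathlib: `Nat.findGreatest_le`, `Nat.findGreatest_spec`, `Nat.le_findGreatest`,
`Nat.findGreatest_eq_iff`).  For `lastI_append` use that `(τ ++ [b]).take i = τ.take i` for `i ≤ |τ|`.
`maps_*`: `take_of_maps` and `maps_unique` of H19 (Verify, Along).  `red_of_maps`: `red_of_option` (AEI/GLU) with
`F n σ = (F σ)[n]?`.  `maps_comp`: as `CFun.comp` in H51/TE/Fun.
`exists_ext`: every chain of strings growing along `X` has a limit: define `Z n` as the `n`-th entry of `F (pre X s)` for any `s` with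
`n < |F (pre X s)|` (as in `exists_of_zf`, AEI/SF).
-/

set_option autoImplicit false

namespace Pool.Agent.CMG

open Encodable Nat.Partrec Pool.Agent.H19 Pool.Agent.AEI

theorem pre_succ (X : ℕ → Bool) (s : ℕ) : pre X (s + 1) = pre X s ++ [X s] := by
  rw [pre, pre, List.range_succ, List.map_append]; rfl

theorem dropLast_pre (X : ℕ → Bool) (s : ℕ) : (pre X s).dropLast = pre X (s - 1) := by
  rcases s with _ | s
  · rfl
  · rw [pre_succ, List.dropLast_concat]; rfl

theorem take_pre (X : ℕ → Bool) (i s : ℕ) : (pre X s).take i = pre X (min i s) := by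
  rcases le_total i s with h | h
  · rw [pre_take X h, min_eq_left h]
  · rw [min_eq_right h, List.take_of_length_le]
    rw [pre_length]; exact h

theorem eq_pre_of_prefix {X : ℕ → Bool} {σ : List Bool} {s : ℕ} (h : σ <+: pre X s) : σ = pre X σ.length := by
  exact ((prefix_pre_iff X).1 h).2

theorem pre_inj {X Y : ℕ → Bool} (h : ∀ n, pre X n = pre Y n) : X = Y := by
  funext n
  have h1 := pre_getElem? X (Nat.lt_succ_self n)
  have h2 := pre_getElem? Y (Nat.lt_succ_self n)
  rw [h (n + 1), h2] at h1
  exact (Option.some.inj h1).symm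

/-- Two prefixes of the same string are comparable. -/
theorem prefix_of_prefix {σ τ υ : List Bool} (h1 : σ <+: υ) (h2 : τ <+: υ) (h : σ.length ≤ τ.length) : σ <+: τ := by
  exact List.prefix_of_prefix_length_le h1 h2 h

theorem lastI_le (t : List Bool → Bool) (τ : List Bool) : lastI t τ ≤ τ.length := by
  exact Nat.findGreatest_le _

theorem lastI_spec {t : List Bool → Bool} {τ : List Bool} (h : 0 < lastI t τ) : t (τ.take (lastI t τ)) = true := by
  have h1 : lastI t τ ≠ 0 := h.ne'
  have h2 := (Nat.findGreatest_eq_iff (P := fun i => t (τ.take i) = true) (k := τ.length) (m := lastI t τ)).1 rfl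
  exact h2.2.1 h1

theorem le_lastI {t : List Bool → Bool} {τ : List Bool} {i : ℕ} (h : i ≤ τ.length) (ht : t (τ.take i) = true) :
    i ≤ lastI t τ := by
  exact Nat.le_findGreatest h ht

theorem lastI_append (t : List Bool → Bool) (τ : List Bool) (b : Bool) :
    lastI t (τ ++ [b]) = if t (τ ++ [b]) = true then τ.length + 1 else lastI t τ := by
  have hlen : (τ ++ [b]).length = τ.length + 1 := by simp
  have htk : ∀ i ≤ τ.length, (τ ++ [b]).take i = τ.take i := by
    intro i hi
    rw [List.take_append_of_le_length hi]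
  have hfull : (τ ++ [b]).take (τ.length + 1) = τ ++ [b] := by
    rw [← hlen, List.take_length]
  split_ifs with h
  · apply le_antisymm
    · have := lastI_le t (τ ++ [b])
      rw [hlen] at this; exact this
    · apply le_lastI
      · rw [hlen]
      · rw [hfull]; exact h
  · apply le_antisymm
    · rcases Nat.eq_zero_or_pos (lastI t (τ ++ [b])) with h0 | h0
      · rw [h0]; exact Nat.zero_le _
      · have h1 := lastI_spec h0
        have h2 := lastI_le t (τ ++ [b])
        rw [hlen] at h2
        have h3 : lastI t (τ ++ [b]) ≤ τ.length := by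
          by_contra hc
          have h4 : lastI t (τ ++ [b]) = τ.length + 1 := by omega
          rw [h4, hfull] at h1
          exact h h1
        rw [htk _ h3] at h1
        exact le_lastI h3 h1
    · rcases Nat.eq_zero_or_pos (lastI t τ) with h0 | h0
      · rw [h0]; exact Nat.zero_le _
      · have h1 := lastI_spec h0
        have h2 := lastI_le t τ
        apply le_lastI
        · rw [hlen]; omega
        · rw [htk _ h2]; exact h1

theorem lastI_mono (t : List Bool → Bool) {σ τ : List Bool} (h : σ <+: τ) : lastI t σ ≤ lastI t τ := by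
  rcases Nat.eq_zero_or_pos (lastI t σ) with h0 | h0
  · rw [h0]; exact Nat.zero_le _
  · have h1 := lastI_spec h0
    have h2 := lastI_le t σ
    obtain ⟨u, hu⟩ := h
    have h3 : τ.take (lastI t σ) = σ.take (lastI t σ) := by
      rw [← hu, List.take_append_of_le_length h2]
    apply le_lastI
    · have : σ.length ≤ τ.length := by rw [← hu]; simp
      omega
    · rw [h3]; exact h1

theorem lastI_congr {t t' : List Bool → Bool} {τ : List Bool} (h : ∀ i ≤ τ.length, t (τ.take i) = t' (τ.take i)) :
    lastI t τ = lastI t' τ := by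
  apply le_antisymm
  · rcases Nat.eq_zero_or_pos (lastI t τ) with h0 | h0
    · rw [h0]; exact Nat.zero_le _
    · have h1 := lastI_spec h0
      have h2 := lastI_le t τ
      exact le_lastI h2 (by rw [← h _ h2]; exact h1)
  · rcases Nat.eq_zero_or_pos (lastI t' τ) with h0 | h0
    · rw [h0]; exact Nat.zero_le _
    · have h1 := lastI_spec h0
      have h2 := lastI_le t' τ
      exact le_lastI h2 (by rw [h _ h2]; exact h1)

theorem le_lastI_pre {t : List Bool → Bool} {X : ℕ → Bool} {i s : ℕ} (h : i ≤ s) (ht : t (pre X i) = true) :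
    i ≤ lastI t (pre X s) := by
  apply le_lastI
  · rw [pre_length]; exact h
  · rw [pre_take X h]; exact ht

theorem lastI_pre_spec {t : List Bool → Bool} {X : ℕ → Bool} {s : ℕ} (h : 0 < lastI t (pre X s)) :
    lastI t (pre X s) ≤ s ∧ t (pre X (lastI t (pre X s))) = true := by
  have h1 := lastI_spec h
  have h2 := lastI_le t (pre X s)
  rw [pre_length] at h2
  rw [pre_take X h2] at h1
  exact ⟨h2, h1⟩

/-- If `t` fails at the stages after `s` up to `s'`, the last stage does not change. -/
theorem lastI_pre_eq {t : List Bool → Bool} {X : ℕ → Bool} {s s' : ℕ} (h : s ≤ s')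
    (ht : ∀ i, s < i → i ≤ s' → t (pre X i) = false) : lastI t (pre X s') = lastI t (pre X s) := by
  apply le_antisymm
  · rcases Nat.eq_zero_or_pos (lastI t (pre X s')) with h0 | h0
    · rw [h0]; exact Nat.zero_le _
    · obtain ⟨h1, h2⟩ := lastI_pre_spec h0
      apply le_lastI_pre _ h2
      by_contra hc
      rw [ht _ (not_le.1 hc) h1] at h2
      exact Bool.false_ne_true h2
  · exact lastI_mono t (pre_mono X h)

section

variable {F : List Bool → List Bool} (hF : ∀ σ τ, σ <+: τ → F σ <+: F τ)

include hF

theorem maps_pre {X Z : ℕ → Bool} (h : Maps F X Z) (s : ℕ) : F (pre X s) = pre Z (F (pre X s)).length := by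
  have := take_of_maps hF h (L := s) (n := (F (pre X s)).length) le_rfl
  rw [List.take_length] at this
  exact this

theorem maps_len {X Z : ℕ → Bool} (h : Maps F X Z) (n : ℕ) : ∃ s0, ∀ s ≥ s0, n ≤ (F (pre X s)).length := by
  rcases n with _ | n
  · exact ⟨0, fun s _ => Nat.zero_le _⟩
  · obtain ⟨s0, hs0⟩ := h n
    refine ⟨s0, fun s hs => ?_⟩
    have h1 : n < (F (pre X s0)).length := by
      rw [List.getElem?_eq_some_iff] at hs0
      exact hs0.1
    have h2 := (hF _ _ (pre_mono X hs)).length_le
    omega

theorem maps_comp {G : List Bool → List Bool} (hG : ∀ σ τ, σ <+: τ → G σ <+: G τ) {X Y Z : ℕ → Bool}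
    (h1 : Maps F X Y) (h2 : Maps G Y Z) : Maps (fun σ => G (F σ)) X Z := by
  intro n
  obtain ⟨s, hs⟩ := h2 n
  obtain ⟨s', hs'⟩ := maps_len hF h1 s
  refine ⟨s', ?_⟩
  have h3 : n < (G (pre Y s)).length := by
    rw [List.getElem?_eq_some_iff] at hs
    exact hs.1
  have h4 : pre Y s <+: F (pre X s') := by
    rw [maps_pre hF h1 s']
    exact pre_mono Y (hs' s' le_rfl)
  obtain ⟨u, hu⟩ := hG _ _ h4
  show (G (F (pre X s')))[n]? = _
  rw [← hu, List.getElem?_append_left h3, hs]

/-- Unboundedly growing output has a limit. -/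
theorem exists_ext {X : ℕ → Bool} (h : ∀ n, ∃ s, n ≤ (F (pre X s)).length) : ∃ Z, Maps F X Z := by
  choose S hS using h
  let Z : ℕ → Bool := fun n => (F (pre X (S (n + 1)))).getD n false
  refine ⟨Z, fun n => ⟨S (n + 1), ?_⟩⟩
  have hn' : n < (F (pre X (S (n + 1)))).length := hS (n + 1)
  show _ = some ((F (pre X (S (n + 1)))).getD n false)
  rw [List.getD_eq_getElem?_getD, List.getElem?_eq_getElem hn']; rfl

end

theorem maps_of {F : List Bool → List Bool} {X Z : ℕ → Bool} (h1 : ∀ s, F (pre X s) = pre Z (F (pre X s)).length)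
    (h2 : ∀ n, ∃ s, n ≤ (F (pre X s)).length) : Maps F X Z := by
  intro n
  obtain ⟨s, hs⟩ := h2 (n + 1)
  refine ⟨s, ?_⟩
  rw [h1 s]
  exact pre_getElem? Z (by omega)

theorem maps_id (X : ℕ → Bool) : Maps (fun σ => σ) X X := by
  intro n
  exact ⟨n + 1, pre_getElem? X (Nat.lt_succ_self n)⟩

theorem red_of_maps {F : List Bool → List Bool} (hc : Computable F) {X Z : ℕ → Bool} (h : Maps F X Z)
    (hF : ∀ σ τ, σ <+: τ → F σ <+: F τ) : TuringReducible (chi Z) (chi X) := by
  refine red_of_option (F := fun n σ => (F σ)[n]?) ?_ ?_ ?_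
  · exact Computable.list_getElem?.comp (hc.comp Computable.snd) Computable.fst
  · intro n s b hb
    have hn : n < (F (pre X s)).length := by
      have hb' : (F (pre X s))[n]? = some b := hb
      rw [List.getElem?_eq_some_iff] at hb'
      exact hb'.1
    have hb' : (F (pre X s))[n]? = some b := hb
    rw [maps_pre hF h s, pre_getElem? Z hn] at hb'
    exact (Option.some.inj hb').symm
  · intro n
    obtain ⟨s, hs⟩ := h n
    refine ⟨s, ?_⟩
    show ((F (pre X s))[n]?).isSome = true
    rw [hs]; rfl

section

variable (P : PSys)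

theorem bk_mono (a : List ℕ) {σ τ : List Bool} (h : σ <+: τ) : bk P a σ <+: bk P a τ := by
  induction a with
  | nil => exact h
  | cons l a ih => exact P.monoG l _ _ ih

theorem fw_mono (a : List ℕ) {σ τ : List Bool} (h : σ <+: τ) : fw P a σ <+: fw P a τ := by
  induction a generalizing σ τ with
  | nil => exact h
  | cons l a ih => exact ih (P.monoF l _ _ h)

theorem bk_len (a : List ℕ) (σ : List Bool) : (bk P a σ).length ≤ σ.length := by
  induction a with
  | nil => exact le_rfl
  | cons l a ih => exact (P.lenG l _).trans ih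

theorem fw_len (a : List ℕ) (σ : List Bool) : (fw P a σ).length ≤ σ.length := by
  induction a generalizing σ with
  | nil => exact le_rfl
  | cons l a ih => exact (ih (P.F l σ)).trans (P.lenF l σ)

theorem mem_pth_lt {n l : ℕ} (h : l ∈ pth n) : l < n := by
  have h1 : ∀ (L : List ℕ) (x : ℕ), x ∈ L → x < encode L := by
    intro L
    induction L with
    | nil => intro x hx; simp at hx
    | cons y L ih =>
      intro x hx
      rw [Encodable.encode_list_cons]
      rcases List.mem_cons.1 hx with rfl | hx
      · have := Nat.left_le_pair (encode x) (encode L)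
        simp only [Encodable.encode_nat] at this ⊢
        omega
      · have h2 := ih x hx
        have := Nat.right_le_pair (encode y) (encode L)
        omega
  have h2 := h1 _ _ h
  rw [pth, Denumerable.encode_ofNat] at h2
  have h3 : n.unpair.2.unpair.1 ≤ n.unpair.2 := Nat.unpair_left_le _
  have h4 : n.unpair.2 ≤ n := Nat.unpair_right_le _
  omega

end

end Pool.Agent.CMG
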