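import Pool.Agent.CMG.GDefs
import Pool.Agent.CMG.LIB

/-!
# CMG/GUV: universality of the string functionals `fn e`

PROOF of `exists_fn`.  The partial function `p ↦ (H σ)[x]?` (as `1` or `0`) for `p = encode (x, σ)` is partial recursive
(`Computable.list_getElem?`, `Computable.ofOption`, `Partrec.map`; see `exists_code_dom`, `exists_uniform_code` of H19/Codes and `Nat.Partrec.Code.exists_code`), let `c` be its
code and `e = encode c` (`Denumerable.ofNat_encode`).  If `Maps H X Z` then `CodeComputes c X Z` (`maps_pre` of LIB), so `zf_of_computes` of AEI/SF and `maps_of` (LIB) give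
`Maps (zf c) X Z`.  `exists_fn_of_red`: `turingReducible_iff` of H19 gives a code `c` with `CodeComputes c X Z`.
-/

set_option autoImplicit false

namespace Pool.Agent.CMG

open Encodable Nat.Partrec Pool.Agent.H19 Pool.Agent.AEI

private theorem guv_maps {c : Code} {X Z : ℕ → Bool} (h : CodeComputes c X Z) :
    Maps (fn (encode c)) X Z := by
  obtain ⟨h2, h3⟩ := zf_of_computes h
  have e : fn (encode c) = zf c := by
    funext σ
    rw [fn, Denumerable.ofNat_encode]
  rw [e]
  exact maps_of h2 h3

theorem exists_fn {H : List Bool → List Bool} (hc : Computable H) (hm : ∀ σ τ, σ <+: τ → H σ <+: H τ) :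
    ∃ e, ∀ X Z, Maps H X Z → Maps (fn e) X Z := by
  obtain ⟨f, -, hf⟩ := exists_uniform_code (T := fun _ σ => H σ) (hc.comp Computable.snd)
  refine ⟨encode (f 0), fun X Z hXZ => ?_⟩
  have h1 : CodeComputes (f 0) X Z := by
    refine hf 0 X Z (fun s => ⟨_, maps_pre hm hXZ s⟩) (fun n => ?_)
    obtain ⟨s0, hs⟩ := maps_len hm hXZ (n + 1)
    exact ⟨s0, hs s0 le_rfl⟩
  exact guv_maps h1

theorem exists_fn_of_red {X Z : ℕ → Bool} (hr : TuringReducible (chi Z) (chi X)) : ∃ e, Maps (fn e) X Z := by
  obtain ⟨c, hc⟩ := turingReducible_iff.1 hr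
  exact ⟨encode c, guv_maps hc⟩

end Pool.Agent.CMG
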