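import Pool.Agent.CMG.APX

/-!
# CMG/NSA: requirements of type 1 are satisfied

PROOF.  `DX_iff`: `fw P a (pre X s)` runs through initial segments `pre Z j` with `j → ∞` (`chain_fw`, `maps_pre`, `maps_len`); note `(pre Z j).take (i - 1) = pre Z (i - 1)`,
and `Dt P [] = (0, [])`, so `i ≥ 1`.
`N_sat`: `n = rq 1 a e`, `Stab P n Z w s0`, `m = ⟨n, w⟩`, `c = ofNat Code e`; suppose `CodeComputes c (WX P X) (DX P X)`.
Case `DX P X m = false`: `hit 0 c m (pre (WX P X) u) = true` for some `u` (`exists_hit`).  For large `s ≥ s0`: `sg (pre Z s) = ts` (`sg_lim`), `u ≤ lens` (`lens_tend`),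
`VX P Z x = true → x ∈ V (pre Z s)` for `x < u` (`V_settle`), so `(ws a (pre Z s)).take u = pre (WX P X) u` (`ws_take`), and `hit_mono` gives `tst n (pre Z s) = true`.
`acted_of_tst`: `n` acts at `i > w` with `wt n (pre Z (i - 1)) = w`; `DX_iff` gives `DX P X m = true`, contradiction.
Case `DX P X m = true`: `n` acts at `i + 1` with `wt n (pre Z i) = w`, so `w ≤ i`; `tst_of_act`: `hit 0 c m (ws a (pre Z i)) = true`.  Put `u = lens a (pre Z i) ≤ i`.
(`sg (pre Z i) = ts`: `Stab.sg` and `sg_lim`.)  If `x < u`, `VX P Z x = true`, `x ∉ V (pre Z i)` then `x ∈ (Dt (pre Z (j + 1))).2`, `j ≥ i`; `j = i` is impossible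
(by `mem_new` there are no new elements at `pre Z (i + 1)`, as `ty n = 1` and `(Dt ..).1 = n + 1`), and for `j ≥ i + 1` `late_A` gives `i + 1 ≤ x`, contradiction.  So `ws_take` gives
`ws a (pre Z i) = pre (WX P X) u`, hence `0 ∈ c.eval (encode (m, pre (WX P X) r))` for some `r` (`exists_hit`), but the value must be `1`.
-/

set_option autoImplicit false

namespace Pool.Agent.CMG

open Encodable Nat.Partrec Pool.Agent.H19 Pool.Agent.AEI

variable {P : PSys}

theorem DX_iff {a : List ℕ} {X Z : ℕ → Bool} (hc : Chain P a X Z) {n w : ℕ} (hn : pth n = a) (ht : ty n = 1) :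
    DX P X (Nat.pair n w) = true ↔ ∃ i, (Dt P (pre Z (i + 1))).1 = n + 1 ∧ wt P (Dt P) n (pre Z i) = w := by
  have hmono : ∀ σ τ : List Bool, σ <+: τ → fw P a σ <+: fw P a τ := fun σ τ h => fw_mono P a h
  have hfw := chain_fw hc
  have h1 : DX P X (Nat.pair n w) = true ↔ ∃ s, dcl P (Nat.pair n w) (pre X s) = true := by
    classical
    unfold DX
    rw [decide_eq_true_iff]
  rw [h1]
  have h2 : ∀ s, dcl P (Nat.pair n w) (pre X s) = true ↔
      ∃ i < (fw P a (pre X s)).length + 1,
        (Dt P ((fw P a (pre X s)).take i)).1 = n + 1 ∧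
        wt P (Dt P) n ((fw P a (pre X s)).take (i - 1)) = w := by
    intro s
    unfold dcl
    rw [Nat.unpair_pair]
    simp only [hn, ht, decide_true, Bool.true_and, List.any_eq_true, List.mem_range, Bool.and_eq_true,
      decide_eq_true_eq]
  constructor
  · rintro ⟨s, hs⟩
    obtain ⟨i, hi, h3, h4⟩ := (h2 s).1 hs
    rw [maps_pre hmono hfw s, take_pre] at h3 h4
    rw [min_eq_left (by omega)] at h3 h4
    cases i with
    | zero =>
      have h5 : pre Z 0 = [] := rfl
      rw [h5, Dt_nil] at h3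
      exact absurd h3 (by simp)
    | succ i => exact ⟨i, h3, h4⟩
  · rintro ⟨i, h3, h4⟩
    obtain ⟨s, hs⟩ := maps_len hmono hfw (i + 1)
    refine ⟨s, (h2 s).2 ⟨i + 1, ?_, ?_, ?_⟩⟩
    · have := hs s le_rfl
      omega
    · have := hs s le_rfl
      rw [maps_pre hmono hfw s, take_pre, min_eq_left (by omega)]
      exact h3
    · have := hs s le_rfl
      rw [maps_pre hmono hfw s, take_pre, min_eq_left (by omega)]
      exact h4

theorem N_sat (h : GoodSys P) {a ts : List ℕ} {X Z : ℕ → Bool} (hc : ChainT P a ts X Z) {e : ℕ}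
    (hn : ∀ p ≤ rq 1 a e, ¬ Q P p Z) : ¬ CodeComputes (Denumerable.ofNat Code e) (WX P X) (DX P X) := by
  rintro ⟨hC1, hC2⟩
  obtain ⟨w, s0, hst⟩ := stable h hn
  have hty : ty (rq 1 a e) = 1 := ty_rq 1 a e
  have hpth : pth (rq 1 a e) = a := pth_rq 1 a e
  have hei : ei (rq 1 a e) = Denumerable.ofNat Code e := ei_rq 1 a e
  generalize rq 1 a e = n at hst hty hpth hei
  generalize Denumerable.ofNat Code e = c at hC1 hC2 hei
  have hDX := DX_iff hc.chain (w := w) hpth hty
  obtain ⟨s1, hs1⟩ := sg_lim h hc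
  have htst : ∀ s, wt P (Dt P) n (pre Z s) = w →
      (tst P (Dt P) n (pre Z s) = true ↔ hit 0 c (Nat.pair n w) (ws P (Dt P) a (pre Z s)) = true) := by
    intro s hs
    unfold tst
    rw [hs, hpth, hei, hty]
    simp
  cases hD : DX P X (Nat.pair n w) with
  | false =>
    obtain ⟨s, hs⟩ := hC2 (Nat.pair n w)
    rw [hD] at hs
    simp only [Bool.false_eq_true, if_false] at hs
    obtain ⟨u, hu⟩ := exists_hit.1 ⟨s, hs⟩
    obtain ⟨s2, hs2⟩ := lens_tend h hc u
    obtain ⟨s3, hs3⟩ := V_settle P Z u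
    set S := max (max s0 s1) (max s2 s3) with hS
    have k0 : s0 ≤ S := by omega
    have k1 : s1 ≤ S := by omega
    have k2 : s2 ≤ S := by omega
    have k3 : s3 ≤ S := by omega
    have hle := hst.le
    have hw : wt P (Dt P) n (pre Z S) = w := hst.wt S (by omega)
    have htake := ws_take h hc (hs1 S k1) (hs2 S k2) (hs3 S k3)
    have hh : hit 0 c (Nat.pair n w) (ws P (Dt P) a (pre Z S)) = true := by
      refine hit_mono (List.take_prefix u _) ?_
      rw [htake]
      exact hu
    obtain ⟨i, hi1, hi2⟩ := acted_of_tst hst k0 ((htst S hw).2 hh)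
    cases i with
    | zero => omega
    | succ i =>
      have := hDX.2 ⟨i, hi2, hst.wt i (by omega)⟩
      rw [hD] at this
      exact absurd this (by simp)
  | true =>
    obtain ⟨i, hi1, hi2⟩ := hDX.1 hD
    have hwi : w ≤ i := by
      rw [← hi2]
      unfold wt
      refine (lastI_le _ _).trans ?_
      rw [pre_length]
    have hh := (htst i hi2).1 (tst_of_act hi1)
    set u := lens P (Dt P) a (pre Z i) with hu
    have hui : u ≤ i := by
      have k1 := lens_le (P := P) a (pre Z i)
      have k2 := bk_len P a (pre Z i)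
      rw [pre_length] at k2
      omega
    have hsg : sg P (Dt P) a (pre Z i) = ts := by
      have k1 := hst.sg i (by omega)
      have k2 := hst.sg (max s1 w) (by omega)
      rw [hpth] at k1 k2
      rw [k1, ← k2]
      exact hs1 _ (le_max_left _ _)
    have h3 : ∀ x < u, VX P Z x = true → x ∈ V (Dt P) (pre Z i) := by
      intro x hx hV
      by_contra hnot
      obtain ⟨j, hj, hxj⟩ := exists_new' hV hnot
      rcases Nat.eq_or_lt_of_le hj with hji | hji
      · subst hji
        rw [pre_succ] at hxj hi1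
        rcases mem_new hxj with ⟨n', k1, k2, -⟩ | ⟨k1, -⟩
        · rw [hi1] at k1
          have : n = n' := by omega
          rw [← this, hty] at k2
          exact absurd k2 (by decide)
        · rw [hi1] at k1
          omega
      · have := late_A hty hi1 hji (hst.rst (j + 1) (by omega)) hxj
        omega
    have htake := ws_take h hc hsg le_rfl h3
    have hlen := ws_length (P := P) a (pre Z i)
    rw [← hu] at htake hlen
    rw [List.take_of_length_le (by rw [hlen])] at htake
    rw [htake] at hh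
    obtain ⟨s, hs⟩ := exists_hit.2 ⟨u, hh⟩
    have := hC1 _ _ _ hs
    rw [hD] at this
    simp at this

end Pool.Agent.CMG
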