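import Pool.Agent.CMG.STB

/-!
# CMG/CHN: chains

PROOFS.  `exists_chain`: by induction on `k`: either there is a chain of length `≤ k` whose end has no active pointer, or there is a chain of length `k` (append one
pointer: if `Chain P a X Z`, `Q P p Z`, `h.total` gives `Z'`, then `Chain P (a ++ [p]) X Z'`).  Use `k = e`: in the second case, if the end `Z` has an active pointer `p`, then
`rq t a e < p` (`h.gr`, `a.length = e`) and no `p' ≤ rq t a e` is active at `Z` (`h.uni`).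
`chain_bk`: `h.total`, `maps_unique`, `maps_comp`.
`chain_thr`: `thr_of_Q`.
`sg_lim`: induction on the chain; head: `bk P (l :: a) (pre Z s) = pre X _` (`chain_bk`, `maps_pre`) with length tending to infinity, so by `lst_tend` the string
`lst l (pre X j)` is `pre X i` with `i` large, where `lastA l (pre X i) = t`.
`lens_tend`: the same.
-/

set_option autoImplicit false

namespace Pool.Agent.CMG

open Encodable Nat.Partrec Pool.Agent.H19 Pool.Agent.AEI

variable {P : PSys}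

private theorem CHN_app {a : List ℕ} {X Z Z' : ℕ → Bool} {p : ℕ} (hc : Chain P a X Z) (hp : Q P p Z)
    (hm : Maps (P.F p) Z Z') : Chain P (a ++ [p]) X Z' := by
  induction hc with
  | nil X => exact Chain.cons hp hm (Chain.nil Z')
  | @cons q a X Y Z h1 h2 h3 ih => exact Chain.cons h1 h2 (ih hp hm)

theorem exists_chain (h : GoodSys P) (X : ℕ → Bool) {t : ℕ} (ht : t ≤ 1) (e : ℕ) :
    ∃ a Z, Chain P a X Z ∧ ∀ p ≤ rq t a e, ¬ Q P p Z := by
  have key : ∀ k : ℕ, (∃ a Z, Chain P a X Z ∧ ∀ p, ¬ Q P p Z) ∨ ∃ a Z, Chain P a X Z ∧ a.length = k := by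
    intro k
    induction k with
    | zero => exact Or.inr ⟨[], X, Chain.nil X, rfl⟩
    | succ k ih =>
      rcases ih with ih | ⟨a, Z, hc, hk⟩
      · exact Or.inl ih
      · by_cases hp : ∃ p, Q P p Z
        · obtain ⟨p, hp⟩ := hp
          obtain ⟨Z', h1, _⟩ := h.total p Z hp
          refine Or.inr ⟨a ++ [p], Z', CHN_app hc hp h1, ?_⟩
          rw [List.length_append, hk]
          rfl
        · exact Or.inl ⟨a, Z, hc, fun p h1 => hp ⟨p, h1⟩⟩
  rcases key e with ⟨a, Z, hc, hp⟩ | ⟨a, Z, hc, hk⟩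
  · exact ⟨a, Z, hc, fun p _ => hp p⟩
  · refine ⟨a, Z, hc, fun p hp hQ => ?_⟩
    have h1 := h.gr a X Z p hc hQ t ht
    rw [hk] at h1
    omega

theorem chain_bk (h : GoodSys P) {a : List ℕ} {X Z : ℕ → Bool} (hc : Chain P a X Z) : Maps (bk P a) Z X := by
  induction hc with
  | nil X => exact maps_id X
  | @cons p a X Y Z h1 h2 h3 ih =>
    obtain ⟨Z', k1, k2⟩ := h.total p X h1
    have e : Y = Z' := maps_unique (P.monoF p) h2 k1
    rw [← e] at k2
    exact maps_comp (fun σ τ h => bk_mono P a h) (P.monoG p) ih k2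

theorem chain_fw {a : List ℕ} {X Z : ℕ → Bool} (hc : Chain P a X Z) : Maps (fw P a) X Z := by
  induction hc with
  | nil X => exact maps_id X
  | @cons p a X Y Z h1 h2 h3 ih =>
    exact maps_comp (P.monoF p) (fun σ τ h => fw_mono P a h) h2 ih

theorem chain_thr (h : GoodSys P) {a : List ℕ} {X Z : ℕ → Bool} (hc : Chain P a X Z) : ∃ ts, ChainT P a ts X Z := by
  induction hc with
  | nil X => exact ⟨[], ChainT.nil X⟩
  | @cons p a X Y Z h1 h2 h3 ih =>
    obtain ⟨ts, hts⟩ := ih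
    obtain ⟨t, ht⟩ := thr_of_Q h h1
    exact ⟨t :: ts, ChainT.cons h1 h2 ht hts⟩

theorem ChainT.chain {a ts : List ℕ} {X Z : ℕ → Bool} (hc : ChainT P a ts X Z) : Chain P a X Z := by
  induction hc with
  | nil X => exact Chain.nil X
  | @cons p t a ts X Y Z h1 h2 ht h3 ih => exact Chain.cons h1 h2 ih

private theorem CHN_head (h : GoodSys P) {p : ℕ} {a : List ℕ} {X Z : ℕ → Bool} (hc : Chain P (p :: a) X Z)
    (hQ : Q P p X) {t : ℕ} (ht : Thr P p X t) (N : ℕ) :
    ∃ s0, ∀ s ≥ s0, ∃ i ≥ N, lst P (Dt P) p (bk P (p :: a) (pre Z s)) = pre X i := by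
  obtain ⟨s2, hs2⟩ := lst_tend hQ ht N
  have hmono : ∀ σ τ : List Bool, σ <+: τ → bk P (p :: a) σ <+: bk P (p :: a) τ := fun σ τ h => bk_mono P (p :: a) h
  have hb := chain_bk h hc
  obtain ⟨s3, hs3⟩ := maps_len hmono hb s2
  refine ⟨s3, fun s hs => ⟨(lst P (Dt P) p (bk P (p :: a) (pre Z s))).length, ?_, ?_⟩⟩
  · rw [maps_pre hmono hb s]
    exact hs2 _ (hs3 s hs)
  · rw [maps_pre hmono hb s]
    exact eq_pre_of_prefix (List.take_prefix _ _)

theorem sg_lim (h : GoodSys P) {a ts : List ℕ} {X Z : ℕ → Bool} (hc : ChainT P a ts X Z) :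
    ∃ s0, ∀ s ≥ s0, sg P (Dt P) a (pre Z s) = ts := by
  induction hc with
  | nil X => exact ⟨0, fun s _ => rfl⟩
  | @cons p t a ts X Y Z h1 h2 ht h3 ih =>
    obtain ⟨s1, hs1⟩ := ih
    obtain ⟨T, hT⟩ := ht
    obtain ⟨s2, hs2⟩ := CHN_head h (Chain.cons h1 h2 h3.chain) h1 ⟨T, hT⟩ T
    refine ⟨max s1 s2, fun s hs => ?_⟩
    obtain ⟨i, hi, he⟩ := hs2 s ((le_max_right _ _).trans hs)
    change lastA P (Dt P) p (lst P (Dt P) p (bk P (p :: a) (pre Z s))) :: sg P (Dt P) a (pre Z s) = t :: ts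
    rw [hs1 s ((le_max_left _ _).trans hs), he, (hT i hi).2]

theorem lens_tend (h : GoodSys P) {a ts : List ℕ} {X Z : ℕ → Bool} (hc : ChainT P a ts X Z) (N : ℕ) :
    ∃ s0, ∀ s ≥ s0, N ≤ lens P (Dt P) a (pre Z s) := by
  induction hc with
  | nil X =>
    refine ⟨N, fun s hs => ?_⟩
    change N ≤ (pre X s).length
    rw [pre_length]
    exact hs
  | @cons p t a ts X Y Z h1 h2 ht h3 ih =>
    obtain ⟨s1, hs1⟩ := ih
    obtain ⟨s2, hs2⟩ := CHN_head h (Chain.cons h1 h2 h3.chain) h1 ht N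
    refine ⟨max s1 s2, fun s hs => ?_⟩
    obtain ⟨i, hi, he⟩ := hs2 s ((le_max_right _ _).trans hs)
    change N ≤ min (lst P (Dt P) p (bk P (p :: a) (pre Z s))).length (lens P (Dt P) a (pre Z s))
    refine le_min ?_ (hs1 s ((le_max_left _ _).trans hs))
    rw [he, pre_length]
    exact hi

end Pool.Agent.CMG
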