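import Pool.Agent.CMG.COH
import Pool.Agent.CMG.CHN

/-!
# CMG/RSA: requirements of type 0 are satisfied

PROOF.  `cod_eq` by induction on the chain: `cod (l :: a) y = ⟨l + 1, cod a y⟩ ≥ cod a y ≥ y ≥ t`, `copy_eq`.
`R_sat`: `n = rq 0 a e`, `Stab P n Z w s0` (`stable`).  The thresholds `ts` are `≤ w`: by `sg_lim` and `Stab.sg` they are the entries of
`sg (pre Z (w - 1))`, `sg_le`.  Put `y = yy n w`, `w ≤ y`, `x = cod a y`, `VX P X x = VX P Z y` (`cod_eq`).  Suppose `CodeComputes c X (VX P X)`, `c = ofNat Code e`.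
Case `VX P Z y = false`: `0 ∈ c.eval (encode (x, pre X r))` for some `r`, so `hit 0 c x (pre X j) = true` for some `j` (`exists_hit`); for large `s ≥ s0`,
`pre X j <+: bk P a (pre Z s)` (`chain_bk`), so `tst n (pre Z s) = true` (`hit_mono`, `Stab.wt`); `acted_of_tst`: `n` acts at some `i > w`, with witness
`wt n (pre Z (i - 1)) = w`, so `y ∈ (Dt (pre Z i)).2` (`new_of_act`), contradiction.
Case `VX P Z y = true`: `VX_iff'`, `new_yy`: `n` acts at `i + 1` and `wt n (pre Z i) = w`; `tst_of_act`: `hit 0 c x (bk P a (pre Z i)) = true`, and `bk P a (pre Z i)` is an initial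
segment of `X`, so `0 ∈ c.eval (encode (x, pre X r))` for some `r` (`exists_hit`), but `CodeComputes` gives the value `1`.
-/

set_option autoImplicit false

namespace Pool.Agent.CMG

open Encodable Nat.Partrec Pool.Agent.H19 Pool.Agent.AEI

variable {P : PSys}

theorem le_cod (a : List ℕ) (y : ℕ) : y ≤ cod a y := by
  induction a with
  | nil => exact le_rfl
  | cons l a ih => exact ih.trans (Nat.right_le_pair _ _)

theorem cod_eq {a ts : List ℕ} {X Z : ℕ → Bool} (hc : ChainT P a ts X Z) {y : ℕ} (hy : ∀ t ∈ ts, t ≤ y) :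
    VX P X (cod a y) = VX P Z y := by
  induction hc with
  | nil X => rfl
  | @cons p t a ts X Y Z hQ hm ht hc ih =>
    have h1 : t ≤ Nat.pair (p + 1) (cod a y) :=
      (hy t List.mem_cons_self).trans ((le_cod a y).trans (Nat.right_le_pair _ _))
    have h2 : cod (p :: a) y = Nat.pair (p + 1) (cod a y) := rfl
    rw [h2, copy_eq hQ hm ht h1]
    exact ih fun t' ht' => hy t' (List.mem_cons_of_mem _ ht')

theorem thr_le_wt (h : GoodSys P) {a ts : List ℕ} {X Z : ℕ → Bool} (hc : ChainT P a ts X Z) {n w s0 : ℕ} (hn : pth n = a)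
    (hs : Stab P n Z w s0) : ∀ t ∈ ts, t ≤ w := by
  obtain ⟨s1, hs1⟩ := sg_lim h hc
  have h1 := hs.sg (max s1 w) (by omega)
  rw [hn, hs1 _ (le_max_left _ _)] at h1
  intro t ht
  rw [h1] at ht
  have h2 := sg_le _ _ t ht
  rw [pre_length] at h2
  omega

theorem R_sat (h : GoodSys P) {a ts : List ℕ} {X Z : ℕ → Bool} (hc : ChainT P a ts X Z) {e : ℕ}
    (hn : ∀ p ≤ rq 0 a e, ¬ Q P p Z) : ¬ CodeComputes (Denumerable.ofNat Code e) X (VX P X) := by
  rintro ⟨hC1, hC2⟩
  obtain ⟨w, s0, hst⟩ := stable h hn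
  have hty : ty (rq 0 a e) = 0 := ty_rq 0 a e
  have hpth : pth (rq 0 a e) = a := pth_rq 0 a e
  have hei : ei (rq 0 a e) = Denumerable.ofNat Code e := ei_rq 0 a e
  generalize rq 0 a e = n at hst hty hpth hei
  have hthr := thr_le_wt h hc hpth hst
  have hcod : VX P X (cod a (yy n w)) = VX P Z (yy n w) :=
    cod_eq hc fun t ht => (hthr t ht).trans (le_yy n w)
  have hbk := chain_bk h hc.chain
  have hmono : ∀ σ τ, σ <+: τ → bk P a σ <+: bk P a τ := fun _ _ => bk_mono P a
  have htst : ∀ i, wt P (Dt P) n (pre Z i) = w → tst P (Dt P) n (pre Z i) =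
      hit 0 (Denumerable.ofNat Code e) (cod a (yy n w)) (bk P a (pre Z i)) := by
    intro i hi
    rw [tst, hty, hpth, hi, hei]
    simp
  cases hV : VX P Z (yy n w) with
  | false =>
    rw [hV] at hcod
    obtain ⟨s, hs⟩ := hC2 (cod a (yy n w))
    rw [hcod] at hs
    obtain ⟨j, hj⟩ := exists_hit.1 ⟨s, hs⟩
    obtain ⟨s1, hs1⟩ := maps_len hmono hbk j
    have hs2 := hs1 (max s0 s1) (le_max_right _ _)
    have hhit : hit 0 (Denumerable.ofNat Code e) (cod a (yy n w)) (bk P a (pre Z (max s0 s1))) = true := by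
      rw [maps_pre hmono hbk]
      exact hit_mono (pre_mono X hs2) hj
    have hle := hst.le
    rw [← htst _ (hst.wt _ (by omega))] at hhit
    obtain ⟨i, hi, hact⟩ := acted_of_tst hst (le_max_left s0 s1) hhit
    obtain ⟨i, rfl⟩ : ∃ k, i = k + 1 := ⟨i - 1, by omega⟩
    have hnew := new_of_act (P := P) (σ := pre Z i) (b := Z i) (n := n) (by rw [← pre_succ]; exact hact) hty
    rw [hst.wt i (by omega), ← pre_succ] at hnew
    have h4 := VX_iff'.2 ⟨_, hnew⟩
    rw [hV] at h4
    exact absurd h4 (by simp)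
  | true =>
    rw [hV] at hcod
    obtain ⟨i, hi⟩ := VX_iff'.1 hV
    cases i with
    | zero =>
      have h0 : pre Z 0 = [] := by simp [pre]
      rw [h0, Dt_nil] at hi
      simp at hi
    | succ i =>
      obtain ⟨hact, _, hw⟩ := new_yy hi
      have htst' := tst_of_act hact
      rw [htst i hw, maps_pre hmono hbk] at htst'
      obtain ⟨r, hr⟩ := exists_hit.2 ⟨_, htst'⟩
      have h5 := hC1 _ _ _ hr
      rw [hcod] at h5
      simp at h5

end Pool.Agent.CMG
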