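import Pool.Agent.CMG.RED
import Pool.Agent.CMG.RSA
import Pool.Agent.CMG.NSA
import Pool.Agent.AEI.JMP

/-!
# CMG/PTR: the pointer theorem

PROOF.  `exists_code_WX`: `exists_code_dom` (H19/Post) with `t n σ = if n % 2 = 0 then σ.getD (n / 2) false else decide (n / 2 ∈ V (Dt P) σ)`, as `exists_code_WW` (AEI/GLW).
`exists_code_DX`: `exists_code_dom` with `dcl P` (`comp_dcl`).
`pointer`: `VX P X ≤ WX P X` (`right_le_jn`); if `WX P X ≤ X` then `CodeComputes c X (VX P X)` for some `c` (`turingReducible_iff`), `c = ofNat Code (encode c)`; `exists_chain` (type 0,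
`e = encode c`), `chain_thr`, `R_sat`.  If `JJ X ≤ WX P X`: `DX P X ≤ JJ X` (`code_le_JJ`), so `CodeComputes c (WX P X) (DX P X)`; `exists_chain` (type 1), `N_sat`.
Last part: `WX_le1`, `WX_le2` (`h.total`, `maps_unique` give `Maps (P.G l) Z X`).
-/

set_option autoImplicit false

namespace Pool.Agent.CMG

open Encodable Nat.Partrec Pool.Agent.H19 Pool.Agent.AEI

theorem exists_code_WX (P : PSys) : ∃ r : Code, ∀ X n,
    (∃ s, (r.eval (encode (n, pre X s))).Dom) ↔ WX P X n = true := by
  have h1 : Computable₂ (fun (n : ℕ) (σ : List Bool) =>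
      if decide (n % 2 = 0) then σ.getD (n / 2) false
        else decide (n / 2 ∈ V (Dt P) σ)) := by
    have hd : Computable (fun x : ℕ × List Bool => x.1 / 2) :=
      comp_div Computable.fst (Computable.const 2)
    refine comp_ite (c := fun x : ℕ × List Bool => decide (x.1 % 2 = 0))
      (comp_decEq (comp_mod Computable.fst (Computable.const 2)) (Computable.const 0)) ?_ ?_
    · exact comp_getD Computable.snd hd
    · exact comp_VDt hd Computable.snd
  obtain ⟨r, hr⟩ := exists_code_dom h1
  refine ⟨r, fun X n => ?_⟩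
  simp only [hr]
  by_cases hn : n % 2 = 0
  · simp only [hn, decide_true, if_true, WX, jn]
    constructor
    · rintro ⟨s, hs⟩
      by_cases hns : n / 2 < s
      · rwa [pre_getD X hns] at hs
      · rw [List.getD_eq_default] at hs
        · simp at hs
        · rw [pre_length]; omega
    · intro hX
      exact ⟨n / 2 + 1, by rw [pre_getD X (Nat.lt_succ_self _)]; exact hX⟩
  · simp only [hn, decide_false, if_false, WX, jn, Bool.false_eq_true]
    rw [VX_iff]
    simp only [decide_eq_true_eq]

theorem exists_code_DX (P : PSys) : ∃ r : Code, ∀ X n,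
    (∃ s, (r.eval (encode (n, pre X s))).Dom) ↔ DX P X n = true := by
  obtain ⟨r, hr⟩ := exists_code_dom (comp_dcl (P := P))
  refine ⟨r, fun X n => ?_⟩
  simp only [hr]
  classical
  unfold DX
  rw [decide_eq_true_iff]

/-- The pointer theorem. -/
theorem pointer {P : PSys} (h : GoodSys P) : ∃ r : Code,
    (∀ X n, (∃ s, (r.eval (encode (n, pre X s))).Dom) ↔ WX P X n = true) ∧
    (∀ X, ¬ TuringReducible (chi (WX P X)) (chi X)) ∧
    (∀ X, ¬ TuringReducible (chi (JJ X)) (chi (WX P X))) ∧
    ∀ a X Z, Chain P a X Z → TuringReducible (chi (WX P X)) (chi (WX P Z)) ∧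
      TuringReducible (chi (WX P Z)) (chi (WX P X)) := by
  obtain ⟨r, hr⟩ := exists_code_WX P
  refine ⟨r, hr, ?_, ?_, ?_⟩
  · intro X hX
    have h1 : TuringReducible (chi (VX P X)) (chi X) := (right_le_jn X (VX P X)).trans hX
    obtain ⟨c, hc⟩ := turingReducible_iff.1 h1
    obtain ⟨a, Z, hch, hn⟩ := exists_chain h X (t := 0) (by omega) (encode c)
    obtain ⟨ts, hts⟩ := chain_thr h hch
    refine R_sat h hts hn ?_
    rw [Denumerable.ofNat_encode]
    exact hc
  · intro X hX
    obtain ⟨d, hd⟩ := exists_code_DX P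
    have h1 : TuringReducible (chi (DX P X)) (chi (JJ X)) := code_le_JJ (fun n => hd X n)
    obtain ⟨c, hc⟩ := turingReducible_iff.1 (h1.trans hX)
    obtain ⟨a, Z, hch, hn⟩ := exists_chain h X (t := 1) (by omega) (encode c)
    obtain ⟨ts, hts⟩ := chain_thr h hch
    refine N_sat h hts hn ?_
    rw [Denumerable.ofNat_encode]
    exact hc
  · intro a X Z hc
    induction hc with
    | nil X => exact ⟨TuringReducible.refl _, TuringReducible.refl _⟩
    | @cons p a X Y Z h1 h2 h3 ih =>
      obtain ⟨Y', k1, k2⟩ := h.total p X h1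
      have hY : Y = Y' := maps_unique (P.monoF p) h2 k1
      rw [← hY] at k2
      exact ⟨(WX_le2 h h1 h2 k2).trans ih.1, ih.2.trans (WX_le1 h h1 h2)⟩

end Pool.Agent.CMG
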