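import Pool.Agent.CMG.Defs

/-!
# CMG/CA: computability of the basic functions

All functions have the form `a ↦ V (D a) (τ a)`, ..., with `D : α → List Bool → ℕ × List ℕ` computable in both arguments (`Computable₂ D`).
Use the combinators of H19/CompList and H19/Codes (`comp_range`, `comp_list_filter`, `comp_list_map`, `comp_list_flatMap`, `comp_take`,
`comp_head`, `comp_ite`, `comp_and`, `comp_decLt`, ...; option `getD`: `Computable.option_getD`).
`comp_lastI`: `Nat.findGreatest` is a recursion: `lastI t τ = Nat.rec 0 (fun i r => if t (τ.take (i + 1)) then i + 1 else r) |τ|`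
(prove this equation by `Nat.findGreatest_succ`), use `Computable.nat_rec`.
-/

set_option autoImplicit false

namespace Pool.Agent.CMG

open Encodable Nat.Partrec Pool.Agent.H19 Pool.Agent.AEI

variable {α : Type*} [Primcodable α] {P : PSys} {D : α → List Bool → ℕ × List ℕ}

theorem comp_V (hD : Computable₂ D) {τ : α → List Bool} (hτ : Computable τ) :
    Computable fun a => V (D a) (τ a) := by
  have hg : Computable₂ fun (a : α) (i : ℕ) => (D a ((τ a).take i)).2 :=
    Computable.snd.comp (hD.comp Computable.fst (comp_take Computable.snd (hτ.comp Computable.fst)))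
  exact comp_list_flatMap (comp_range (Computable.succ.comp (Computable.list_length.comp hτ))) hg

theorem comp_cc {ρ : α → List Bool} (hρ : Computable ρ) : Computable fun a => cc P (ρ a) := by
  have hg : Computable₂ fun (a : α) (p : ℕ) => P.q p (ρ a) :=
    P.compq.comp Computable.snd (hρ.comp Computable.fst)
  exact Computable.option_getD (comp_head (comp_list_filter (comp_range (Computable.list_length.comp hρ)) hg))
    (Computable.list_length.comp hρ)

theorem comp_lastI {t : α → List Bool → Bool} (ht : Computable₂ t) {τ : α → List Bool} (hτ : Computable τ) :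
    Computable fun a => lastI (t a) (τ a) := by
  have key : ∀ (a : α), lastI (t a) (τ a) = Nat.rec (motive := fun _ => ℕ) 0
      (fun i r => if t a ((τ a).take (i + 1)) then i + 1 else r) (τ a).length := by
    intro a
    have h : ∀ n, Nat.findGreatest (fun i => t a ((τ a).take i) = true) n = Nat.rec (motive := fun _ => ℕ) 0
        (fun i r => if t a ((τ a).take (i + 1)) then i + 1 else r) n := by
      intro n
      induction n with
      | zero => simp
      | succ n ih => rw [Nat.findGreatest_succ, ih]
    exact h _
  have hh : Computable₂ fun (a : α) (q : ℕ × ℕ) => if t a ((τ a).take (q.1 + 1)) then q.1 + 1 else q.2 := by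
    have h1 : Computable fun (x : α × (ℕ × ℕ)) => x.2.1 + 1 :=
      Computable.succ.comp (Computable.fst.comp Computable.snd)
    refine comp_ite ?_ h1 (Computable.snd.comp Computable.snd)
    exact ht.comp Computable.fst (comp_take h1 (hτ.comp Computable.fst))
  have h2 := Computable.nat_rec (Computable.list_length.comp hτ) (Computable.const 0) hh
  exact h2.of_eq fun a => (key a).symm

theorem comp_evt (hD : Computable₂ D) {n : α → ℕ} {ρ : α → List Bool} (hn : Computable n) (hρ : Computable ρ) :
    Computable fun a => evt P (D a) (n a) (ρ a) := by
  have h1 := comp_cc (P := P) hρ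
  have h2 := Computable.list_length.comp hρ
  have h3 : Computable fun a => (D a (ρ a)).1 := Computable.fst.comp (hD.comp Computable.id hρ)
  exact comp_or (comp_and (comp_decLt h1 h2) (comp_decLt h1 hn))
    (comp_and (comp_decLt (Computable.const 0) h3) (comp_decLe h3 hn))

theorem comp_lastA (hD : Computable₂ D) {n : α → ℕ} {τ : α → List Bool} (hn : Computable n) (hτ : Computable τ) :
    Computable fun a => lastA P (D a) (n a) (τ a) := by
  have hD' : Computable₂ fun (p : α × List Bool) => D p.1 :=
    hD.comp (Computable.fst.comp Computable.fst) Computable.snd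
  have h := comp_evt (P := P) hD' (hn.comp Computable.fst) Computable.snd
  exact comp_lastI (t := fun a => evt P (D a) (n a)) h hτ

theorem comp_isL (hD : Computable₂ D) {n : α → ℕ} {ρ : α → List Bool} (hn : Computable n) (hρ : Computable ρ) :
    Computable fun a => isL P (D a) (n a) (ρ a) := by
  have h1 := comp_cc (P := P) hρ
  have h2 := Computable.list_length.comp hρ
  have h3 : Computable fun a => (D a (ρ a)).1 := Computable.fst.comp (hD.comp Computable.id hρ)
  exact comp_and (comp_and (comp_decEq h1 hn) (comp_decLt hn h2)) (comp_decEq h3 (Computable.const 0))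

theorem comp_lst (hD : Computable₂ D) {n : α → ℕ} {τ : α → List Bool} (hn : Computable n) (hτ : Computable τ) :
    Computable fun a => lst P (D a) (n a) (τ a) := by
  have hD' : Computable₂ fun (p : α × List Bool) => D p.1 :=
    hD.comp (Computable.fst.comp Computable.fst) Computable.snd
  have h := comp_isL (P := P) hD' (hn.comp Computable.fst) Computable.snd
  exact comp_take (comp_lastI (t := fun a => isL P (D a) (n a)) h hτ) hτ

end Pool.Agent.CMG
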