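import Pool.Agent.CMG.GDefs
import Pool.Agent.CMG.CA

/-!
# CMG/GCA: computability of the basic functions (part B)

All functions have the form `a ↦ dh (h a) (m a)`, with `h : α → Hist` and `m : α → ℕ` computable.  Use the combinators of H19/CompList and H19/Codes (`comp_range`, `comp_list_filter`, `comp_list_map`,
`comp_list_any`, `comp_list_all` (H19/Growth), `comp_list_foldl`, `comp_take`, `comp_ite`, `comp_and`, `comp_or`, `comp_not`, `comp_decEq`, `comp_decLe`,
`comp_decLt`, `comp_isPre`), `comp_zf` (AEI/SF).
`comp_dec`: `Computable.decode`, `Computable.option_getD`; the projections: `Computable.fst`, `Computable.snd`.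
`comp_ch`: `List.getD` is `[m]?.getD`, `Computable.list_getElem?` (or `Primrec.list_getD`).
`comp_compat`: `comp_isPre`, `comp_or`.
-/

set_option autoImplicit false

namespace Pool.Agent.CMG

open Encodable Nat.Partrec Pool.Agent.H19 Pool.Agent.AEI

variable {α : Type*} [Primcodable α] {h : α → Hist} {σ : α → List Bool}

theorem comp_dec {c : α → ℕ} (hc : Computable c) : Computable fun a => dec (c a) := by
  exact Computable.option_getD (Computable.decode.comp hc) (Computable.const _)

theorem comp_dtau {d : α → Dec} (hd : Computable d) : Computable fun a => dtau (d a) := by
  exact Computable.fst.comp (Computable.fst.comp hd)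

theorem comp_kd {d : α → Dec} (hd : Computable d) : Computable fun a => kd (d a) := by
  exact Computable.fst.comp (Computable.snd.comp (Computable.fst.comp hd))

theorem comp_tt {d : α → Dec} (hd : Computable d) : Computable fun a => tt (d a) := by
  exact Computable.snd.comp (Computable.snd.comp (Computable.fst.comp hd))

theorem comp_pa {d : α → Dec} (hd : Computable d) : Computable fun a => pa (d a) := by
  exact Computable.fst.comp (Computable.fst.comp (Computable.snd.comp hd))

theorem comp_pb {d : α → Dec} (hd : Computable d) : Computable fun a => pb (d a) := by
  exact Computable.snd.comp (Computable.fst.comp (Computable.snd.comp hd))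

theorem comp_la {d : α → Dec} (hd : Computable d) : Computable fun a => la (d a) := by
  exact Computable.fst.comp (Computable.fst.comp (Computable.snd.comp (Computable.snd.comp hd)))

theorem comp_lb {d : α → Dec} (hd : Computable d) : Computable fun a => lb (d a) := by
  exact Computable.snd.comp (Computable.fst.comp (Computable.snd.comp (Computable.snd.comp hd)))

theorem comp_fi {d : α → Dec} (hd : Computable d) : Computable fun a => fi (d a) := by
  exact Computable.fst.comp (Computable.snd.comp (Computable.snd.comp (Computable.snd.comp hd)))

theorem comp_gi {d : α → Dec} (hd : Computable d) : Computable fun a => gi (d a) := by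
  exact Computable.snd.comp (Computable.snd.comp (Computable.snd.comp (Computable.snd.comp hd)))

theorem comp_fn {e : α → ℕ} (he : Computable e) (hσ : Computable σ) : Computable fun a => fn (e a) (σ a) := by
  exact comp_zf ((Computable.ofNat Code).comp he) hσ

theorem comp_ch {m : α → ℕ} (hh : Computable h) (hm : Computable m) : Computable fun a => ch (h a) (m a) := by
  have h1 : Computable fun a => ((h a)[m a]?).getD (0, 0) :=
    Computable.option_getD (Computable.list_getElem?.comp hh hm) (Computable.const (0, 0))
  exact (Computable.fst.comp h1).of_eq fun a => by rw [ch, List.getD_eq_getElem?_getD]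

theorem comp_kh {m : α → ℕ} (hh : Computable h) (hm : Computable m) : Computable fun a => kh (h a) (m a) := by
  have h1 : Computable fun a => ((h a)[m a]?).getD (0, 0) :=
    Computable.option_getD (Computable.list_getElem?.comp hh hm) (Computable.const (0, 0))
  exact (Computable.snd.comp h1).of_eq fun a => by rw [kh, List.getD_eq_getElem?_getD]

theorem comp_dh {m : α → ℕ} (hh : Computable h) (hm : Computable m) : Computable fun a => dh (h a) (m a) := by
  exact comp_dec (comp_ch hh hm)

theorem comp_dl (hh : Computable h) : Computable fun a => dl (h a) := by
  exact comp_dh hh (Primrec.nat_sub.to_comp.comp (Computable.list_length.comp hh) (Computable.const 1))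

theorem comp_tsk {n : α → ℕ} (hn : Computable n) : Computable fun a => tsk (n a) := by
  exact Computable.option_getD (Computable.decode.comp hn) (Computable.const _)

theorem comp_compat {τ : α → List Bool} (hσ : Computable σ) (hτ : Computable τ) :
    Computable fun a => compat (σ a) (τ a) := by
  exact comp_or (comp_isPre hσ hτ) (comp_isPre hτ hσ)

end Pool.Agent.CMG
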