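import Pool.Agent.CMG.GAT

/-!
# CMG/GUN: at most one active pointer; the next pointer of a chain is later

PROOFS.  `fi_congr`: `fire_congr`.  `act_unique`: both histories are right.  If `|h| = |h'|` they are equal (`good_eq`).  If `|h| < |h'|` then `h = h'.take |h|`
(`good_prefix`) and `m = |h| - 1 < |h'| - 1` fires infinitely often along `X` (`fi_of_act`, `fire_take`), but `Act.nX` of `h'` says that `fire h' m (pre X s)` is false
for `s > tt`.  `act_next`: suppose `|h'| ≤ |h|`; `h' = h.take |h'|`.  If `|h'| < |h|` use `Act.nZ` of `h` and `fi_of_act` of `h'`; if `|h'| = |h|` then `h' = h` and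
`act_self` contradicts `fi_of_act` of `h'`.
-/

set_option autoImplicit false

namespace Pool.Agent.CMG

open Encodable Nat.Partrec Pool.Agent.H19 Pool.Agent.AEI

theorem fi_take {h : Hist} {n m : ℕ} (hm : m < n) {X : ℕ → Bool} : Fi (h.take n) m X ↔ Fi h m X := by
  unfold Fi
  rw [fire_take hm]

private theorem GUN_aux {h h' : Hist} {X Z Z' : ℕ → Bool} (ha : Act h X Z) (ha' : Act h' X Z')
    (hl : h.length < h'.length) : False := by
  have heq := good_prefix ha.good ha'.good hl.le
  have hpos := ha.pos
  have hfi := fi_of_act ha
  obtain ⟨s, hs, hf⟩ := hfi (tt (dl h') + 1)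
  have h1 : fire h (h.length - 1) = fire h' (h.length - 1) := by
    conv_lhs => rw [heq]
    rw [List.length_take, min_eq_left hl.le]
    exact fire_take (by omega)
  have h2 := ha'.nX (h.length - 1) (by omega) s (by omega)
  rw [h1, h2] at hf
  exact absurd hf (by simp)

theorem act_unique {h h' : Hist} {X Z Z' : ℕ → Bool} (ha : Act h X Z) (ha' : Act h' X Z') : h = h' := by
  rcases lt_trichotomy h.length h'.length with hl | hl | hl
  · exact (GUN_aux ha ha' hl).elim
  · exact good_eq ha.good ha'.good hl
  · exact (GUN_aux ha' ha hl).elim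

theorem act_next {h h' : Hist} {X Y Z : ℕ → Bool} (ha : Act h X Y) (ha' : Act h' Y Z) : h.length < h'.length := by
  by_contra hn
  have hpos' := ha'.pos
  rcases Nat.lt_or_ge h'.length h.length with hl | hl
  · have heq := good_prefix ha'.good ha.good hl.le
    obtain ⟨s, hs, hf⟩ := fi_of_act ha' (tt (dl h) + 1)
    have h1 : fire h' (h'.length - 1) = fire h (h'.length - 1) := by
      conv_lhs => rw [heq]
      rw [List.length_take, min_eq_left hl.le]
      exact fire_take (by omega)
    have h2 := ha.nZ (h'.length - 1) (by omega) s (by omega)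
    rw [h1, h2] at hf
    exact absurd hf (by simp)
  · have heq := good_eq ha'.good ha.good (by omega)
    subst heq
    obtain ⟨s, hs, hf⟩ := fi_of_act ha' ((la (dl h')).length + (lb (dl h')).length)
    have h2 := act_self ha (s := s) (by omega) (by omega)
    rw [h2] at hf
    exact absurd hf (by simp)

end Pool.Agent.CMG
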