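import Pool.Agent.CMG.GSY
import Pool.Agent.CMG.GUN

/-!
# CMG/GSS: the pointers of the system

PROOFS.  `act_of_Q`: `q_gsys`; `vld p` (at one stage) gives `0 < |hh p|` and `Pos (hh p) = p` (`vld_iff`), and `Fi (hh p) (|hh p| - 1) X`; `act_of_fi`
(`h.take (|h| - 1 + 1) = h`).  `Q_of_act`: `fi_of_act`, `hh_Pos`, `vld_Pos`, `q_gsys`.  `Q_of_fi`: `fi_take`, the same.
`gsys_total`: `act_of_Q`, `Act.mF`, `Act.mG`.  `gsys_uni`: `act_unique`.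
-/

set_option autoImplicit false

namespace Pool.Agent.CMG

open Encodable Nat.Partrec Pool.Agent.H19 Pool.Agent.AEI

theorem act_of_Q {p : ℕ} {X : ℕ → Bool} (hq : Q gsys p X) : (∃ Z, Act (hh p) X Z) ∧ Pos (hh p) = p := by
  obtain ⟨s0, -, h0⟩ := hq 0
  obtain ⟨hl, hp⟩ := vld_iff.1 (q_gsys.1 h0).1
  refine ⟨?_, hp⟩
  have hf : Fi (hh p) ((hh p).length - 1) X := by
    intro N
    obtain ⟨s, hs, h1⟩ := hq N
    exact ⟨s, hs, (q_gsys.1 h1).2⟩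
  obtain ⟨Z, hZ⟩ := act_of_fi (by omega) hf
  rw [Nat.sub_add_cancel hl, List.take_length] at hZ
  exact ⟨Z, hZ⟩

theorem Q_of_act {h : Hist} {X Z : ℕ → Bool} (ha : Act h X Z) : Q gsys (Pos h) X := by
  intro N
  obtain ⟨s, hs, h1⟩ := fi_of_act ha N
  refine ⟨s, hs, q_gsys.2 ⟨vld_Pos ha.pos, ?_⟩⟩
  rw [hh_Pos ha.pos]
  exact h1

theorem Q_of_fi {h : Hist} {m : ℕ} {X : ℕ → Bool} (hm : m < h.length) (hf : Fi h m X) : Q gsys (Pos (h.take (m + 1))) X := by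
  obtain ⟨Z, hZ⟩ := act_of_fi hm hf
  exact Q_of_act hZ

theorem gsys_total (p : ℕ) (X : ℕ → Bool) (hq : Q gsys p X) : ∃ Z, Maps (gsys.F p) X Z ∧ Maps (gsys.G p) Z X := by
  obtain ⟨⟨Z, hZ⟩, -⟩ := act_of_Q hq
  refine ⟨Z, ?_, ?_⟩
  · rw [F_gsys]
    exact hZ.mF
  · rw [G_gsys]
    exact hZ.mG

theorem gsys_uni (p p' : ℕ) (X : ℕ → Bool) (hq : Q gsys p X) (hq' : Q gsys p' X) : p = p' := by
  obtain ⟨⟨Z, hZ⟩, hp⟩ := act_of_Q hq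
  obtain ⟨⟨Z', hZ'⟩, hp'⟩ := act_of_Q hq'
  rw [← hp, ← hp', act_unique hZ hZ']

end Pool.Agent.CMG
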