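import Pool.Agent.CMG.GAT
import Pool.Agent.CMG.GSS

/-!
# CMG/GPR: paths followed by a sequence
-/

set_option autoImplicit false

namespace Pool.Agent.CMG

open Encodable Nat.Partrec Pool.Agent.H19 Pool.Agent.AEI

theorem actP_of_pc {h : Hist} {a : List ℕ} {X : ℕ → Bool} (ha : ∀ m ∈ a, m < h.length)
    (hp : ∀ L, ∃ s, L ≤ pc h (fire h) a (pre X s)) : ∃ Z, ActP h a X Z := by
  induction a generalizing X with
  | nil => exact ⟨X, ActP.nil X⟩
  | cons m a ih =>
    have hm : m < h.length := ha m (List.mem_cons_self)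
    have hp' : ∀ L, ∃ s, L ≤ nf h (fire h) m (pre X s) ∧ L ≤ pc h (fire h) a (fn (fi (dh h m)) (pre X s)) := by
      intro L
      obtain ⟨s, hs⟩ := hp L
      have hs' : L ≤ min (nf h (fire h) m (pre X s)) (pc h (fire h) a (fn (fi (dh h m)) (pre X s))) := hs
      exact ⟨s, le_trans hs' (min_le_left _ _), le_trans hs' (min_le_right _ _)⟩
    have hF : Fi h m X := (nf_inf hm).1 fun L => by
      obtain ⟨s, hs, _⟩ := hp' L
      exact ⟨s, hs⟩
    obtain ⟨Y, hA⟩ := act_of_fi hm hF
    have hd := dl_take hm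
    have mF := hA.mF
    have mG := hA.mG
    rw [hd] at mF mG
    obtain ⟨Z, hZ⟩ := ih (X := Y) (fun x hx => ha x (List.mem_cons_of_mem _ hx)) (by
      intro L
      obtain ⟨s, _, hs⟩ := hp' L
      refine ⟨(fn (fi (dh h m)) (pre X s)).length, ?_⟩
      rw [← maps_pre (fun _ _ h => fn_mono _ h) mF s]
      exact hs)
    exact ⟨Z, ActP.cons hm hF mF mG hZ⟩

theorem maps_fwp {h : Hist} {a : List ℕ} {X Z : ℕ → Bool} (hA : ActP h a X Z) : Maps (fwp h a) X Z := by
  induction hA with
  | nil X => exact maps_id X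
  | @cons m a X Y Z h0 h1 h2 h2' h3 ih =>
    exact maps_comp (F := fn (fi (dh h m))) (fun _ _ h => fn_mono _ h) (G := fwp h a)
      (fun _ _ hp => fwp_mono h a hp) h2 ih

theorem maps_bkp {h : Hist} {a : List ℕ} {X Z : ℕ → Bool} (hA : ActP h a X Z) : Maps (bkp h a) Z X := by
  induction hA with
  | nil X => exact maps_id X
  | @cons m a X Y Z h0 h1 h2 h2' h3 ih =>
    exact maps_comp (F := bkp h a) (fun _ _ hp => bkp_mono h a hp) (G := fn (gi (dh h m)))
      (fun _ _ h => fn_mono _ h) ih h2'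

theorem chain_of_actP {h : Hist} {a : List ℕ} {X Z : ℕ → Bool} (hA : ActP h a X Z) :
    Chain gsys (a.map fun m => Pos (h.take (m + 1))) X Z := by
  induction hA with
  | nil X => exact Chain.nil X
  | @cons m a X Y Z h0 h1 h2 h2' h3 ih =>
    rw [List.map_cons]
    refine Chain.cons (Q_of_fi h0 h1) ?_ ih
    have hpos : 0 < (h.take (m + 1)).length := by
      rw [List.length_take]; omega
    rw [F_gsys, hh_Pos hpos, dl_take h0]
    exact h2

theorem chain_snoc {P : PSys} {a : List ℕ} {p : ℕ} {X Y Z : ℕ → Bool} (hc : Chain P a X Y) (hq : Q P p Y)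
    (hF : Maps (P.F p) Y Z) : Chain P (a ++ [p]) X Z := by
  induction hc with
  | nil X => exact Chain.cons hq hF (Chain.nil Z)
  | cons h1 h2 h3 ih => exact Chain.cons h1 h2 (ih hq hF)

end Pool.Agent.CMG
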