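import Pool.Agent.CMG.CB

/-!
# CMG/CC: computability of the requirements and of one step

PROOF.  Compose (`comp_hit` of AEI/SF, `comp_getD`, `comp_div`, `comp_mod` of H19/Constr; `dropLast` is `take (length - 1)`,
`List.dropLast_eq_take`; membership of a number in a list: `comp_list_any` with `decide (x = y)`).
`comp_pth`: `Computable.ofNat (List ℕ)`.  `comp_step`: `Computable.option_casesOn`.
-/

set_option autoImplicit false

namespace Pool.Agent.CMG

open Encodable Nat.Partrec Pool.Agent.H19 Pool.Agent.AEI

variable {α : Type*} [Primcodable α] {P : PSys} {D : α → List Bool → ℕ × List ℕ}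

theorem comp_ty {n : α → ℕ} (hn : Computable n) : Computable fun a => ty (n a) :=
  Computable.fst.comp (Primrec.unpair.to_comp.comp hn)

theorem comp_pth {n : α → ℕ} (hn : Computable n) : Computable fun a => pth (n a) :=
  (Computable.ofNat (List ℕ)).comp (Computable.fst.comp (Primrec.unpair.to_comp.comp
    (Computable.snd.comp (Primrec.unpair.to_comp.comp hn))))

theorem comp_ei {n : α → ℕ} (hn : Computable n) : Computable fun a => ei (n a) :=
  (Computable.ofNat Code).comp (Computable.snd.comp (Primrec.unpair.to_comp.comp
    (Computable.snd.comp (Primrec.unpair.to_comp.comp hn))))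

theorem comp_yy {n w : α → ℕ} (hn : Computable n) (hw : Computable w) : Computable fun a => yy (n a) (w a) :=
  comp_natpair (Computable.const 0) (comp_natpair hn hw)

theorem comp_dropLast {σ : α → List Bool} (hσ : Computable σ) : Computable fun a => (σ a).dropLast :=
  (comp_take (Primrec.nat_sub.to_comp.comp (Computable.list_length.comp hσ) (Computable.const 1)) hσ).of_eq
    fun _ => List.dropLast_eq_take.symm

theorem comp_mem {x : α → ℕ} {l : α → List ℕ} (hx : Computable x) (hl : Computable l) :
    Computable fun a => decide (x a ∈ l a) := by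
  refine (comp_list_any (g := fun a y => decide (x a = y)) hl
    (comp_decEq (hx.comp Computable.fst) Computable.snd)).of_eq fun a => ?_
  rw [Bool.eq_iff_iff, List.any_eq_true, decide_eq_true_iff]
  constructor
  · rintro ⟨y, hy, h⟩
    rw [decide_eq_true_iff] at h
    exact h ▸ hy
  · intro h
    exact ⟨x a, h, decide_eq_true rfl⟩

theorem comp_rst (hD : Computable₂ D) {n : α → ℕ} {ρ : α → List Bool} (hn : Computable n) (hρ : Computable ρ) :
    Computable fun a => rst P (D a) (n a) (ρ a) := by
  have h1 := comp_cc (P := P) hρ
  have h2 := Computable.list_length.comp hρ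
  have h3 : Computable fun a => (D a (ρ a)).1 := Computable.fst.comp (hD.comp Computable.id hρ)
  have h4 := comp_dropLast hρ
  exact comp_or (comp_or (comp_and (comp_decLt h1 h2) (comp_decLe h1 hn))
    (comp_and (comp_decLt (Computable.const 0) h3) (comp_decLe h3 hn)))
    (comp_not (comp_decEq (comp_sg (P := P) hD (comp_pth hn) h4)
      (comp_sg (P := P) hD (comp_pth hn) (comp_dropLast h4))))

private theorem cc_D' (hD : Computable₂ D) {β : Type*} [Primcodable β] :
    Computable₂ fun (x : α × β) => D x.1 :=
  hD.comp (Computable.fst.comp Computable.fst) Computable.snd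

theorem comp_wt (hD : Computable₂ D) {n : α → ℕ} {σ : α → List Bool} (hn : Computable n) (hσ : Computable σ) :
    Computable fun a => wt P (D a) (n a) (σ a) :=
  comp_lastI (t := fun a => rst P (D a) (n a))
    (comp_rst (P := P) (cc_D' hD) (hn.comp Computable.fst) Computable.snd) hσ

private theorem cc_acted (hD : Computable₂ D) {n : α → ℕ} {σ : α → List Bool} (hn : Computable n) (hσ : Computable σ) :
    Computable fun a => acted P (D a) (n a) (σ a) := by
  have h3 : Computable₂ fun (a : α) (ρ : List Bool) => decide ((D a ρ).1 = n a + 1) :=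
    comp_decEq (Computable.fst.comp (hD.comp Computable.fst Computable.snd))
      (Computable.succ.comp (hn.comp Computable.fst))
  exact comp_decLt (comp_wt (P := P) hD hn hσ) (comp_lastI h3 hσ)

private theorem cc_ws (hD : Computable₂ D) {p : α → List ℕ} {σ : α → List Bool} (hp : Computable p)
    (hσ : Computable σ) : Computable fun a => ws P (D a) (p a) (σ a) := by
  refine comp_list_map (g := fun a i => if decide (i % 2 = 0) then (bk P (p a) (σ a)).getD (i / 2) false
    else decide (i / 2 ∈ vh P (D a) (p a) (σ a))) (comp_range (comp_lens (P := P) hD hp hσ)) ?_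
  have h2 : Computable fun (x : α × ℕ) => x.2 / 2 := comp_div Computable.snd (Computable.const 2)
  exact comp_ite (c := fun x : α × ℕ => decide (x.2 % 2 = 0))
    (comp_decEq (comp_mod Computable.snd (Computable.const 2)) (Computable.const 0))
    (comp_getD ((comp_bk (P := P) hp hσ).comp Computable.fst) h2)
    (comp_mem h2 ((comp_vh (P := P) hD hp hσ).comp Computable.fst))

private theorem cc_tst (hD : Computable₂ D) {n : α → ℕ} {σ : α → List Bool} (hn : Computable n) (hσ : Computable σ) :
    Computable fun a => tst P (D a) (n a) (σ a) := by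
  have hw := comp_wt (P := P) hD hn hσ
  exact comp_ite (c := fun a => decide (ty (n a) = 0)) (comp_decEq (comp_ty hn) (Computable.const 0))
    (comp_hit (Computable.const 0) (comp_ei hn) (comp_cod (comp_pth hn) (comp_yy hn hw))
      (comp_bk (P := P) (comp_pth hn) hσ))
    (comp_hit (Computable.const 0) (comp_ei hn) (comp_natpair hn hw) (cc_ws (P := P) hD (comp_pth hn) hσ))

theorem comp_act (hD : Computable₂ D) {n : α → ℕ} {σ : α → List Bool} (hn : Computable n) (hσ : Computable σ) :
    Computable fun a => act P (D a) (n a) (σ a) :=
  comp_and (comp_and (comp_not (cc_acted (P := P) hD hn hσ))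
    (comp_decEq (comp_sg (P := P) hD (comp_pth hn) hσ) (comp_sg (P := P) hD (comp_pth hn) (comp_dropLast hσ))))
    (cc_tst (P := P) hD hn hσ)

theorem comp_step (hD : Computable₂ D) {σ : α → List Bool} {b : α → Bool} (hσ : Computable σ) (hb : Computable b) :
    Computable fun a => step P (D a) (σ a) (b a) := by
  have hσb : Computable fun a => σ a ++ [b a] :=
    Computable.list_append.comp hσ (Computable.list_cons.comp hb (Computable.const []))
  have hc := comp_cc (P := P) hσb
  have h1 : Computable₂ fun (a : α) (m : ℕ) => act P (D a) m (σ a) :=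
    comp_act (P := P) (cc_D' hD) Computable.snd (hσ.comp Computable.fst)
  have ho := comp_head (comp_list_filter (comp_range hc) h1)
  have hF : Computable fun a => P.F (cc P (σ a ++ [b a])) (σ a) := P.compF.comp hc hσ
  have hM : Computable fun a => (V (D a) (P.F (cc P (σ a ++ [b a])) (σ a))).map
      (Nat.pair (cc P (σ a ++ [b a]) + 1)) :=
    comp_list_map (g := fun a y => Nat.pair (cc P (σ a ++ [b a]) + 1) y) (comp_V hD hF)
      (comp_natpair (Computable.succ.comp (hc.comp Computable.fst)) Computable.snd)
  have hFl := comp_list_filter (g := fun a x => decide (lastA P (D a) (cc P (σ a ++ [b a])) (σ a) ≤ x)) hM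
    (comp_decLe ((comp_lastA (P := P) hD hc hσ).comp Computable.fst) Computable.snd)
  have hf : Computable fun a => ((0 : ℕ), if decide (cc P (σ a ++ [b a]) < (σ a).length + 1) then
      ((V (D a) (P.F (cc P (σ a ++ [b a])) (σ a))).map (Nat.pair (cc P (σ a ++ [b a]) + 1))).filter
        fun x => decide (lastA P (D a) (cc P (σ a ++ [b a])) (σ a) ≤ x) else []) :=
    (Computable.const 0).pair (comp_ite (c := fun a => decide (cc P (σ a ++ [b a]) < (σ a).length + 1))
      (comp_decLt hc (Computable.succ.comp (Computable.list_length.comp hσ))) hFl (Computable.const []))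
  have hg : Computable₂ fun (a : α) (m : ℕ) => (m + 1, if decide (ty m = 0) then [yy m (wt P (D a) m (σ a))]
      else ([] : List ℕ)) := by
    refine (Computable.succ.comp Computable.snd).pair (comp_ite (c := fun x : α × ℕ => decide (ty x.2 = 0))
      (comp_decEq (comp_ty Computable.snd) (Computable.const 0)) ?_ (Computable.const []))
    exact Computable.list_cons.comp (comp_yy Computable.snd
      (comp_wt (P := P) (cc_D' hD) Computable.snd (hσ.comp Computable.fst))) (Computable.const [])
  exact Computable.option_casesOn ho hf hg

end Pool.Agent.CMG
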