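import Pool.Agent.CMG.GFE
import Pool.Agent.CMG.CC

/-!
# CMG/GPO: the positions

PROOFS.  `comp_PPn`: `Computable.nat_rec`; `comp_bl`: the same; `encode` of a list is computable (`Computable.encode`), `comp_take`, `comp_natpair`.
`PPn_take`: induction on `k` (`List.take_take`).  `hh_Pos`: `PPn h (k + 1) = pair _ (encode (h.take (k + 1)))` with `k + 1 = |h|`, `Nat.unpair_pair`,
`Denumerable.ofNat_encode`.
-/

set_option autoImplicit false

namespace Pool.Agent.CMG

open Encodable Nat.Partrec Pool.Agent.H19 Pool.Agent.AEI

variable {h : Hist}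

private theorem gpo_bl_rec (u i : ℕ) :
    bl u i = Nat.rec (motive := fun _ => ℕ) 0 (fun _ r => Nat.pair u r + 1) i := by
  induction i with
  | zero => rfl
  | succ i ih => show Nat.pair u (bl u i) + 1 = _; rw [ih]

private theorem gpo_comp_bl {α : Type*} [Primcodable α] {u i : α → ℕ} (hu : Computable u) (hi : Computable i) :
    Computable fun a => bl (u a) (i a) := by
  have hs : Computable₂ fun (a : α) (q : ℕ × ℕ) => Nat.pair (u a) q.2 + 1 :=
    Computable.succ.comp (comp_natpair (hu.comp Computable.fst) (Computable.snd.comp Computable.snd))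
  exact (Computable.nat_rec hi (Computable.const 0) hs).of_eq fun a => (gpo_bl_rec _ _).symm

private theorem gpo_comp_bd {α : Type*} [Primcodable α] {u : α → ℕ} (hu : Computable u) :
    Computable fun a => bd (u a) :=
  Computable.succ.comp (comp_natpair (Computable.const 1) (comp_natpair (gpo_comp_bl hu hu) hu))

private theorem gpo_PPn_rec (h : Hist) (i : ℕ) :
    PPn h i = Nat.rec (motive := fun _ => ℕ) 0
      (fun k r => Nat.pair (bd r) (encode (h.take (k + 1)))) i := by
  induction i with
  | zero => rfl
  | succ i ih => show Nat.pair (bd (PPn h i)) (encode (h.take (i + 1))) = _; rw [ih]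

private theorem gpo_comp_PPn {α : Type*} [Primcodable α] {h : α → Hist} {i : α → ℕ} (hh : Computable h)
    (hi : Computable i) : Computable fun a => PPn (h a) (i a) := by
  have hs : Computable₂ fun (a : α) (q : ℕ × ℕ) => Nat.pair (bd q.2) (encode ((h a).take (q.1 + 1))) := by
    refine comp_natpair (gpo_comp_bd (Computable.snd.comp Computable.snd)) (Computable.encode.comp ?_)
    exact comp_take (Computable.succ.comp (Computable.fst.comp Computable.snd)) (hh.comp Computable.fst)
  exact (Computable.nat_rec hi (Computable.const 0) hs).of_eq fun a => (gpo_PPn_rec _ _).symm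

theorem comp_Pos {α : Type*} [Primcodable α] {h : α → Hist} (hh : Computable h) : Computable fun a => Pos (h a) :=
  gpo_comp_PPn hh (Computable.list_length.comp hh)

theorem comp_hh {α : Type*} [Primcodable α] {p : α → ℕ} (hp : Computable p) : Computable fun a => hh (p a) :=
  (Computable.ofNat (List (ℕ × ℕ))).comp (Computable.snd.comp (Computable.unpair.comp hp))

theorem comp_vld {α : Type*} [Primcodable α] {p : α → ℕ} (hp : Computable p) : Computable fun a => vld (p a) :=
  comp_and (comp_decLt (Computable.const 0) (Computable.list_length.comp (comp_hh hp)))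
    (comp_decEq (comp_Pos (comp_hh hp)) hp)

theorem vld_iff {p : ℕ} : vld p = true ↔ 0 < (hh p).length ∧ Pos (hh p) = p := by
  unfold vld
  rw [Bool.and_eq_true, decide_eq_true_iff, decide_eq_true_iff]

theorem hh_Pos (hl : 0 < h.length) : hh (Pos h) = h := by
  obtain ⟨k, hk⟩ : ∃ k, h.length = k + 1 := ⟨h.length - 1, by omega⟩
  have h1 : Pos h = Nat.pair (bd (PPn h k)) (encode (h.take (k + 1))) := by
    unfold Pos; rw [hk]; rfl
  unfold hh
  rw [h1, Nat.unpair_pair, ← hk, List.take_length]
  exact Denumerable.ofNat_encode h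

theorem vld_Pos (hl : 0 < h.length) : vld (Pos h) = true := by
  rw [vld_iff, hh_Pos hl]
  exact ⟨hl, rfl⟩

theorem PPn_take {n k : ℕ} (hk : k ≤ n) : PPn (h.take n) k = PPn h k := by
  induction k with
  | zero => rfl
  | succ k ih =>
    show Nat.pair (bd (PPn (h.take n) k)) (encode ((h.take n).take (k + 1))) = Nat.pair (bd (PPn h k)) (encode (h.take (k + 1)))
    rw [ih (by omega), List.take_take, min_eq_left hk]

end Pool.Agent.CMG
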