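import Pool.Agent.CMG.COH
import Pool.Agent.CMG.CHN

/-!
# CMG/APX: the approximation to the first set of a chain is correct

PROOF of `approx` by induction on the chain.  `a = []`: `vh = V (pre Z s)`, `VX_iff` and `h3`.  Step `l :: a`, `t :: ts`, `X → Y → .. → Z`: let `τ = bk P (l :: a) (pre Z s)`,
an initial segment of `X` (`chain_bk`, `maps_pre`), `ρ = lst l τ = pre X r`, `r = |ρ| ≥ u`, `lastA l (pre X r) = t` (head of `h1`).  The induction hypothesis gives
`VX P Y x = true ↔ x ∈ vh a (pre Z s)` for `x < u`.  If `r = 0` then `u = 0`.  Otherwise `pre X r` is an `l`-stage (`lastI_spec`).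
(→) `VX P X x = true`, `x < u ≤ r`.  If `x = ⟨l + 1, y⟩` with `t ≤ x`: `y ≤ x < u`, `VX P Y y = true` (`copy_eq`), so `y ∈ vh a (pre Z s)` and `x` is in the filtered list.
Otherwise `x ∈ V (pre X r)` by `settled`.
(←) `x ∈ V (pre X r)`: `VX_iff`.  `x = ⟨l + 1, y⟩`, `y ∈ vh a (pre Z s)`, `t ≤ x`: `y < u`, `VX P Y y = true`, `copy_eq`.
`ws_take`: entry `i < u ≤ lens`: `i` even: `(bk P a (pre Z s)).getD (i / 2) false = X (i / 2)` since `i / 2 < |bk ..|` (`lens_le`); `i` odd: `i / 2 < u`, `approx`.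
-/

set_option autoImplicit false

namespace Pool.Agent.CMG

open Encodable Nat.Partrec Pool.Agent.H19 Pool.Agent.AEI

variable {P : PSys}

private theorem apx_lst {X : ℕ → Bool} {l : ℕ} {τ : List Bool} (hτ : τ = pre X τ.length) :
    ∃ r, lst P (Dt P) l τ = pre X r ∧ (0 < r → isL P (Dt P) l (pre X r) = true) := by
  obtain ⟨k, rfl⟩ : ∃ k, τ = pre X k := ⟨_, hτ⟩
  have hle : lastI (isL P (Dt P) l) (pre X k) ≤ k := by
    have h1 := lastI_le (isL P (Dt P) l) (pre X k)
    rwa [pre_length] at h1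
  refine ⟨lastI (isL P (Dt P) l) (pre X k), ?_, fun h => (lastI_pre_spec h).2⟩
  exact pre_take X hle

theorem approx (h : GoodSys P) {a ts : List ℕ} {X Z : ℕ → Bool} (hc : ChainT P a ts X Z) {s u : ℕ}
    (h1 : sg P (Dt P) a (pre Z s) = ts) (h2 : u ≤ lens P (Dt P) a (pre Z s))
    (h3 : ∀ x < u, VX P Z x = true → x ∈ V (Dt P) (pre Z s)) :
    ∀ x < u, (VX P X x = true ↔ x ∈ vh P (Dt P) a (pre Z s)) := by
  induction hc with
  | nil X =>
    intro x hx
    exact ⟨h3 x hx, fun h => VX_iff.2 ⟨s, h⟩⟩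
  | @cons p t a ts X Y Z hQ hm ht hc ih =>
    have hch : Chain P (p :: a) X Z := Chain.cons hQ hm hc.chain
    have hbk := chain_bk h hch
    have hsg : lastA P (Dt P) p (lst P (Dt P) p (bk P (p :: a) (pre Z s))) = t ∧
        sg P (Dt P) a (pre Z s) = ts := by
      rw [sg, List.cons.injEq] at h1
      exact h1
    have hlen : u ≤ (lst P (Dt P) p (bk P (p :: a) (pre Z s))).length ∧
        u ≤ lens P (Dt P) a (pre Z s) := by
      rw [lens, le_min_iff] at h2
      exact h2
    have ih' := ih hsg.2 hlen.2 h3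
    obtain ⟨r, hr, hisL⟩ := apx_lst (P := P) (l := p) (maps_pre (fun _ _ => bk_mono P (p :: a)) hbk s)
    have hvh : ∀ x, x ∈ vh P (Dt P) (p :: a) (pre Z s) ↔ x ∈ V (Dt P) (pre X r) ∨
        (∃ y ∈ vh P (Dt P) a (pre Z s), Nat.pair (p + 1) y = x) ∧ t ≤ x := by
      intro x
      rw [vh, List.mem_append, List.mem_filter, List.mem_map, decide_eq_true_eq, hsg.1, hr]
    rw [hr] at hsg hlen
    rw [pre_length] at hlen
    intro x hx
    have hr0 : 0 < r := by omega
    rw [hvh]
    constructor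
    · intro hX
      by_cases hc2 : ∃ y, x = Nat.pair (p + 1) y ∧ t ≤ x
      · obtain ⟨y, hxy, htx⟩ := hc2
        right
        have hyx : y ≤ x := by rw [hxy]; exact Nat.right_le_pair _ _
        subst hxy
        rw [copy_eq hQ hm ht htx] at hX
        exact ⟨⟨y, (ih' y (by omega)).1 hX, rfl⟩, htx⟩
      · left
        refine (settled ht (hisL hr0) hsg.1 (by omega) (fun y hxy => ?_)).1 hX
        by_contra hn
        exact hc2 ⟨y, hxy, by omega⟩
    · rintro (hV | ⟨⟨y, hy, hxy⟩, htx⟩)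
      · exact VX_iff.2 ⟨r, hV⟩
      · have hyx : y ≤ x := by rw [← hxy]; exact Nat.right_le_pair _ _
        subst hxy
        rw [copy_eq hQ hm ht htx]
        exact (ih' y (by omega)).2 hy

theorem ws_take (h : GoodSys P) {a ts : List ℕ} {X Z : ℕ → Bool} (hc : ChainT P a ts X Z) {s u : ℕ}
    (h1 : sg P (Dt P) a (pre Z s) = ts) (h2 : u ≤ lens P (Dt P) a (pre Z s))
    (h3 : ∀ x < u, VX P Z x = true → x ∈ V (Dt P) (pre Z s)) :
    (ws P (Dt P) a (pre Z s)).take u = pre (WX P X) u := by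
  have happ := approx h hc h1 h2 h3
  have hbk := chain_bk h hc.chain
  have hll := lens_le (P := P) a (pre Z s)
  rw [ws, ← List.map_take, List.take_range, min_eq_left h2]
  show _ = (List.range u).map (WX P X)
  apply List.map_congr_left
  intro i hi
  rw [List.mem_range] at hi
  have hW : WX P X i = if i % 2 = 0 then X (i / 2) else VX P X (i / 2) := rfl
  rw [hW]
  by_cases hi2 : i % 2 = 0
  · rw [if_pos hi2, if_pos (by simpa using hi2), maps_pre (fun _ _ => bk_mono P a) hbk s]
    exact pre_getD X (by omega) false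
  · rw [if_neg hi2, if_neg (by simpa using hi2), Bool.eq_iff_iff, decide_eq_true_eq]
    exact (happ (i / 2) (by omega)).symm

theorem ws_length (a : List ℕ) (σ : List Bool) : (ws P (Dt P) a σ).length = lens P (Dt P) a σ := by
  rw [ws, List.length_map, List.length_range]

end Pool.Agent.CMG
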