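import Pool.Agent.CMG.CA

/-!
# CMG/CB: computability of the functions of a path

PROOF.  `bk P a σ = a.foldr (fun l τ => P.G l τ) σ`, `fw P a σ = a.foldl (fun τ l => P.F l τ) σ`; `List.foldr` is `List.foldl` on the
reversed list (`Primrec.list_reverse.to_comp`, `List.foldl_reverse`), and `comp_list_foldl` (H19/CompList).
For `sg`, `vh`, `lens` fold the tuple `(bk, sg, vh, lens)`:
step `l, (τ, s, v, n) ↦ let τ' := P.G l τ, ρ := lst l τ' in (τ', lastA l ρ :: s, V ρ ++ filter .. (map .. v), min |ρ| n)`,
initial value `(σ, [], V σ, |σ|)`; prove by induction on `a` that the fold is `(bk P a σ, sg .. a σ, vh .. a σ, lens .. a σ)`.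
`comp_cod`: similar fold.
-/

set_option autoImplicit false

namespace Pool.Agent.CMG

open Encodable Nat.Partrec Pool.Agent.H19 Pool.Agent.AEI

variable {α : Type*} [Primcodable α] {P : PSys} {D : α → List Bool → ℕ × List ℕ}

private theorem cb_foldr {β σ : Type*} [Primcodable β] [Primcodable σ] {f : α → List β} {g : α → σ}
    {h : α → σ × β → σ} (hf : Computable f) (hg : Computable g) (hh : Computable₂ h) :
    Computable fun a => (f a).foldr (fun b s => h a (s, b)) (g a) := by
  have h1 := comp_list_foldl (Primrec.list_reverse.to_comp.comp hf) hg hh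
  refine h1.of_eq fun a => ?_
  rw [List.foldl_reverse]

theorem comp_bk {p : α → List ℕ} {σ : α → List Bool} (hp : Computable p) (hσ : Computable σ) :
    Computable fun a => bk P (p a) (σ a) := by
  have hh : Computable₂ fun (_ : α) (s : List Bool × ℕ) => P.G s.2 s.1 :=
    P.compG.comp (Computable.snd.comp Computable.snd) (Computable.fst.comp Computable.snd)
  refine (cb_foldr hp hσ hh).of_eq fun a => ?_
  have key : ∀ (l : List ℕ) (τ : List Bool), l.foldr (fun b s => P.G b s) τ = bk P l τ := by
    intro l τ
    induction l with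
    | nil => rfl
    | cons b l ih => rw [List.foldr_cons, ih, bk]
  exact key _ _

theorem comp_fw {p : α → List ℕ} {σ : α → List Bool} (hp : Computable p) (hσ : Computable σ) :
    Computable fun a => fw P (p a) (σ a) := by
  have hh : Computable₂ fun (_ : α) (s : List Bool × ℕ) => P.F s.2 s.1 :=
    P.compF.comp (Computable.snd.comp Computable.snd) (Computable.fst.comp Computable.snd)
  refine (comp_list_foldl hp hσ hh).of_eq fun a => ?_
  have key : ∀ (l : List ℕ) (τ : List Bool), l.foldl (fun s b => P.F b s) τ = fw P l τ := by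
    intro l
    induction l with
    | nil => intro τ; rfl
    | cons b l ih => intro τ; rw [List.foldl_cons, ih, fw]
  exact key _ _

theorem comp_cod {p : α → List ℕ} {y : α → ℕ} (hp : Computable p) (hy : Computable y) :
    Computable fun a => cod (p a) (y a) := by
  have hh : Computable₂ fun (_ : α) (s : ℕ × ℕ) => Nat.pair (s.2 + 1) s.1 :=
    comp_natpair (Computable.succ.comp (Computable.snd.comp Computable.snd)) (Computable.fst.comp Computable.snd)
  refine (cb_foldr hp hy hh).of_eq fun a => ?_
  have key : ∀ (l : List ℕ) (y : ℕ), l.foldr (fun b s => Nat.pair (b + 1) s) y = cod l y := by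
    intro l y
    induction l with
    | nil => rfl
    | cons b l ih => rw [List.foldr_cons, ih, cod]
  exact key _ _

private def cbS (P : PSys) (D : List Bool → ℕ × List ℕ)
    (x : (List Bool × List ℕ × List ℕ × ℕ) × ℕ) : List Bool × List ℕ × List ℕ × ℕ :=
  (P.G x.2 x.1.1, lastA P D x.2 (lst P D x.2 (P.G x.2 x.1.1)) :: x.1.2.1,
    V D (lst P D x.2 (P.G x.2 x.1.1)) ++ ((x.1.2.2.1).map (Nat.pair (x.2 + 1))).filter
      (fun y => decide (lastA P D x.2 (lst P D x.2 (P.G x.2 x.1.1)) ≤ y)),
    min (lst P D x.2 (P.G x.2 x.1.1)).length x.1.2.2.2)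

private theorem cbS_fold (P : PSys) (D : List Bool → ℕ × List ℕ) (σ : List Bool) (l : List ℕ) :
    l.foldr (fun b s => cbS P D (s, b)) (σ, [], V D σ, σ.length)
      = (bk P l σ, sg P D l σ, vh P D l σ, lens P D l σ) := by
  induction l with
  | nil => rfl
  | cons b l ih => rw [List.foldr_cons, ih]; rfl

private theorem comp_cbS (hD : Computable₂ D) :
    Computable₂ fun (a : α) (x : (List Bool × List ℕ × List ℕ × ℕ) × ℕ) => cbS P (D a) x := by
  have hD' : Computable₂ fun (x : α × ((List Bool × List ℕ × List ℕ × ℕ) × ℕ)) => D x.1 :=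
    hD.comp (Computable.fst.comp Computable.fst) Computable.snd
  have c2 : Computable fun (x : α × ((List Bool × List ℕ × List ℕ × ℕ) × ℕ)) => x.2.2 :=
    Computable.snd.comp Computable.snd
  have c1 : Computable fun (x : α × ((List Bool × List ℕ × List ℕ × ℕ) × ℕ)) => x.2.1 :=
    Computable.fst.comp Computable.snd
  have cT : Computable fun (x : α × ((List Bool × List ℕ × List ℕ × ℕ) × ℕ)) => P.G x.2.2 x.2.1.1 :=
    P.compG.comp c2 (Computable.fst.comp c1)
  have cR := comp_lst (P := P) hD' c2 cT
  have cA := comp_lastA (P := P) hD' c2 cR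
  have cV := comp_V hD' cR
  have c121 : Computable fun (x : α × ((List Bool × List ℕ × List ℕ × ℕ) × ℕ)) => x.2.1.2.1 :=
    Computable.fst.comp (Computable.snd.comp c1)
  have c1221 : Computable fun (x : α × ((List Bool × List ℕ × List ℕ × ℕ) × ℕ)) => x.2.1.2.2.1 :=
    Computable.fst.comp (Computable.snd.comp (Computable.snd.comp c1))
  have c1222 : Computable fun (x : α × ((List Bool × List ℕ × List ℕ × ℕ) × ℕ)) => x.2.1.2.2.2 :=
    Computable.snd.comp (Computable.snd.comp (Computable.snd.comp c1))
  have cM : Computable fun (x : α × ((List Bool × List ℕ × List ℕ × ℕ) × ℕ)) =>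
      (x.2.1.2.2.1).map (Nat.pair (x.2.2 + 1)) :=
    comp_list_map (g := fun (x : α × ((List Bool × List ℕ × List ℕ × ℕ) × ℕ)) y => Nat.pair (x.2.2 + 1) y)
      c1221 (comp_natpair (Computable.succ.comp (c2.comp Computable.fst)) Computable.snd)
  have cF := comp_list_filter (g := fun (x : α × ((List Bool × List ℕ × List ℕ × ℕ) × ℕ)) y =>
    decide (lastA P (D x.1) x.2.2 (lst P (D x.1) x.2.2 (P.G x.2.2 x.2.1.1)) ≤ y)) cM
    (comp_decLe (cA.comp Computable.fst) Computable.snd)
  exact cT.pair ((Computable.list_cons.comp cA c121).pair ((Computable.list_append.comp cV cF).pair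
    (Primrec.nat_min.to_comp.comp (Computable.list_length.comp cR) c1222)))

private theorem comp_cbAll (hD : Computable₂ D) {p : α → List ℕ} {σ : α → List Bool} (hp : Computable p)
    (hσ : Computable σ) : Computable fun a =>
      (bk P (p a) (σ a), sg P (D a) (p a) (σ a), vh P (D a) (p a) (σ a), lens P (D a) (p a) (σ a)) := by
  have hg : Computable fun a => (σ a, ([] : List ℕ), V (D a) (σ a), (σ a).length) :=
    hσ.pair ((Computable.const []).pair ((comp_V hD hσ).pair (Computable.list_length.comp hσ)))
  exact (cb_foldr hp hg (comp_cbS (P := P) hD)).of_eq fun a => cbS_fold P (D a) (σ a) (p a)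

theorem comp_sg (hD : Computable₂ D) {p : α → List ℕ} {σ : α → List Bool} (hp : Computable p) (hσ : Computable σ) :
    Computable fun a => sg P (D a) (p a) (σ a) :=
  Computable.fst.comp (Computable.snd.comp (comp_cbAll (P := P) hD hp hσ))

theorem comp_vh (hD : Computable₂ D) {p : α → List ℕ} {σ : α → List Bool} (hp : Computable p) (hσ : Computable σ) :
    Computable fun a => vh P (D a) (p a) (σ a) :=
  Computable.fst.comp (Computable.snd.comp (Computable.snd.comp (comp_cbAll (P := P) hD hp hσ)))

theorem comp_lens (hD : Computable₂ D) {p : α → List ℕ} {σ : α → List Bool} (hp : Computable p) (hσ : Computable σ) :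
    Computable fun a => lens P (D a) (p a) (σ a) :=
  Computable.snd.comp (Computable.snd.comp (Computable.snd.comp (comp_cbAll (P := P) hD hp hσ)))

end Pool.Agent.CMG
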