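import Pool.Agent.CMG.LIB

/-!
# CMG/CGR: the construction at `σ ++ [b]` depends only on shorter strings

PROOF.  Let `D`, `D'` agree on all strings of length `≤ N`.  Prove successively for strings `σ`, `ρ` of length `≤ N`:
`V D σ = V D' σ`; `evt`, `isL` at `ρ`; `lastA`, `lst` (with `lastI_congr`; `|lst l τ| ≤ |τ|`); by induction on `a` (with `bk_len`)
`sg`, `vh`, `lens`; `rst`, `wt`, `acted`, `ws`, `tst`, `act`; and `step P D σ b = step P D' σ b` for `|σ| ≤ N` (`lenF`).
Then `DD P n ρ = Dt P ρ` for `|ρ| ≤ n` (induction on `n`), hence `Dt_append`.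
The lemmas for `V`, `lastA`, ... may be private.
-/

set_option autoImplicit false

namespace Pool.Agent.CMG

open Encodable Nat.Partrec Pool.Agent.H19 Pool.Agent.AEI

variable {P : PSys}

section

variable {D D' : List Bool → ℕ × List ℕ} {N : ℕ}

private theorem cg_take {τ : List Bool} (hτ : τ.length ≤ N) (i : ℕ) : (τ.take i).length ≤ N :=
  (List.length_take_le' _ _).trans hτ

private theorem cg_V (h : ∀ ρ : List Bool, ρ.length ≤ N → D ρ = D' ρ) {τ : List Bool} (hτ : τ.length ≤ N) :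
    V D τ = V D' τ := by
  unfold V List.flatMap
  congr 1
  exact List.map_congr_left fun i _ => by rw [h _ (cg_take hτ i)]

private theorem cg_evt (h : ∀ ρ : List Bool, ρ.length ≤ N → D ρ = D' ρ) (n : ℕ) {ρ : List Bool}
    (hρ : ρ.length ≤ N) : evt P D n ρ = evt P D' n ρ := by
  unfold evt
  rw [h ρ hρ]

private theorem cg_lastA (h : ∀ ρ : List Bool, ρ.length ≤ N → D ρ = D' ρ) (n : ℕ) {τ : List Bool}
    (hτ : τ.length ≤ N) : lastA P D n τ = lastA P D' n τ :=
  lastI_congr fun i _ => cg_evt h n (cg_take hτ i)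

private theorem cg_isL (h : ∀ ρ : List Bool, ρ.length ≤ N → D ρ = D' ρ) (n : ℕ) {ρ : List Bool}
    (hρ : ρ.length ≤ N) : isL P D n ρ = isL P D' n ρ := by
  unfold isL
  rw [h ρ hρ]

private theorem cg_lst (h : ∀ ρ : List Bool, ρ.length ≤ N → D ρ = D' ρ) (n : ℕ) {τ : List Bool}
    (hτ : τ.length ≤ N) : lst P D n τ = lst P D' n τ := by
  unfold lst
  rw [lastI_congr fun i _ => cg_isL h n (cg_take hτ i)]

private theorem cg_lstlen (n : ℕ) {τ : List Bool} (hτ : τ.length ≤ N) : (lst P D n τ).length ≤ N :=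
  cg_take hτ _

private theorem cg_sg (h : ∀ ρ : List Bool, ρ.length ≤ N → D ρ = D' ρ) (a : List ℕ) {σ : List Bool}
    (hσ : σ.length ≤ N) : sg P D a σ = sg P D' a σ := by
  induction a with
  | nil => rfl
  | cons l a ih =>
    have hb := (bk_len P (l :: a) σ).trans hσ
    rw [sg, sg, ih, cg_lst h l hb, cg_lastA h l (cg_lstlen l hb)]

private theorem cg_vh (h : ∀ ρ : List Bool, ρ.length ≤ N → D ρ = D' ρ) (a : List ℕ) {σ : List Bool}
    (hσ : σ.length ≤ N) : vh P D a σ = vh P D' a σ := by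
  induction a with
  | nil => exact cg_V h hσ
  | cons l a ih =>
    have hb := (bk_len P (l :: a) σ).trans hσ
    rw [vh, vh, ih, cg_lst h l hb, cg_lastA h l (cg_lstlen l hb), cg_V h (cg_lstlen l hb)]

private theorem cg_lens (h : ∀ ρ : List Bool, ρ.length ≤ N → D ρ = D' ρ) (a : List ℕ) {σ : List Bool}
    (hσ : σ.length ≤ N) : lens P D a σ = lens P D' a σ := by
  induction a with
  | nil => rfl
  | cons l a ih =>
    have hb := (bk_len P (l :: a) σ).trans hσ
    rw [lens, lens, ih, cg_lst h l hb]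

private theorem cg_drop {σ : List Bool} (hσ : σ.length ≤ N) : σ.dropLast.length ≤ N := by
  rw [List.length_dropLast]
  omega

private theorem cg_rst (h : ∀ ρ : List Bool, ρ.length ≤ N → D ρ = D' ρ) (n : ℕ) {ρ : List Bool}
    (hρ : ρ.length ≤ N) : rst P D n ρ = rst P D' n ρ := by
  unfold rst
  rw [h ρ hρ, cg_sg h _ (cg_drop hρ), cg_sg h _ (cg_drop (cg_drop hρ))]

private theorem cg_wt (h : ∀ ρ : List Bool, ρ.length ≤ N → D ρ = D' ρ) (n : ℕ) {σ : List Bool}
    (hσ : σ.length ≤ N) : wt P D n σ = wt P D' n σ :=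
  lastI_congr fun i _ => cg_rst h n (cg_take hσ i)

private theorem cg_acted (h : ∀ ρ : List Bool, ρ.length ≤ N → D ρ = D' ρ) (n : ℕ) {σ : List Bool}
    (hσ : σ.length ≤ N) : acted P D n σ = acted P D' n σ := by
  unfold acted
  rw [cg_wt h n hσ, lastI_congr (t := fun ρ => decide ((D ρ).1 = n + 1)) (t' := fun ρ => decide ((D' ρ).1 = n + 1))
    fun i _ => by rw [h _ (cg_take hσ i)]]

private theorem cg_ws (h : ∀ ρ : List Bool, ρ.length ≤ N → D ρ = D' ρ) (a : List ℕ) {σ : List Bool}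
    (hσ : σ.length ≤ N) : ws P D a σ = ws P D' a σ := by
  unfold ws
  rw [cg_lens h a hσ, cg_vh h a hσ]

private theorem cg_tst (h : ∀ ρ : List Bool, ρ.length ≤ N → D ρ = D' ρ) (n : ℕ) {σ : List Bool}
    (hσ : σ.length ≤ N) : tst P D n σ = tst P D' n σ := by
  unfold tst
  rw [cg_wt h n hσ, cg_ws h _ hσ]

private theorem cg_act (h : ∀ ρ : List Bool, ρ.length ≤ N → D ρ = D' ρ) (n : ℕ) {σ : List Bool}
    (hσ : σ.length ≤ N) : act P D n σ = act P D' n σ := by
  unfold act
  rw [cg_acted h n hσ, cg_sg h _ hσ, cg_sg h _ (cg_drop hσ), cg_tst h n hσ]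

end

theorem step_congr {D D' : List Bool → ℕ × List ℕ} {σ : List Bool} (b : Bool)
    (h : ∀ ρ : List Bool, ρ.length ≤ σ.length → D ρ = D' ρ) : step P D σ b = step P D' σ b := by
  have h1 : ∀ n, act P D n σ = act P D' n σ := fun n => cg_act h n le_rfl
  have h2 : ∀ n, wt P D n σ = wt P D' n σ := fun n => cg_wt h n le_rfl
  have h3 : ∀ n, lastA P D n σ = lastA P D' n σ := fun n => cg_lastA h n le_rfl
  have h4 : ∀ n, V D (P.F n σ) = V D' (P.F n σ) := fun n => cg_V h (P.lenF n σ)
  unfold step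
  simp only [h1, h2, h3, h4]

theorem Dt_nil : Dt P [] = (0, []) := rfl

theorem DD_eq {n : ℕ} {ρ : List Bool} (h : ρ.length ≤ n) : DD P n ρ = Dt P ρ := by
  induction n with
  | zero =>
    have h0 : ρ = [] := List.eq_nil_of_length_eq_zero (Nat.le_zero.1 h)
    subst h0
    rfl
  | succ n ih =>
    by_cases h' : ρ.length ≤ n
    · rw [DD, if_pos h', ih h']
    · have h1 : ρ.length = n + 1 := by omega
      unfold Dt
      rw [h1]

theorem Dt_append (σ : List Bool) (b : Bool) : Dt P (σ ++ [b]) = step P (Dt P) σ b := by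
  have h1 : Dt P (σ ++ [b]) = DD P (σ.length + 1) (σ ++ [b]) := by
    unfold Dt
    rw [List.length_append, List.length_singleton]
  rw [h1, DD, if_neg (by rw [List.length_append, List.length_singleton]; omega), List.dropLast_concat]
  have h2 : (σ ++ [b]).getLastD false = b := by simp
  rw [h2]
  exact step_congr b fun ρ hρ => DD_eq hρ

end Pool.Agent.CMG
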