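import Pool.Agent.CMG.CC
import Pool.Agent.CMG.CGR
import Pool.Agent.H19.Switch

/-!
# CMG/CD: the construction is computable

PROOF.  A table is a list `T : List (List Bool × (ℕ × List ℕ))`; `look T ρ` is the second component of the first entry with first component
`ρ` (`(T.filter fun x => decide (x.1 = ρ)).head?`), `(0, [])` if there is none; computable in `T`, `ρ`.
`Tb 0 = [([], (0, []))]`, `Tb (n + 1) = Tb n ++ (strs (n + 1)).map (fun ρ => (ρ, step P (look (Tb n)) ρ.dropLast (ρ.getLastD false)))`
(`strs`, `comp_strs`, `mem_strs` of H19) is computable in `n` (`Computable.nat_rec`, `comp_step` with `α := Table × List Bool` and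
`D := fun x => look x.1`).  By induction on `n`: `look (Tb n) ρ = Dt P ρ` for `|ρ| ≤ n` (`step_congr`, `Dt_append`; the first components of
`Tb n` are the strings of length `≤ n`; an entry `(ρ, v)` of `Tb n` has `v = Dt P ρ`, so the first one found is right).
Hence `Dt P ρ = look (Tb |ρ|) ρ`.
-/

set_option autoImplicit false

namespace Pool.Agent.CMG

open Encodable Nat.Partrec Pool.Agent.H19 Pool.Agent.AEI

variable {P : PSys}

/-- tables of values -/
private abbrev CD_Tab : Type := List (List Bool × (ℕ × List ℕ))

private def CD_look (T : CD_Tab) (ρ : List Bool) : ℕ × List ℕ :=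
  (((T.filter fun x => decide (x.1 = ρ)).head?).map Prod.snd).getD (0, [])

private theorem CD_comp_look {α : Type*} [Primcodable α] {T : α → CD_Tab} {ρ : α → List Bool}
    (hT : Computable T) (hρ : Computable ρ) : Computable fun a => CD_look (T a) (ρ a) := by
  have h1 : Computable fun a => (T a).filter fun x => decide (x.1 = ρ a) :=
    comp_list_filter (g := fun a (x : List Bool × (ℕ × List ℕ)) => decide (x.1 = ρ a)) hT
      (comp_decEq (Computable.fst.comp Computable.snd) (hρ.comp Computable.fst))
  have h2 : Computable fun a => ((T a).filter fun x => decide (x.1 = ρ a)).head? := comp_head h1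
  have h3 : Computable fun a => (((T a).filter fun x => decide (x.1 = ρ a)).head?).map Prod.snd :=
    Computable.option_map (g := fun _ (x : List Bool × (ℕ × List ℕ)) => x.2) h2 (Computable.snd.comp Computable.snd)
  exact Computable.option_getD h3 (Computable.const (0, []))

private theorem CD_look_eq {T : CD_Tab} {ρ : List Bool} (hT : ∀ x ∈ T, x.2 = Dt P x.1)
    (h : ∃ x ∈ T, x.1 = ρ) : CD_look T ρ = Dt P ρ := by
  obtain ⟨y, hy, hyρ⟩ := h
  have hy' : y ∈ T.filter fun x => decide (x.1 = ρ) := List.mem_filter.2 ⟨hy, by simp [hyρ]⟩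
  cases hh : (T.filter fun x => decide (x.1 = ρ)) with
  | nil =>
    rw [hh] at hy'
    exact absurd hy' (by simp)
  | cons x l =>
    have hx : x ∈ T.filter fun x => decide (x.1 = ρ) := by rw [hh]; exact List.mem_cons_self
    obtain ⟨h1, h2⟩ := List.mem_filter.1 hx
    have h3 : x.1 = ρ := by simpa using h2
    unfold CD_look
    rw [hh]
    change x.2 = Dt P ρ
    rw [hT x h1, h3]

private def CD_Tb (P : PSys) (n : ℕ) : CD_Tab :=
  Nat.rec [([], (0, []))] (fun n T => T ++ (strs (n + 1)).map
    fun ρ => (ρ, step P (CD_look T) ρ.dropLast (ρ.getD (ρ.length - 1) false))) n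

private theorem CD_comp_Tb : Computable (CD_Tb P) := by
  refine Computable.nat_rec (f := fun n : ℕ => n) (g := fun _ => ([([], (0, []))] : CD_Tab))
    (h := fun _ q => q.2 ++ (strs (q.1 + 1)).map
      fun ρ => (ρ, step P (CD_look q.2) ρ.dropLast (ρ.getD (ρ.length - 1) false))) Computable.id
    (Computable.const _) ?_
  refine Computable.list_append.comp (Computable.snd.comp Computable.snd) ?_
  refine comp_list_map (f := fun x : ℕ × (ℕ × CD_Tab) => strs (x.2.1 + 1))
    (g := fun x ρ => (ρ, step P (CD_look x.2.2) ρ.dropLast (ρ.getD (ρ.length - 1) false))) ?_ ?_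
  · exact comp_strs.comp (Computable.succ.comp (Computable.fst.comp Computable.snd))
  · have h1 : Computable fun x : (ℕ × (ℕ × CD_Tab)) × List Bool => x.2 := Computable.snd
    refine Computable.pair h1 ?_
    refine comp_step (D := fun x : (ℕ × (ℕ × CD_Tab)) × List Bool => CD_look x.1.2.2) ?_ (comp_dropLast h1)
      (comp_getD h1 (Computable.pred.comp (Computable.list_length.comp h1)))
    exact CD_comp_look (Computable.snd.comp (Computable.snd.comp (Computable.fst.comp Computable.fst)))
      Computable.snd

private theorem CD_last {ρ : List Bool} {n : ℕ} (h : ρ.length = n + 1) :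
    ρ = ρ.dropLast ++ [ρ.getD (ρ.length - 1) false] := by
  have hne : ρ ≠ [] := by
    rintro rfl
    simp at h
  have h1 : ρ.getD (ρ.length - 1) false = ρ.getLast hne := by
    rw [List.getLast_eq_getElem, List.getD_eq_getElem _ _ (by omega)]
  rw [h1, List.dropLast_concat_getLast]

private theorem CD_inv (n : ℕ) : (∀ x ∈ CD_Tb P n, x.2 = Dt P x.1) ∧
    ∀ ρ : List Bool, ρ.length ≤ n → ∃ x ∈ CD_Tb P n, x.1 = ρ := by
  induction n with
  | zero =>
    constructor
    · intro x hx
      have h1 : x = ([], (0, [])) := by
        change x ∈ [(([] : List Bool), ((0 : ℕ), ([] : List ℕ)))] at hx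
        simpa using hx
      rw [h1, Dt_nil]
    · intro ρ hρ
      have h1 : ρ = [] := List.eq_nil_of_length_eq_zero (by omega)
      refine ⟨([], (0, [])), ?_, h1.symm⟩
      change ([], (0, [])) ∈ [(([] : List Bool), ((0 : ℕ), ([] : List ℕ)))]
      simp
  | succ n ih =>
    obtain ⟨ih1, ih2⟩ := ih
    have hTb : CD_Tb P (n + 1) = CD_Tb P n ++ (strs (n + 1)).map
      fun ρ => (ρ, step P (CD_look (CD_Tb P n)) ρ.dropLast (ρ.getD (ρ.length - 1) false)) := rfl
    constructor
    · intro x hx
      rw [hTb, List.mem_append] at hx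
      rcases hx with hx | hx
      · exact ih1 x hx
      · obtain ⟨ρ, hρ, rfl⟩ := List.mem_map.1 hx
        have hl := mem_strs.1 hρ
        change step P (CD_look (CD_Tb P n)) ρ.dropLast (ρ.getD (ρ.length - 1) false) = Dt P ρ
        conv_rhs => rw [CD_last hl, Dt_append]
        refine step_congr _ fun τ hτ => CD_look_eq ih1 (ih2 τ ?_)
        rw [List.length_dropLast, hl] at hτ
        omega
    · intro ρ hρ
      rcases Nat.lt_or_ge n ρ.length with h | h
      · have hl : ρ.length = n + 1 := by omega
        refine ⟨(ρ, step P (CD_look (CD_Tb P n)) ρ.dropLast (ρ.getD (ρ.length - 1) false)), ?_, rfl⟩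
        rw [hTb, List.mem_append]
        exact Or.inr (List.mem_map.2 ⟨ρ, mem_strs.2 hl, rfl⟩)
      · obtain ⟨x, hx, hxρ⟩ := ih2 ρ h
        refine ⟨x, ?_, hxρ⟩
        rw [hTb, List.mem_append]
        exact Or.inl hx

theorem comp_Dt : Computable (Dt P) := by
  refine (CD_comp_look ((CD_comp_Tb (P := P)).comp Computable.list_length) Computable.id).of_eq fun ρ => ?_
  exact CD_look_eq (CD_inv ρ.length).1 ((CD_inv ρ.length).2 ρ le_rfl)

theorem comp_VDt {α : Type*} [Primcodable α] {x : α → ℕ} {τ : α → List Bool} (hx : Computable x) (hτ : Computable τ) :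
    Computable fun a => decide (x a ∈ V (Dt P) (τ a)) := by
  exact comp_mem hx (comp_V (D := fun _ => Dt P) (comp_Dt.comp Computable.snd) hτ)

theorem comp_dcl : Computable₂ (dcl P) := by
  have hm : Computable fun p : ℕ × List Bool => p.1.unpair.1 :=
    Computable.fst.comp (Computable.unpair.comp Computable.fst)
  have hw : Computable fun p : ℕ × List Bool => p.1.unpair.2 :=
    Computable.snd.comp (Computable.unpair.comp Computable.fst)
  have hfw : Computable fun p : ℕ × List Bool => fw P (pth p.1.unpair.1) p.2 :=
    comp_fw (comp_pth hm) Computable.snd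
  refine comp_and (comp_decEq (comp_ty hm) (Computable.const 1)) ?_
  refine comp_list_any (f := fun p : ℕ × List Bool => List.range ((fw P (pth p.1.unpair.1) p.2).length + 1))
    (g := fun p i => decide ((Dt P ((fw P (pth p.1.unpair.1) p.2).take i)).1 = p.1.unpair.1 + 1) &&
      decide (wt P (Dt P) p.1.unpair.1 ((fw P (pth p.1.unpair.1) p.2).take (i - 1)) = p.1.unpair.2))
    (comp_range (Computable.succ.comp (Computable.list_length.comp hfw))) ?_
  have hm' := hm.comp (Computable.fst (α := ℕ × List Bool) (β := ℕ))
  have hw' := hw.comp (Computable.fst (α := ℕ × List Bool) (β := ℕ))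
  have hfw' := hfw.comp (Computable.fst (α := ℕ × List Bool) (β := ℕ))
  have hi : Computable fun x : (ℕ × List Bool) × ℕ => x.2 := Computable.snd
  refine comp_and (comp_decEq (Computable.fst.comp (comp_Dt.comp (comp_take hi hfw'))) (Computable.succ.comp hm'))
    (comp_decEq (comp_wt (D := fun _ => Dt P) (comp_Dt.comp Computable.snd) hm'
      (comp_take (Computable.pred.comp hi) hfw')) hw')

end Pool.Agent.CMG
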