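import Pool.Agent.CMG.FIN

/-!
# CMG/STB: stages of the active pointer, and the stable state of a requirement

PROOFS.  `inf_stages`: let `T` be the stage of `Thr`; take `s ≥ max N T (l + 1)` with `q l (pre X s) = true`: `cc ≤ l` (`cc_le_of_q`), `cc < l` would be an event,
so `cc = l`; if `(Dt ρ).1 = m + 1` then `m < cc = l` (`act_of_fst`), again an event.
`stable`: let `s0` be as in `fin_inj`, put `w = wt n (pre X s0) ≤ s0`.  For `i > w`: `rst n (pre X i) = false` (for `i ≤ s0` because `w` is the last reset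
stage before `s0`: `le_lastI_pre`; for `i ≥ s0` by `fin_inj`; note that the case `w = 0` is no exception).  So `wt n (pre X s) = w` for `s ≥ w` (`lastI_pre_eq`;
for `s = w`: `lastI (pre X w) = w`, either `w = 0` or `lastI_pre_spec`).  From `rst n (pre X (j + 1)) = false` one gets (third component)
`sg (pre X j) = sg (pre X (j - 1))` for all `j ≥ w`, so `sg (pre X j) = sg (pre X (w - 1))` for all `j` with `w ≤ j + 1`.
`n < cc (pre X s)` for large `s`: `s > n + 1` and no pointer `p ≤ n` fires (each fires finitely often).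
`acted_of_tst`: suppose not; then `acted n (pre X s) = false` (`lastI .. ≤ w`), and `sg` is constant, so `act n (pre X s) = true`; with `n < cc (pre X (s + 1))`,
`exists_act` gives `m ≤ n` with `(Dt (pre X (s + 1))).1 = m + 1`; `m = n` contradicts the assumption, `m < n` gives `rst n (pre X (s + 1)) = true`.
`tst_of_act`: `act_of_fst`.
-/

set_option autoImplicit false

namespace Pool.Agent.CMG

open Encodable Nat.Partrec Pool.Agent.H19 Pool.Agent.AEI

variable {P : PSys}

theorem inf_stages {X : ℕ → Bool} {l t : ℕ} (hQ : Q P l X) (ht : Thr P l X t) (N : ℕ) :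
    ∃ s ≥ N, isL P (Dt P) l (pre X s) = true := by
  obtain ⟨T, hT⟩ := ht
  obtain ⟨s, hs, hq⟩ := hQ (max N (max T (l + 1)))
  have h1 : N ≤ s := (le_max_left _ _).trans hs
  have h2 : T ≤ s := ((le_max_left _ _).trans (le_max_right _ _)).trans hs
  have h3 : l + 1 ≤ s := ((le_max_right _ _).trans (le_max_right _ _)).trans hs
  have hev := (hT s h2).1
  have hlen : (pre X s).length = s := pre_length X s
  have hc : cc P (pre X s) ≤ l := cc_le_of_q (by rw [hlen]; omega) hq
  simp only [evt, Bool.or_eq_false_iff, Bool.and_eq_false_iff, decide_eq_false_iff_not] at hev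
  obtain ⟨he1, he2⟩ := hev
  have hc2 : cc P (pre X s) = l := by
    rcases he1 with he1 | he1
    · rw [hlen] at he1
      omega
    · omega
  refine ⟨s, h1, ?_⟩
  have hD : (Dt P (pre X s)).1 = 0 := by
    rcases Nat.eq_zero_or_pos (Dt P (pre X s)).1 with h0 | h0
    · exact h0
    · exfalso
      obtain ⟨m, hm⟩ : ∃ m, (Dt P (pre X s)).1 = m + 1 := ⟨(Dt P (pre X s)).1 - 1, by omega⟩
      obtain ⟨s', rfl⟩ : ∃ s', s = s' + 1 := ⟨s - 1, by omega⟩
      have h5 : m < cc P (pre X (s' + 1)) := by
        rw [pre_succ] at hm ⊢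
        exact (act_of_fst hm).1
      rcases he2 with he2 | he2
      · exact he2 h0
      · omega
  simp only [isL, Bool.and_eq_true, decide_eq_true_eq]
  exact ⟨⟨hc2, by rw [hlen]; omega⟩, hD⟩

/-- The last `l`-stage tends to infinity. -/
theorem lst_tend {X : ℕ → Bool} {l t : ℕ} (hQ : Q P l X) (ht : Thr P l X t) (N : ℕ) :
    ∃ s0, ∀ s ≥ s0, N ≤ (lst P (Dt P) l (pre X s)).length := by
  obtain ⟨s1, hs1, h1⟩ := inf_stages hQ ht N
  refine ⟨s1, fun s hs => ?_⟩
  have h2 : s1 ≤ lastI (isL P (Dt P) l) (pre X s) := le_lastI_pre hs h1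
  have h3 := lastI_le (isL P (Dt P) l) (pre X s)
  unfold lst
  rw [List.length_take]
  omega

/-- The stable state of a requirement. -/
structure Stab (P : PSys) (n : ℕ) (X : ℕ → Bool) (w s0 : ℕ) : Prop where
  le : w ≤ s0
  wt : ∀ s ≥ w, wt P (Dt P) n (pre X s) = w
  rst : ∀ i > w, rst P (Dt P) n (pre X i) = false
  fst : ∀ s ≥ s0, (Dt P (pre X s)).1 ≠ n + 1
  cc : ∀ s ≥ s0, n < cc P (pre X s)
  sg : ∀ s, w ≤ s + 1 → sg P (Dt P) (pth n) (pre X s) = sg P (Dt P) (pth n) (pre X (w - 1))

private theorem STB_fin {X : ℕ → Bool} (n : ℕ) (hn : ∀ p ≤ n, ¬ Q P p X) :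
    ∃ N, ∀ s ≥ N, ∀ p ≤ n, P.q p (pre X s) = false := by
  induction n with
  | zero =>
    have h1 := hn 0 le_rfl
    unfold Q at h1
    push Not at h1
    obtain ⟨N, hN⟩ := h1
    refine ⟨N, fun s hs p hp => ?_⟩
    rw [Nat.le_zero.1 hp]
    exact Bool.eq_false_iff.2 (hN s hs)
  | succ n ih =>
    obtain ⟨N1, h1⟩ := ih fun p hp => hn p (hp.trans (Nat.le_succ n))
    have h2 := hn (n + 1) le_rfl
    unfold Q at h2
    push Not at h2
    obtain ⟨N, hN⟩ := h2
    refine ⟨max N1 N, fun s hs p hp => ?_⟩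
    rcases Nat.lt_or_ge n p with h3 | h3
    · have : p = n + 1 := by omega
      subst this
      exact Bool.eq_false_iff.2 (hN s ((le_max_right _ _).trans hs))
    · exact h1 s ((le_max_left _ _).trans hs) p h3

theorem stable (h : GoodSys P) {n : ℕ} {X : ℕ → Bool} (hn : ∀ p ≤ n, ¬ Q P p X) : ∃ w s0, Stab P n X w s0 := by
  obtain ⟨s0, hs0⟩ := fin_inj h n X hn
  obtain ⟨N, hN⟩ := STB_fin n hn
  have hw : wt P (Dt P) n (pre X s0) ≤ s0 := by
    have := lastI_le (rst P (Dt P) n) (pre X s0)
    rwa [pre_length] at this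
  obtain ⟨w, hwd⟩ : ∃ w, w = wt P (Dt P) n (pre X s0) := ⟨_, rfl⟩
  rw [← hwd] at hw
  have hr : ∀ i > w, rst P (Dt P) n (pre X i) = false := by
    intro i hi
    rcases Nat.lt_or_ge i s0 with h1 | h1
    · by_contra h2
      rw [Bool.not_eq_false] at h2
      have h3 : i ≤ lastI (rst P (Dt P) n) (pre X s0) := le_lastI_pre h1.le h2
      have h4 : lastI (rst P (Dt P) n) (pre X s0) = w := hwd.symm
      omega
    · exact (hs0 i h1).1
  have hwt : ∀ s ≥ w, wt P (Dt P) n (pre X s) = w := by
    intro s hs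
    have h1 : lastI (rst P (Dt P) n) (pre X s) = lastI (rst P (Dt P) n) (pre X w) :=
      lastI_pre_eq hs fun i hi _ => hr i hi
    have h2 : lastI (rst P (Dt P) n) (pre X s0) = lastI (rst P (Dt P) n) (pre X w) :=
      lastI_pre_eq hw fun i hi _ => hr i hi
    show lastI (rst P (Dt P) n) (pre X s) = w
    rw [h1, ← h2]
    exact hwd.symm
  have hsg1 : ∀ j ≥ w, sg P (Dt P) (pth n) (pre X j) = sg P (Dt P) (pth n) (pre X (j - 1)) := by
    intro j hj
    have h1 := hr (j + 1) (by omega)
    simp only [rst, Bool.or_eq_false_iff, Bool.not_eq_false', decide_eq_true_eq] at h1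
    have h2 := h1.2
    rw [dropLast_pre, dropLast_pre] at h2
    exact h2
  refine ⟨w, max s0 (max (n + 2) N), ⟨hw.trans (le_max_left _ _), hwt, hr,
    fun s hs => (hs0 s ((le_max_left _ _).trans hs)).2, fun s hs => ?_, fun s hs => ?_⟩⟩
  · by_contra h1
    have h2 : cc P (pre X s) ≤ n := not_lt.1 h1
    have h3 : n + 2 ≤ s := ((le_max_left _ _).trans (le_max_right _ _)).trans hs
    have h4 : N ≤ s := ((le_max_right _ _).trans (le_max_right _ _)).trans hs
    have h5 := q_of_cc (P := P) (ρ := pre X s) (by rw [pre_length]; omega)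
    rw [hN s h4 _ h2] at h5
    exact absurd h5 (by decide)
  · have h1 : w - 1 ≤ s := by omega
    induction s, h1 using Nat.le_induction with
    | base => rfl
    | succ k hk ih =>
      rw [hsg1 (k + 1) (by omega), Nat.add_sub_cancel]
      exact ih (by omega)

theorem acted_of_tst {n : ℕ} {X : ℕ → Bool} {w s0 : ℕ} (h : Stab P n X w s0) {s : ℕ} (hs : s0 ≤ s)
    (ht : tst P (Dt P) n (pre X s) = true) : ∃ i, w < i ∧ (Dt P (pre X i)).1 = n + 1 := by
  by_contra hno
  push Not at hno
  have hws : w ≤ s := h.le.trans hs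
  have h1 : ¬ w < lastI (fun ρ => decide ((Dt P ρ).1 = n + 1)) (pre X s) := by
    intro h2
    have h3 := (lastI_pre_spec (t := fun ρ => decide ((Dt P ρ).1 = n + 1)) (X := X) (s := s) (by omega)).2
    exact hno _ h2 (of_decide_eq_true h3)
  have h2 : acted P (Dt P) n (pre X s) = false := by
    unfold acted
    rw [h.wt s hws]
    exact decide_eq_false h1
  have h3 : sg P (Dt P) (pth n) (pre X s) = sg P (Dt P) (pth n) (pre X s).dropLast := by
    rw [dropLast_pre, h.sg s (by omega), h.sg (s - 1) (by omega)]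
  have h4 : act P (Dt P) n (pre X s) = true := by
    unfold act
    rw [h2, ht, decide_eq_true h3]
    rfl
  have h5 : n < cc P (pre X s ++ [X s]) := by
    rw [← pre_succ]
    exact h.cc (s + 1) (by omega)
  obtain ⟨m, hm, hm2⟩ := exists_act h5 h4
  rw [← pre_succ] at hm2
  rcases hm.lt_or_eq with h6 | h6
  · have h7 := h.rst (s + 1) (by omega)
    simp only [rst, Bool.or_eq_false_iff, Bool.and_eq_false_iff, decide_eq_false_iff_not] at h7
    rcases h7.1.2 with h8 | h8
    · rw [hm2] at h8
      omega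
    · rw [hm2] at h8
      omega
  · rw [h6] at hm2
    exact h.fst (s + 1) (by omega) hm2

theorem tst_of_act {n : ℕ} {X : ℕ → Bool} {i : ℕ} (h : (Dt P (pre X (i + 1))).1 = n + 1) :
    tst P (Dt P) n (pre X i) = true := by
  rw [pre_succ] at h
  have h1 := (act_of_fst h).2
  unfold act at h1
  rw [Bool.and_eq_true] at h1
  exact h1.2

private theorem STB_lst_le (l : ℕ) (τ : List Bool) : (lst P (Dt P) l τ).length ≤ τ.length := by
  unfold lst
  rw [List.length_take]
  exact min_le_right _ _

theorem sg_le (a : List ℕ) (σ : List Bool) : ∀ t ∈ sg P (Dt P) a σ, t ≤ σ.length := by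
  induction a with
  | nil =>
    intro t ht
    exact absurd ht (by simp [sg])
  | cons l a ih =>
    intro t ht
    rw [sg, List.mem_cons] at ht
    rcases ht with rfl | ht
    · refine (lastI_le _ _).trans ((STB_lst_le l _).trans ?_)
      exact bk_len P (l :: a) σ
    · exact ih t ht

theorem lens_le (a : List ℕ) (σ : List Bool) : lens P (Dt P) a σ ≤ (bk P a σ).length := by
  cases a with
  | nil => exact le_rfl
  | cons l a =>
    rw [lens]
    exact (min_le_left _ _).trans (STB_lst_le l _)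

end Pool.Agent.CMG
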