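import Pool.Agent.CMG.STG
import Pool.Agent.CMG.STB

/-!
# CMG/COH: coherence of the sets of `X` and of `F l X`

PROOFS.  `copy_sound`: `VX_iff'`; the stage is `i + 1` (`Dt P [] = (0, [])`), `new_pair` gives `y ∈ V (Dt P) (P.F l (pre X i))` and `P.F l (pre X i)` is an initial
segment of `Z` (`maps_pre`).
`copy_complete`: let `y ∈ V (pre Z s')`, `T` the stage of `Thr`, `s1` such that `|P.F l (pre X s)| ≥ s'` for `s ≥ s1` (`maps_len`); take an `l`-stage
`s + 1 > T, s1` (`inf_stages`), so `pre Z s' <+: P.F l (pre X s)` and `y ∈ V (P.F l (pre X s))` (`V_mono`); `lastA l (pre X s) = t` (`s ≥ T`).  `new_of_copy`.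
`settled`: if `VX P X x = true` but `x ∉ V (pre X s)` then `x ∈ (Dt (pre X (i + 1))).2` with `i ≥ s` (`exists_new'`); `no_evt`, `late_L` give `s ≤ x` (impossible) or
`x = ⟨l + 1, y⟩` with `lastA l (pre X i) ≤ x`; and `lastA l (pre X i) = t` (between `t = lastA l (pre X s)` and `t`, `lastI_mono`, `lastA_le_thr`), contradiction to `hx2`.
-/

set_option autoImplicit false

namespace Pool.Agent.CMG

open Encodable Nat.Partrec Pool.Agent.H19 Pool.Agent.AEI

variable {P : PSys}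

theorem copy_sound {X Z : ℕ → Bool} {l y : ℕ} (hm : Maps (P.F l) X Z) (h : VX P X (Nat.pair (l + 1) y) = true) :
    VX P Z y = true := by
  obtain ⟨i, hi⟩ := VX_iff'.1 h
  cases i with
  | zero =>
    have h0 : pre X 0 = [] := by simp [pre]
    rw [h0, Dt_nil] at hi
    simp at hi
  | succ i =>
    obtain ⟨_, hy⟩ := new_pair hi
    rw [maps_pre (P.monoF l) hm] at hy
    exact VX_iff.2 ⟨_, hy⟩

theorem copy_complete {X Z : ℕ → Bool} {l t y : ℕ} (hQ : Q P l X) (hm : Maps (P.F l) X Z) (ht : Thr P l X t)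
    (hy : t ≤ Nat.pair (l + 1) y) (h : VX P Z y = true) : VX P X (Nat.pair (l + 1) y) = true := by
  obtain ⟨s', hs'⟩ := VX_iff.1 h
  obtain ⟨T, hT⟩ := ht
  obtain ⟨s1, hs1⟩ := maps_len (P.monoF l) hm s'
  obtain ⟨s, hs, hL⟩ := inf_stages hQ ⟨T, hT⟩ (T + s1 + 1)
  obtain ⟨s, rfl⟩ : ∃ r, s = r + 1 := ⟨s - 1, by omega⟩
  have h1 : s ≥ T := by omega
  have h2 : s ≥ s1 := by omega
  have hcc : cc P (pre X (s + 1)) = l ∧ l < (pre X (s + 1)).length ∧ (Dt P (pre X (s + 1))).1 = 0 := by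
    simpa [isL, and_assoc] using hL
  obtain ⟨c1, c2, c3⟩ := hcc
  have hp : pre Z s' <+: P.F l (pre X s) := by
    rw [maps_pre (P.monoF l) hm]
    exact pre_mono Z (hs1 s h2)
  have hV := V_mono hp hs'
  rw [pre_succ] at c1 c2 c3
  have h3 := new_of_copy (P := P) (σ := pre X s) (b := X s) (y := y) c3 (by rw [c1]; exact c2)
    (by rw [c1]; exact hV) (by rw [c1, (hT s h1).2]; exact hy)
  rw [c1, ← pre_succ] at h3
  exact VX_iff'.2 ⟨s + 1, h3⟩

theorem copy_eq {X Z : ℕ → Bool} {l t y : ℕ} (hQ : Q P l X) (hm : Maps (P.F l) X Z) (ht : Thr P l X t)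
    (hy : t ≤ Nat.pair (l + 1) y) : VX P X (Nat.pair (l + 1) y) = VX P Z y := by
  rw [Bool.eq_iff_iff]
  exact ⟨copy_sound hm, copy_complete hQ hm ht hy⟩

theorem settled {X : ℕ → Bool} {l t s x : ℕ} (ht : Thr P l X t) (hL : isL P (Dt P) l (pre X s) = true)
    (hs : lastA P (Dt P) l (pre X s) = t) (hx : x < s) (hx2 : ∀ y, x = Nat.pair (l + 1) y → x < t) :
    VX P X x = true ↔ x ∈ V (Dt P) (pre X s) := by
  constructor
  · intro h
    by_contra hn
    obtain ⟨i, hi, hnew⟩ := exists_new' h hn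
    rcases late_L hL hi (no_evt ht hs (by omega)) hnew with h1 | ⟨y, _, hxy, hl⟩
    · omega
    · have h1 := hx2 y hxy
      have h2 : lastA P (Dt P) l (pre X s) ≤ lastA P (Dt P) l (pre X i) :=
        lastI_mono _ (pre_mono X hi)
      omega
  · intro h
    exact VX_iff.2 ⟨s, h⟩

end Pool.Agent.CMG
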