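import Mathlib
import Pool.Agent.AEI.JMP
import Pool.Agent.H19.Codes

/-!
# CMG: pointer systems and the construction (definitions)

A pointer system consists of uniformly computable monotone string functions `F p`, `G p` and of tests
`q p`.  The pointer `p` fires at the string `ρ` if `q p ρ = true`; it is active at `X` (`Q P p X`) if it
fires infinitely often along `X`.  In a good system at most one pointer is active at `X`; then
`X ↦ F p X` is a computable map with inverse `G p`.  The construction enumerates a set `V` along every
string; `D ρ = (a, new)`: at the string `ρ` the requirement `a - 1` acts (nobody if `a = 0`) and the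
numbers `new` are enumerated.

All functions have `D` as a parameter, so that the same definitions can be applied to a finite table
of values (computability) and to the real construction `Dt P` (verification).
-/

set_option autoImplicit false

namespace Pool.Agent.CMG

open Encodable Nat.Partrec Pool.Agent.H19 Pool.Agent.AEI

/-- A system of pointers. -/
structure PSys where
  F : ℕ → List Bool → List Bool
  G : ℕ → List Bool → List Bool
  q : ℕ → List Bool → Bool
  compF : Computable₂ F
  compG : Computable₂ G
  compq : Computable₂ q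
  monoF : ∀ p σ τ, σ <+: τ → F p σ <+: F p τ
  monoG : ∀ p σ τ, σ <+: τ → G p σ <+: G p τ
  lenF : ∀ p σ, (F p σ).length ≤ σ.length
  lenG : ∀ p σ, (G p σ).length ≤ σ.length

/-- The pointer `p` is active at `X`. -/
def Q (P : PSys) (p : ℕ) (X : ℕ → Bool) : Prop := ∀ N, ∃ s ≥ N, P.q p (pre X s) = true

/-- `Chain P a X Z`: following the active pointers with numbers `a` one gets from `X` to `Z`. -/
inductive Chain (P : PSys) : List ℕ → (ℕ → Bool) → (ℕ → Bool) → Prop
  | nil (X : ℕ → Bool) : Chain P [] X X
  | cons {p : ℕ} {a : List ℕ} {X Y Z : ℕ → Bool} (h1 : Q P p X) (h2 : Maps (P.F p) X Y)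
      (h3 : Chain P a Y Z) : Chain P (p :: a) X Z

/-! ### Requirements -/

/-- The requirement of type `t` with path `a` and index `e`. -/
def rq (t : ℕ) (a : List ℕ) (e : ℕ) : ℕ := Nat.pair t (Nat.pair (encode a) e)
/-- The type of the requirement `n`. -/
def ty (n : ℕ) : ℕ := n.unpair.1
/-- The path of the requirement `n`. -/
def pth (n : ℕ) : List ℕ := Denumerable.ofNat (List ℕ) n.unpair.2.unpair.1
/-- The code of the requirement `n`. -/
def ei (n : ℕ) : Code := Denumerable.ofNat Code n.unpair.2.unpair.2

@[simp] theorem ty_rq (t : ℕ) (a : List ℕ) (e : ℕ) : ty (rq t a e) = t := by simp [ty, rq]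
@[simp] theorem pth_rq (t : ℕ) (a : List ℕ) (e : ℕ) : pth (rq t a e) = a := by simp [pth, rq]
@[simp] theorem ei_rq (t : ℕ) (a : List ℕ) (e : ℕ) : ei (rq t a e) = Denumerable.ofNat Code e := by
  simp [ei, rq]

/-- A good pointer system. -/
structure GoodSys (P : PSys) : Prop where
  total : ∀ p X, Q P p X → ∃ Z, Maps (P.F p) X Z ∧ Maps (P.G p) Z X
  uni : ∀ p p' X, Q P p X → Q P p' X → p = p'
  gr : ∀ a X Z p, Chain P a X Z → Q P p Z → ∀ t ≤ 1, rq t a a.length < p

/-- The witness element of the requirement `n` with witness `w`. -/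
def yy (n w : ℕ) : ℕ := Nat.pair 0 (Nat.pair n w)

/-- The code of the element `y` of the last set of a chain in the first set. -/
def cod : List ℕ → ℕ → ℕ
  | [], y => y
  | l :: a, y => Nat.pair (l + 1) (cod a y)

/-- The greatest `i ≤ |τ|` with `t (τ.take i)` (`0` if there is none). -/
def lastI (t : List Bool → Bool) (τ : List Bool) : ℕ :=
  Nat.findGreatest (fun i => t (τ.take i) = true) τ.length

section

variable (P : PSys) (D : List Bool → ℕ × List ℕ)

/-- The least pointer below `|ρ|` which fires at `ρ` (`|ρ|` if there is none). -/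
def cc (ρ : List Bool) : ℕ :=
  (((List.range ρ.length).filter fun p => P.q p ρ).head?).getD ρ.length

/-- Going back along a path. -/
def bk : List ℕ → List Bool → List Bool
  | [], σ => σ
  | l :: a, σ => P.G l (bk a σ)

/-- Going forward along a path. -/
def fw : List ℕ → List Bool → List Bool
  | [], σ => σ
  | l :: a, σ => fw a (P.F l σ)

/-- The set enumerated along `τ`. -/
def V (τ : List Bool) : List ℕ := (List.range (τ.length + 1)).flatMap fun i => (D (τ.take i)).2

/-- At `ρ` a pointer `< n` fires or a requirement `< n` acts. -/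
def evt (n : ℕ) (ρ : List Bool) : Bool :=
  (decide (cc P ρ < ρ.length) && decide (cc P ρ < n)) ||
    (decide (0 < (D ρ).1) && decide ((D ρ).1 ≤ n))

/-- The last stage with an event of priority higher than `n`. -/
def lastA (n : ℕ) (τ : List Bool) : ℕ := lastI (evt P D n) τ

/-- `ρ` is an `l`-stage: `l` is the least firing pointer and no requirement acts. -/
def isL (l : ℕ) (ρ : List Bool) : Bool :=
  (decide (cc P ρ = l) && decide (l < ρ.length)) && decide ((D ρ).1 = 0)

/-- The last `l`-stage. -/
def lst (l : ℕ) (τ : List Bool) : List Bool := τ.take (lastI (isL P D l) τ)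

/-- The thresholds along the path. -/
def sg : List ℕ → List Bool → List ℕ
  | [], _ => []
  | l :: a, σ => lastA P D l (lst P D l (bk P (l :: a) σ)) :: sg a σ

/-- The approximation to the first set of the chain. -/
def vh : List ℕ → List Bool → List ℕ
  | [], σ => V D σ
  | l :: a, σ => V D (lst P D l (bk P (l :: a) σ)) ++
      ((vh a σ).map (Nat.pair (l + 1))).filter fun x =>
        decide (lastA P D l (lst P D l (bk P (l :: a) σ)) ≤ x)

/-- The length up to which the approximation is trusted. -/
def lens : List ℕ → List Bool → ℕ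
  | [], σ => σ.length
  | l :: a, σ => min (lst P D l (bk P (l :: a) σ)).length (lens a σ)

/-- The requirement `n` is reset at `ρ`. -/
def rst (n : ℕ) (ρ : List Bool) : Bool :=
  ((decide (cc P ρ < ρ.length) && decide (cc P ρ ≤ n)) ||
    (decide (0 < (D ρ).1) && decide ((D ρ).1 ≤ n))) ||
    !(decide (sg P D (pth n) ρ.dropLast = sg P D (pth n) ρ.dropLast.dropLast))

/-- The witness of the requirement `n`: the last stage at which it was reset. -/
def wt (n : ℕ) (σ : List Bool) : ℕ := lastI (rst P D n) σ

/-- The requirement `n` has acted since the last reset. -/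
def acted (n : ℕ) (σ : List Bool) : Bool :=
  decide (wt P D n σ < lastI (fun ρ => decide ((D ρ).1 = n + 1)) σ)

/-- The approximation to `X ⊕ V` for the first member `X` of the chain. -/
def ws (a : List ℕ) (σ : List Bool) : List Bool :=
  (List.range (lens P D a σ)).map fun i =>
    if decide (i % 2 = 0) then (bk P a σ).getD (i / 2) false
    else decide (i / 2 ∈ vh P D a σ)

/-- The computation of the requirement `n` is seen. -/
def tst (n : ℕ) (σ : List Bool) : Bool :=
  if decide (ty n = 0) then hit 0 (ei n) (cod (pth n) (yy n (wt P D n σ))) (bk P (pth n) σ)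
  else hit 0 (ei n) (Nat.pair n (wt P D n σ)) (ws P D (pth n) σ)

/-- The requirement `n` wants to act at the successors of `σ`. -/
def act (n : ℕ) (σ : List Bool) : Bool :=
  (!(acted P D n σ) && decide (sg P D (pth n) σ = sg P D (pth n) σ.dropLast)) && tst P D n σ

/-- What happens at `σ ++ [b]`. -/
def step (σ : List Bool) (b : Bool) : ℕ × List ℕ :=
  Option.casesOn ((List.range (cc P (σ ++ [b]))).filter fun n => act P D n σ).head?
    (0, if decide (cc P (σ ++ [b]) < σ.length + 1) then
      ((V D (P.F (cc P (σ ++ [b])) σ)).map (Nat.pair (cc P (σ ++ [b]) + 1))).filter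
        fun x => decide (lastA P D (cc P (σ ++ [b])) σ ≤ x) else [])
    (fun n => (n + 1, if decide (ty n = 0) then [yy n (wt P D n σ)] else []))

end

/-- The approximations to the construction: `DD P n` is correct on strings of length `≤ n`. -/
def DD (P : PSys) : ℕ → List Bool → ℕ × List ℕ
  | 0, _ => (0, [])
  | n + 1, ρ => if ρ.length ≤ n then DD P n ρ else step P (DD P n) ρ.dropLast (ρ.getLastD false)

/-- The construction. -/
def Dt (P : PSys) (ρ : List Bool) : ℕ × List ℕ := DD P ρ.length ρ

/-- The sequence which is the characteristic function of the set enumerated along `X`. -/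
noncomputable def VX (P : PSys) (X : ℕ → Bool) : ℕ → Bool := fun x =>
  open Classical in decide (∃ s, x ∈ V (Dt P) (pre X s))

/-- The set `W` of `X`. -/
noncomputable def WX (P : PSys) (X : ℕ → Bool) : ℕ → Bool := jn X (VX P X)

/-- The number `m = ⟨n, w⟩` is declared by the requirement `n` with witness `w`, seen at `σ`. -/
def dcl (P : PSys) (m : ℕ) (σ : List Bool) : Bool :=
  decide (ty m.unpair.1 = 1) && (List.range ((fw P (pth m.unpair.1) σ).length + 1)).any fun i =>
    decide ((Dt P ((fw P (pth m.unpair.1) σ).take i)).1 = m.unpair.1 + 1) &&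
      decide (wt P (Dt P) m.unpair.1 ((fw P (pth m.unpair.1) σ).take (i - 1)) = m.unpair.2)

/-- The set of the declared numbers. -/
noncomputable def DX (P : PSys) (X : ℕ → Bool) : ℕ → Bool := fun m =>
  open Classical in decide (∃ s, dcl P m (pre X s) = true)

/-- `t` is the final threshold of the pointer `l` along `X`. -/
def Thr (P : PSys) (l : ℕ) (X : ℕ → Bool) (t : ℕ) : Prop :=
  ∃ T, ∀ s ≥ T, evt P (Dt P) l (pre X s) = false ∧ lastA P (Dt P) l (pre X s) = t

/-- A chain with its thresholds. -/
inductive ChainT (P : PSys) : List ℕ → List ℕ → (ℕ → Bool) → (ℕ → Bool) → Prop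
  | nil (X : ℕ → Bool) : ChainT P [] [] X X
  | cons {p t : ℕ} {a ts : List ℕ} {X Y Z : ℕ → Bool} (h1 : Q P p X) (h2 : Maps (P.F p) X Y)
      (ht : Thr P p X t) (h3 : ChainT P a ts Y Z) : ChainT P (p :: a) (t :: ts) X Z

end Pool.Agent.CMG
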