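import Pool.Agent.CMG.THR

/-!
# CMG/FIN: finite injury

PROOF of `fin_inj` by strong induction on `n`, for all `X`.  (1) For `m < n` the hypothesis holds for `m`, so `m` acts only finitely often along `X`.
(2) For `p ≤ n` the pointer `p` fires only finitely often along `X`.  (3) `sg P (Dt P) (pth n) (pre X s)` is eventually constant by `sg_const`: let
`l ∈ pth n` (`l < n`, `mem_pth_lt`) and `Q P l Y`; no `p < l` is active at `Y` (`h.uni`), so for `m < l` no `p ≤ m` is active at `Y` and by the induction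
hypothesis `m` acts only finitely often along `Y`; `thr_of` gives the threshold.  By (1), (2), (3) `rst n (pre X s) = false` for all `s ≥ s1`
(`dropLast_pre`; `q_of_cc`).  Then `n` acts at most once after `s1`: if it acts at the stages `s1 < i < j`, then `act n (pre X (j - 1)) = true` (`act_of_fst`), but
`wt n (pre X (j - 1)) ≤ s1` (`lastI_pre_eq`) and `i ≤ lastI (fun ρ => decide ((D ρ).1 = n + 1)) (pre X (j - 1))`, so `acted` is true, contradiction.
-/

set_option autoImplicit false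

namespace Pool.Agent.CMG

open Encodable Nat.Partrec Pool.Agent.H19 Pool.Agent.AEI

variable {P : PSys}

private theorem FIN_bound {R : ℕ → ℕ → Prop} (l : ℕ) (h : ∀ p < l, ∃ N, ∀ s ≥ N, R p s) :
    ∃ T, ∀ p < l, ∀ s ≥ T, R p s := by
  induction l with
  | zero => exact ⟨0, fun p hp => absurd hp (Nat.not_lt_zero p)⟩
  | succ l ih =>
    obtain ⟨T, hT⟩ := ih fun p hp => h p (Nat.lt_succ_of_lt hp)
    obtain ⟨N, hN⟩ := h l (Nat.lt_succ_self l)
    refine ⟨max T N, fun p hp s hs => ?_⟩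
    rcases Nat.lt_succ_iff_lt_or_eq.1 hp with h1 | h1
    · exact hT p h1 s (le_trans (le_max_left _ _) hs)
    · rw [h1]
      exact hN s (le_trans (le_max_right _ _) hs)

theorem fin_inj (h : GoodSys P) (n : ℕ) : ∀ X : ℕ → Bool, (∀ p ≤ n, ¬ Q P p X) →
    ∃ s0, ∀ s ≥ s0, rst P (Dt P) n (pre X s) = false ∧ (Dt P (pre X s)).1 ≠ n + 1 := by
  induction n using Nat.strong_induction_on with
  | _ n IH =>
    intro X hX
    have h1 : ∀ m < n, ∃ s0, ∀ s ≥ s0, (Dt P (pre X s)).1 ≠ m + 1 := by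
      intro m hm
      obtain ⟨s0, hs0⟩ := IH m hm X fun p hp => hX p (hp.trans hm.le)
      exact ⟨s0, fun s hs => (hs0 s hs).2⟩
    have h2 : ∀ p < n + 1, ∃ N, ∀ s ≥ N, ¬ P.q p (pre X s) = true := by
      intro p hp
      have h4 := hX p (Nat.lt_succ_iff.1 hp)
      unfold Q at h4
      push Not at h4
      obtain ⟨N, hN⟩ := h4
      exact ⟨N, fun s hs => hN s hs⟩
    obtain ⟨ts, s3, hs3⟩ := sg_const (P := P) (pth n) X (by
      intro l hl Y hQ
      have hln := mem_pth_lt hl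
      refine thr_of (fun p hp hQ' => hp.ne (h.uni p l Y hQ' hQ)) fun m hm => ?_
      obtain ⟨s0, hs0⟩ := IH m (hm.trans hln) Y fun p hp hQ' => (lt_of_le_of_lt hp hm).ne (h.uni p l Y hQ' hQ)
      exact ⟨s0, fun s hs => (hs0 s hs).2⟩)
    obtain ⟨s1, hs1⟩ := FIN_bound (R := fun m s => (Dt P (pre X s)).1 ≠ m + 1) n h1
    obtain ⟨s2, hs2⟩ := FIN_bound (R := fun p s => ¬ P.q p (pre X s) = true) (n + 1) h2
    obtain ⟨s4, h41, h42, h43⟩ : ∃ s4, s1 ≤ s4 ∧ s2 ≤ s4 ∧ s3 ≤ s4 := ⟨s1 + s2 + s3, by omega, by omega, by omega⟩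
    have h5 : ∀ s ≥ s4 + 2, rst P (Dt P) n (pre X s) = false := by
      intro s hs
      have e1 : (Dt P (pre X s)).1 = 0 ∨ n < (Dt P (pre X s)).1 := by
        by_contra hc
        exact hs1 ((Dt P (pre X s)).1 - 1) (by omega) s (by omega) (by omega)
      have e2 : ¬ (cc P (pre X s) < (pre X s).length ∧ cc P (pre X s) ≤ n) := by
        rintro ⟨h6, h7⟩
        exact hs2 _ (Nat.lt_succ_iff.2 h7) s (by omega) (q_of_cc h6)
      have e3 : sg P (Dt P) (pth n) (pre X s).dropLast = sg P (Dt P) (pth n) (pre X s).dropLast.dropLast := by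
        rw [dropLast_pre, dropLast_pre, hs3 _ (by omega), hs3 _ (by omega)]
      rw [Bool.eq_false_iff]
      intro hr
      unfold rst at hr
      simp only [Bool.or_eq_true, Bool.and_eq_true, decide_eq_true_eq, Bool.not_eq_true', decide_eq_false_iff_not] at hr
      rcases hr with (h6 | h6) | h6
      · exact e2 h6
      · omega
      · exact h6 e3
    have h6 : ∀ i j, s4 + 2 < i → i < j → (Dt P (pre X i)).1 = n + 1 → (Dt P (pre X j)).1 = n + 1 → False := by
      intro i j hi hij hi1 hj1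
      obtain ⟨j', rfl⟩ : ∃ j', j = j' + 1 := ⟨j - 1, by omega⟩
      rw [pre_succ] at hj1
      have h7 := (act_of_fst hj1).2
      unfold act at h7
      simp only [Bool.and_eq_true, Bool.not_eq_true'] at h7
      obtain ⟨⟨h8, -⟩, -⟩ := h7
      unfold acted at h8
      rw [decide_eq_false_iff_not] at h8
      apply h8
      have h9 : wt P (Dt P) n (pre X j') = wt P (Dt P) n (pre X (s4 + 2)) :=
        lastI_pre_eq (by omega) fun i' hi' _ => h5 i' hi'.le
      have h10 : wt P (Dt P) n (pre X (s4 + 2)) ≤ (pre X (s4 + 2)).length := lastI_le _ _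
      rw [pre_length] at h10
      have h11 : i ≤ lastI (fun ρ => decide ((Dt P ρ).1 = n + 1)) (pre X j') :=
        le_lastI_pre (by omega) (decide_eq_true hi1)
      omega
    by_cases h7 : ∃ i, s4 + 2 < i ∧ (Dt P (pre X i)).1 = n + 1
    · obtain ⟨i, hi, hi1⟩ := h7
      exact ⟨i + 1, fun s hs => ⟨h5 s (by omega), fun hc => h6 i s hi (by omega) hi1 hc⟩⟩
    · push Not at h7
      exact ⟨s4 + 3, fun s hs => ⟨h5 s (by omega), h7 s (by omega)⟩⟩

theorem thr_of_Q (h : GoodSys P) {X : ℕ → Bool} {l : ℕ} (hQ : Q P l X) : ∃ t, Thr P l X t := by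
  refine thr_of (fun p hp hQ' => hp.ne (h.uni p l X hQ' hQ)) fun m hm => ?_
  obtain ⟨s0, hs0⟩ := fin_inj h m X fun p hp hQ' => (lt_of_le_of_lt hp hm).ne (h.uni p l X hQ' hQ)
  exact ⟨s0, fun s hs => (hs0 s hs).2⟩

end Pool.Agent.CMG
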