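import Pool.Agent.CMG.GFE

/-!
# CMG/GAC: right decisions

PROOFS.  `atest` is monotone in `s` (`mem_strsLe`), so `acnt` is (`Nat.findGreatest_mono`).  `aok_anti`: `strsLe s ⊆ strsLe t`.
`acc_iff_afr`: if `acnt` is unbounded then, being monotone, it increases at infinitely many stages (given `N` let `v = acnt N`, take the least `s`
with `acnt s > v`).  Conversely `aok` at infinitely many stages gives it at all stages (`aok_anti`) and infinitely many increases make `acnt` unbounded.
`acc_iff_dns`: if `acnt` is unbounded and `dtau <+: ρ`, `L` is given, take `s` with `L' = acnt s ≥ max L |ρ|`; then `atest s L'` holds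
(`Nat.findGreatest_spec`; `atest s 0` holds for... only `L' > 0` is needed, for `L' = 0` everything is trivial) and gives `σ`.  Conversely for `L` choose for each of the
finitely many `ρ ∈ strsLe L` above `dtau` an extension with progress `≥ L` and take `s ≥ L` larger than their lengths: `atest s L`, so `L ≤ acnt s`
(`Nat.le_findGreatest`).
-/

set_option autoImplicit false

namespace Pool.Agent.CMG

open Encodable Nat.Partrec Pool.Agent.H19 Pool.Agent.AEI

private theorem atest_iff {h : Hist} {fr : ℕ → List Bool → Bool} {d : Dec} {s L : ℕ} :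
    atest h fr d s L = true ↔ ∀ ρ : List Bool, ρ.length ≤ L → dtau d <+: ρ →
      ∃ σ : List Bool, σ.length ≤ s ∧ ρ <+: σ ∧ L ≤ prog h fr d σ := by
  unfold atest
  rw [List.all_eq_true]
  constructor
  · intro H ρ hρ hd
    have h1 := H ρ (mem_strsLe.2 hρ)
    rw [Bool.or_eq_true, Bool.not_eq_true', List.any_eq_true] at h1
    rcases h1 with h1 | ⟨σ, hσ, h1⟩
    · exact absurd (isPre_iff.2 hd) (by rw [h1]; exact Bool.false_ne_true)
    · rw [Bool.and_eq_true, decide_eq_true_iff] at h1
      exact ⟨σ, mem_strsLe.1 hσ, isPre_iff.1 h1.1, h1.2⟩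
  · intro H ρ hρ
    rw [Bool.or_eq_true, Bool.not_eq_true', List.any_eq_true]
    by_cases hd : dtau d <+: ρ
    · right
      obtain ⟨σ, h1, h2, h3⟩ := H ρ (mem_strsLe.1 hρ) hd
      refine ⟨σ, mem_strsLe.2 h1, ?_⟩
      rw [Bool.and_eq_true, decide_eq_true_iff]
      exact ⟨isPre_iff.2 h2, h3⟩
    · left
      rw [← Bool.not_eq_true, isPre_iff]
      exact hd

private theorem atest_mono {h : Hist} {fr : ℕ → List Bool → Bool} {d : Dec} {s t L : ℕ} (hst : s ≤ t)
    (ha : atest h fr d s L = true) : atest h fr d t L = true := by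
  rw [atest_iff] at ha ⊢
  intro ρ h1 h2
  obtain ⟨σ, h3, h4⟩ := ha ρ h1 h2
  exact ⟨σ, h3.trans hst, h4⟩

theorem acnt_mono (h : Hist) (fr : ℕ → List Bool → Bool) (d : Dec) {s t : ℕ} (hst : s ≤ t) :
    acnt h fr d s ≤ acnt h fr d t := by
  unfold acnt
  exact Nat.findGreatest_mono (fun L hL => atest_mono hst hL) hst

private theorem aok_iff {h : Hist} {fr : ℕ → List Bool → Bool} {d : Dec} {s : ℕ} :
    aok h fr d s = true ↔ stat h d = true ∧ ∀ σ : List Bool, σ.length ≤ s → dtau d <+: σ →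
      okd h fr d σ = true := by
  unfold aok
  rw [Bool.and_eq_true, List.all_eq_true]
  refine and_congr_right fun _ => ?_
  constructor
  · intro H σ h1 h2
    have h3 := H σ (mem_strsLe.2 h1)
    rw [Bool.or_eq_true, Bool.not_eq_true'] at h3
    rcases h3 with h3 | h3
    · exact absurd (isPre_iff.2 h2) (by rw [h3]; exact Bool.false_ne_true)
    · exact h3
  · intro H σ h1
    rw [Bool.or_eq_true, Bool.not_eq_true']
    by_cases hd : dtau d <+: σ
    · exact Or.inr (H σ (mem_strsLe.1 h1) hd)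
    · left
      rw [← Bool.not_eq_true, isPre_iff]
      exact hd

theorem aok_anti {h : Hist} {fr : ℕ → List Bool → Bool} {d : Dec} {s t : ℕ} (hst : s ≤ t)
    (ha : aok h fr d t = true) : aok h fr d s = true := by
  rw [aok_iff] at ha ⊢
  exact ⟨ha.1, fun σ h1 h2 => ha.2 σ (h1.trans hst) h2⟩

private theorem afr_iff {h : Hist} {fr : ℕ → List Bool → Bool} {c s : ℕ} :
    afr h fr c s = true ↔ aok h fr (dec c) s = true ∧
      acnt h fr (dec c) (s - 1) < acnt h fr (dec c) s := by
  unfold afr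
  rw [Bool.and_eq_true, decide_eq_true_iff]

theorem acc_iff_afr {g : Hist} {c : ℕ} : Acc g c ↔ ∀ N, ∃ s ≥ N, afr g (fire g) c s = true := by
  constructor
  · rintro ⟨h1, h2⟩ N
    have h3 : ∃ s, acnt g (fire g) (dec c) N < acnt g (fire g) (dec c) s := by
      obtain ⟨s, hs⟩ := h2 (acnt g (fire g) (dec c) N + 1)
      exact ⟨s, hs⟩
    classical
    have h4 := Nat.find_spec h3
    have h5 : N < Nat.find h3 := by
      by_contra hc
      exact absurd h4 (not_lt.2 (acnt_mono g (fire g) (dec c) (not_lt.1 hc)))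
    refine ⟨Nat.find h3, h5.le, afr_iff.2 ⟨h1 _, ?_⟩⟩
    have h6 : ¬ acnt g (fire g) (dec c) N < acnt g (fire g) (dec c) (Nat.find h3 - 1) :=
      Nat.find_min h3 (by omega)
    exact lt_of_le_of_lt (not_lt.1 h6) h4
  · intro H
    refine ⟨fun s => ?_, fun L => ?_⟩
    · obtain ⟨t, h1, h2⟩ := H s
      exact aok_anti h1 (afr_iff.1 h2).1
    · induction L with
      | zero => exact ⟨0, Nat.zero_le _⟩
      | succ L ih =>
        obtain ⟨s, hs⟩ := ih
        obtain ⟨t, h1, h2⟩ := H (s + 1)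
        have h3 := (afr_iff.1 h2).2
        have h4 := acnt_mono g (fire g) (dec c) (show s ≤ t - 1 by omega)
        exact ⟨t, by omega⟩

theorem acc_iff_dns {g : Hist} {c : ℕ} : Acc g c ↔ stat g (dec c) = true ∧
    (∀ σ, dtau (dec c) <+: σ → okd g (fire g) (dec c) σ = true) ∧
    Dns (dtau (dec c)) (prog g (fire g) (dec c)) := by
  constructor
  · rintro ⟨h1, h2⟩
    refine ⟨(aok_iff.1 (h1 0)).1, fun σ hσ => (aok_iff.1 (h1 σ.length)).2 σ le_rfl hσ, ?_⟩
    intro ρ hρ L
    obtain ⟨s, hs⟩ := h2 (max L ρ.length + 1)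
    have h3 : atest g (fire g) (dec c) s (acnt g (fire g) (dec c) s) = true := by
      have h4 := (Nat.findGreatest_eq_iff (P := fun L => atest g (fire g) (dec c) s L = true)
        (k := s) (m := acnt g (fire g) (dec c) s)).1 rfl
      exact h4.2.1 (by omega)
    have h4 := le_max_left L ρ.length
    have h5 := le_max_right L ρ.length
    obtain ⟨σ, h6, h7, h8⟩ := atest_iff.1 h3 ρ (by omega) hρ
    exact ⟨σ, h7, by omega⟩
  · rintro ⟨h1, h2, h3⟩
    refine ⟨fun s => aok_iff.2 ⟨h1, fun σ _ hσ => h2 σ hσ⟩, fun L => ?_⟩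
    have h4 : ∀ l : List (List Bool), ∃ s, ∀ ρ ∈ l, dtau (dec c) <+: ρ →
        ∃ σ : List Bool, σ.length ≤ s ∧ ρ <+: σ ∧ L ≤ prog g (fire g) (dec c) σ := by
      intro l
      induction l with
      | nil => exact ⟨0, fun ρ hρ => absurd hρ List.not_mem_nil⟩
      | cons ρ0 l ih =>
        obtain ⟨s, hs⟩ := ih
        by_cases h0 : dtau (dec c) <+: ρ0
        · obtain ⟨σ0, h5, h6⟩ := h3 ρ0 h0 L
          refine ⟨max s σ0.length, fun ρ hρ hd => ?_⟩
          rcases List.mem_cons.1 hρ with rfl | hρ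
          · exact ⟨σ0, le_max_right _ _, h5, h6⟩
          · obtain ⟨σ, h7, h8⟩ := hs ρ hρ hd
            exact ⟨σ, h7.trans (le_max_left _ _), h8⟩
        · refine ⟨s, fun ρ hρ hd => ?_⟩
          rcases List.mem_cons.1 hρ with rfl | hρ
          · exact absurd hd h0
          · exact hs ρ hρ hd
    obtain ⟨s, hs⟩ := h4 (strsLe L)
    refine ⟨max s L, ?_⟩
    unfold acnt
    refine Nat.le_findGreatest (le_max_right _ _) ?_
    rw [atest_iff]
    intro ρ h5 h6
    obtain ⟨σ, h7, h8⟩ := hs ρ (mem_strsLe.2 h5) h6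
    exact ⟨σ, h7.trans (le_max_left _ _), h8⟩

end Pool.Agent.CMG
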