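import Pool.Agent.CMG.GAC

/-!
# CMG/GUQ: right histories are unique; the exact stage

PROOFS.  `acc_ex_unique`: if `c < c'` then `Acc g c` gives `afr g (fire g) c s` at infinitely many `s` (`acc_iff_afr`), but `Ex g c' k'` excludes `s > k'`.
So `c = c'`.  If `k < k'` then `k' ≠ 0`, so some `c'' < c` has `afr` at `k' > k`, against `Ex g c k`.
`good_unique`: induction on `n`: `h.take (n + 1) = h.take n ++ [h.getD n (0, 0)]` for `n < |h|` (`List.take_succ`), and `acc_ex_unique`.
`exists_ex`: the least `c` with `Acc g c` (`Nat.find`).  Every `c' < c` is not right, so by `acc_iff_afr` there is `N c'` with `afr g (fire g) c' s = false`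
for `s ≥ N c'`.  Let `N` be their maximum and `k` the greatest `s ≤ N` such that `s = 0` or `∃ c' < c, afr g (fire g) c' s` (`Nat.findGreatest`).
-/

set_option autoImplicit false

namespace Pool.Agent.CMG

open Encodable Nat.Partrec Pool.Agent.H19 Pool.Agent.AEI

private theorem GUQ_lt {g : Hist} {c c' k' : ℕ} (h1 : Acc g c) (h2' : Ex g c' k') (hlt : c < c') : False := by
  obtain ⟨s, hs, h⟩ := acc_iff_afr.1 h1 (k' + 1)
  rw [h2'.1 c hlt s (by omega)] at h
  exact absurd h (by simp)

private theorem GUQ_lt2 {g : Hist} {c k k' : ℕ} (h2 : Ex g c k) (h2' : Ex g c k') (hlt : k < k') : False := by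
  rcases h2'.2 with h | ⟨c'', hc, h⟩
  · omega
  · rw [h2.1 c'' hc k' hlt] at h
    exact absurd h (by simp)

theorem acc_ex_unique {g : Hist} {c k c' k' : ℕ} (h1 : Acc g c) (h2 : Ex g c k) (h1' : Acc g c') (h2' : Ex g c' k') :
    c = c' ∧ k = k' := by
  have hc : c = c' := by
    rcases lt_trichotomy c c' with h | h | h
    · exact (GUQ_lt h1 h2' h).elim
    · exact h
    · exact (GUQ_lt h1' h2 h).elim
  subst hc
  refine ⟨rfl, ?_⟩
  rcases lt_trichotomy k k' with h | h | h
  · exact (GUQ_lt2 h2 h2' h).elim
  · exact h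
  · exact (GUQ_lt2 h2' h2 h).elim

theorem good_nil : GoodH [] := by
  intro r hr
  exact absurd hr (by simp)

theorem good_take {h : Hist} (n : ℕ) (hg : GoodH h) : GoodH (h.take n) := by
  intro r hr
  rw [List.length_take] at hr
  have h1 : r < n := by omega
  have h2 : r < h.length := by omega
  rw [List.take_take, min_eq_left h1.le, ch_take h1, kh_take h1]
  exact hg r h2

private theorem GUQ_take {h : Hist} {n : ℕ} (hn : n < h.length) :
    h.take (n + 1) = h.take n ++ [h.getD n (0, 0)] := by
  rw [List.take_add_one, List.getElem?_eq_getElem hn, List.getD_eq_getElem _ _ hn]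
  rfl

theorem good_unique {h h' : Hist} (hg : GoodH h) (hg' : GoodH h') {n : ℕ} (hn : n ≤ h.length) (hn' : n ≤ h'.length) :
    h.take n = h'.take n := by
  induction n with
  | zero => simp
  | succ n ih =>
    have ih' := ih (by omega) (by omega)
    have h1 := hg n (by omega)
    have h2 := hg' n (by omega)
    rw [← ih'] at h2
    have h3 := acc_ex_unique h1.1 h1.2 h2.1 h2.2
    rw [GUQ_take (by omega), GUQ_take (h := h') (by omega), ih']
    congr 2
    exact Prod.ext h3.1 h3.2

theorem good_eq {h h' : Hist} (hg : GoodH h) (hg' : GoodH h') (hn : h.length = h'.length) : h = h' := by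
  have := good_unique hg hg' (n := h.length) le_rfl hn.le
  rw [List.take_length, hn, List.take_length] at this
  exact this

theorem good_prefix {h h' : Hist} (hg : GoodH h) (hg' : GoodH h') (hn : h.length ≤ h'.length) : h = h'.take h.length := by
  have := good_unique hg hg' (n := h.length) le_rfl hn
  rw [List.take_length] at this
  exact this

theorem exists_ex {g : Hist} (hc : ∃ c, Acc g c) : ∃ c k, Acc g c ∧ Ex g c k := by
  classical
  obtain ⟨c, hc1, hc2⟩ : ∃ c, Acc g c ∧ ∀ c' < c, ¬ Acc g c' :=
    ⟨Nat.find hc, Nat.find_spec hc, fun c' hc' => Nat.find_min hc hc'⟩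
  have hN : ∀ n ≤ c, ∃ N, ∀ c' < n, ∀ s ≥ N, afr g (fire g) c' s = false := by
    intro n
    induction n with
    | zero =>
      intro _
      exact ⟨0, fun c' hc' => absurd hc' (Nat.not_lt_zero _)⟩
    | succ n ih =>
      intro hn
      obtain ⟨N, hN⟩ := ih (by omega)
      have h1 := hc2 n (by omega)
      rw [acc_iff_afr] at h1
      push Not at h1
      obtain ⟨M, hM⟩ := h1
      refine ⟨max N M, fun c' hc' s hs => ?_⟩
      rcases Nat.lt_succ_iff_lt_or_eq.1 hc' with h2 | h2
      · exact hN c' h2 s (le_trans (le_max_left _ _) hs)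
      · subst h2
        have h3 := hM s (le_trans (le_max_right _ _) hs)
        simpa using h3
  obtain ⟨N, hN⟩ := hN c le_rfl
  refine ⟨c, Nat.findGreatest (fun s => s = 0 ∨ ∃ c' < c, afr g (fire g) c' s = true) N, hc1, ?_, ?_⟩
  · intro c' hc' s hs
    rcases Nat.lt_or_ge N s with h1 | h1
    · exact hN c' hc' s h1.le
    · have h2 := Nat.findGreatest_is_greatest hs h1
      push Not at h2
      have h3 := h2.2 c' hc'
      simpa using h3
  · exact Nat.findGreatest_spec (P := fun s => s = 0 ∨ ∃ c' < c, afr g (fire g) c' s = true)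
      (Nat.zero_le N) (Or.inl rfl)

theorem good_append {g : Hist} {c k : ℕ} (hg : GoodH g) (h1 : Acc g c) (h2 : Ex g c k) : GoodH (g ++ [(c, k)]) := by
  intro r hr
  rw [List.length_append, List.length_singleton] at hr
  rcases Nat.lt_succ_iff_lt_or_eq.1 hr with h3 | h3
  · have h4 : (g ++ [(c, k)]).take r = g.take r := List.take_append_of_le_length h3.le
    have h5 : (g ++ [(c, k)]).getD r (0, 0) = g.getD r (0, 0) := List.getD_append _ _ _ _ h3
    unfold ch kh
    rw [h4, h5]
    exact hg r h3
  · subst h3
    have h4 : (g ++ [(c, k)]).take g.length = g := by simp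
    have h5 : (g ++ [(c, k)]).getD g.length (0, 0) = (c, k) := by simp [List.getD]
    unfold ch kh
    rw [h4, h5]
    exact ⟨h1, h2⟩

theorem acc_last {h : Hist} (hg : GoodH h) (hl : 0 < h.length) : Acc (h.take (h.length - 1)) (ch h (h.length - 1)) :=
  (hg (h.length - 1) (by omega)).1

end Pool.Agent.CMG
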