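import Pool.Agent.CMG.GGK
import Pool.Agent.CMG.GUQ

/-!
# CMG/GAT: what it means that a pointer fires infinitely often

PROOFS.  `act_of_fi`: let `g = h.take (m + 1)`, `|g| = m + 1`.  By `fire_take`, `fire_last` the string functional `fireS g (fire g)` fires at infinitely many
`pre X s`.  At such `s`: `kd (dl g) = 2`, `pok`, and `pcnt (pre X (s - 1)) < pcnt (pre X s)` (`dropLast_pre`).  `pcnt` is monotone along `X` (`gcnt_mono`, `fn_mono`), so it
is unbounded: `gcnt` is unbounded, hence `GoodH g` (`good_of_gok`), and `|fn gi (fn fi (pre X s))|` is unbounded, hence so is `|fn fi (pre X s)|`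
(`fn_len`): `Z` with `Maps (fn fi) X Z` by `exists_ext`.  `Maps (fn gi) Z X`: for `n` take a firing stage `s` with `n < |fn gi (fn fi (pre X s))|`; this string is an
initial segment of `pre X s` (`isPre`), and `fn fi (pre X s) = pre Z t` (`maps_pre`).  `lbX`: firing stage `s ≥ |lb|` and `compat`; `laZ`: firing stage with
`|fn fi (pre X s)| ≥ |la|`; `nX`, `nZ`: `nofire_pre` at a large firing stage.
`fi_of_act`: for large `s` `pok h (fire h) (pre X s)` holds (`gok_of_good`; `fn fi (pre X s) = pre Z t` with `t ≤ s`, `fn gi (pre Z t) = pre X t'`, `t' ≤ t`), and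
`pcnt` is unbounded along `X` (`gcnt_of_good`, `maps_comp`, `maps_len`) and monotone, so it increases infinitely often.  `fire_last`.
`act_self`: at a firing stage `compat lb (pre Z s)`, so `lb <+: pre Z s`, and `la <+: pre Z s`; so `compat la lb`, but `stat` (`acc_last`, `acc_iff_dns`) says no.
-/

set_option autoImplicit false

namespace Pool.Agent.CMG

open Encodable Nat.Partrec Pool.Agent.H19 Pool.Agent.AEI

private theorem GAT_fireS {h : Hist} {fr : ℕ → List Bool → Bool} {σ : List Bool} : fireS h fr σ = true ↔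
    kd (dl h) = 2 ∧ gok h fr σ.length = true ∧ compat (lb (dl h)) σ = true ∧
      compat (la (dl h)) (fn (fi (dl h)) σ) = true ∧ fn (gi (dl h)) (fn (fi (dl h)) σ) <+: σ ∧
      nofire fr (h.length - 1) (tt (dl h)) σ = true ∧
      nofire fr (h.length - 1) (tt (dl h)) (fn (fi (dl h)) σ) = true ∧
      pcnt h fr σ.dropLast < pcnt h fr σ := by
  simp only [fireS, pok, Bool.and_eq_true, decide_eq_true_eq, isPre_iff]
  tauto

private theorem GAT_pcnt_mono (h : Hist) (fr : ℕ → List Bool → Bool) (X : ℕ → Bool) {s t : ℕ} (hst : s ≤ t) :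
    pcnt h fr (pre X s) ≤ pcnt h fr (pre X t) := by
  unfold pcnt
  rw [pre_length, pre_length]
  exact min_le_min (gcnt_mono h fr hst) (fn_mono _ (fn_mono _ (pre_mono X hst))).length_le

private theorem GAT_unb {f : ℕ → ℕ} (hm : ∀ s t, s ≤ t → f s ≤ f t) (hf : ∀ N, ∃ s ≥ N, f (s - 1) < f s) (L : ℕ) :
    ∃ s, L ≤ f s := by
  induction L with
  | zero => exact ⟨0, Nat.zero_le _⟩
  | succ L ih =>
    obtain ⟨s, hs⟩ := ih
    obtain ⟨t, ht, h1⟩ := hf (s + 1)
    have h2 := hm s (t - 1) (by omega)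
    exact ⟨t, by omega⟩

private theorem GAT_inc {f : ℕ → ℕ} (hm : ∀ s t, s ≤ t → f s ≤ f t) (hf : ∀ L, ∃ s, L ≤ f s) (N : ℕ) :
    ∃ s ≥ N, f (s - 1) < f s := by
  classical
  have h1 : ∃ s, f N < f s := by
    obtain ⟨s, hs⟩ := hf (f N + 1)
    exact ⟨s, by omega⟩
  have h2 := Nat.find_spec h1
  set t := Nat.find h1 with ht
  have h3 : N < t := by
    by_contra h4
    have := hm t N (by omega)
    omega
  refine ⟨t, h3.le, ?_⟩
  have h4 : ¬ f N < f (t - 1) := Nat.find_min h1 (by omega)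
  omega

private theorem GAT_eq {X : ℕ → Bool} {σ : List Bool} {s : ℕ} (hc : compat σ (pre X s) = true)
    (hs : σ.length ≤ s) : σ = pre X σ.length := by
  rcases compat_iff.1 hc with h | h
  · exact eq_pre_of_prefix h
  · have h1 := h.length_le
    rw [pre_length] at h1
    have h2 : pre X s = σ := h.eq_of_length (by rw [pre_length]; omega)
    rw [← h2, pre_length]

private theorem GAT_compat (X : ℕ → Bool) (s t : ℕ) : compat (pre X s) (pre X t) = true :=
  compat_of_prefix (pre_mono X (le_max_left s t)) (pre_mono X (le_max_right s t))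

theorem act_of_fi {h : Hist} {m : ℕ} {X : ℕ → Bool} (hm : m < h.length) (hf : Fi h m X) :
    ∃ Z, Act (h.take (m + 1)) X Z := by
  set g := h.take (m + 1) with hg
  have hgl : g.length = m + 1 := by rw [hg, List.length_take]; omega
  have hgm : g.length - 1 = m := by omega
  have hF : ∀ σ τ, σ <+: τ → fn (fi (dl g)) σ <+: fn (fi (dl g)) τ := fun _ _ hp => fn_mono _ hp
  have hG : ∀ σ τ, σ <+: τ → fn (gi (dl g)) σ <+: fn (gi (dl g)) τ := fun _ _ hp => fn_mono _ hp
  have key : ∀ N, ∃ s ≥ N, fireS g (fire g) (pre X s) = true := by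
    intro N
    obtain ⟨s, hs, h1⟩ := hf N
    refine ⟨s, hs, ?_⟩
    rw [← fire_last (by omega), hgm, hg, fire_take (Nat.lt_succ_self m)]
    exact h1
  have hunb : ∀ L, ∃ s, L ≤ pcnt g (fire g) (pre X s) := by
    refine GAT_unb (f := fun s => pcnt g (fire g) (pre X s))
      (fun s t hst => GAT_pcnt_mono g (fire g) X hst) (fun N => ?_)
    obtain ⟨s, hs, h1⟩ := key N
    have h2 := (GAT_fireS.1 h1).2.2.2.2.2.2.2
    rw [dropLast_pre] at h2
    exact ⟨s, hs, h2⟩
  have hgood : GoodH g := by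
    refine good_of_gok (fun N => ?_) (fun L => ?_)
    · obtain ⟨s, hs, h1⟩ := key N
      have h2 := (GAT_fireS.1 h1).2.1
      rw [pre_length] at h2
      exact ⟨s, hs, h2⟩
    · obtain ⟨s, hs⟩ := hunb L
      refine ⟨s, hs.trans ?_⟩
      have := min_le_left (gcnt g (fire g) (pre X s).length) (fn (gi (dl g)) (fn (fi (dl g)) (pre X s))).length
      rw [pre_length] at this
      unfold pcnt
      rw [pre_length]
      exact this
  have hGF : ∀ n, ∃ s, n ≤ (fn (gi (dl g)) (fn (fi (dl g)) (pre X s))).length := by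
    intro n
    obtain ⟨s, hs⟩ := hunb n
    exact ⟨s, hs.trans (min_le_right _ _)⟩
  obtain ⟨Z, hZ⟩ := exists_ext hF (X := X) (fun n => by
    obtain ⟨s, hs⟩ := hGF n
    exact ⟨s, hs.trans (fn_len _ _)⟩)
  have big : ∀ s, ∃ t ≥ s, fireS g (fire g) (pre X t) = true ∧
      ∃ u ≥ s, fn (fi (dl g)) (pre X t) = pre Z u := by
    intro s
    obtain ⟨s0, hs0⟩ := maps_len hF hZ s
    obtain ⟨t, ht, h1⟩ := key (max s s0)
    exact ⟨t, (le_max_left _ _).trans ht, h1, _, hs0 t ((le_max_right _ _).trans ht), maps_pre hF hZ t⟩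
  refine ⟨Z, ⟨hgood, ?_, by omega, ?_, ?_, hZ, ?_, ?_, ?_⟩⟩
  · obtain ⟨s, _, h1⟩ := key 0
    exact (GAT_fireS.1 h1).1
  · obtain ⟨t, ht, h1, _⟩ := big (lb (dl g)).length
    exact GAT_eq (GAT_fireS.1 h1).2.2.1 ht
  · obtain ⟨t, ht, h1, u, hu, h2⟩ := big (la (dl g)).length
    have h3 := (GAT_fireS.1 h1).2.2.2.1
    rw [h2] at h3
    exact GAT_eq h3 hu
  · refine maps_of (fun s => ?_) (fun n => ?_)
    · obtain ⟨t, ht, h1, u, hu, h2⟩ := big s
      have h3 := (GAT_fireS.1 h1).2.2.2.2.1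
      rw [h2] at h3
      exact eq_pre_of_prefix ((hG _ _ (pre_mono Z hu)).trans h3)
    · obtain ⟨s, hs⟩ := hGF n
      rw [maps_pre hF hZ s] at hs
      exact ⟨_, hs⟩
  · intro m' hm' s hs
    obtain ⟨t, ht, h1, _⟩ := big s
    exact (nofire_pre.1 (GAT_fireS.1 h1).2.2.2.2.2.1) m' hm' s ht hs
  · intro m' hm' s hs
    obtain ⟨t, ht, h1, u, hu, h2⟩ := big s
    have h3 := (GAT_fireS.1 h1).2.2.2.2.2.2.1
    rw [h2] at h3
    exact (nofire_pre.1 h3) m' hm' s hu hs

theorem fi_of_act {h : Hist} {X Z : ℕ → Bool} (ha : Act h X Z) : Fi h (h.length - 1) X := by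
  have hF : ∀ σ τ, σ <+: τ → fn (fi (dl h)) σ <+: fn (fi (dl h)) τ := fun _ _ hp => fn_mono _ hp
  have hG : ∀ σ τ, σ <+: τ → fn (gi (dl h)) σ <+: fn (gi (dl h)) τ := fun _ _ hp => fn_mono _ hp
  have hunb : ∀ L, ∃ s, L ≤ pcnt h (fire h) (pre X s) := by
    intro L
    obtain ⟨s0, hs0⟩ := gcnt_of_good ha.good L
    obtain ⟨s1, hs1⟩ := maps_len (F := fun σ => fn (gi (dl h)) (fn (fi (dl h)) σ))
      (fun σ τ hp => hG _ _ (hF _ _ hp)) (maps_comp hF hG ha.mF ha.mG) L
    refine ⟨max s0 s1, le_min ?_ (hs1 _ (le_max_right _ _))⟩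
    rw [pre_length]
    exact hs0 _ (le_max_left _ _)
  obtain ⟨s0, hs0⟩ := gok_of_good ha.good
  intro N
  obtain ⟨s, hs, hinc⟩ := GAT_inc (f := fun s => pcnt h (fire h) (pre X s))
    (fun s t hst => GAT_pcnt_mono h (fire h) X hst) hunb (max N s0)
  refine ⟨s, (le_max_left _ _).trans hs, ?_⟩
  have e1 := maps_pre hF ha.mF s
  rw [fire_last ha.pos]
  refine GAT_fireS.2 ⟨ha.kind, ?_, ?_, ?_, ?_, ?_, ?_, ?_⟩
  · rw [pre_length]
    exact hs0 s ((le_max_right _ _).trans hs)
  · rw [ha.lbX]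
    exact GAT_compat X _ _
  · rw [e1, ha.laZ]
    exact GAT_compat Z _ _
  · have e2 := maps_pre hG ha.mG (fn (fi (dl h)) (pre X s)).length
    rw [← e1] at e2
    rw [e2]
    refine pre_mono X ?_
    have h1 := fn_len (gi (dl h)) (fn (fi (dl h)) (pre X s))
    have h2 := fn_len (fi (dl h)) (pre X s)
    rw [pre_length] at h2
    exact h1.trans h2
  · exact nofire_pre.2 fun m hm i _ hi' => ha.nX m hm i hi'
  · rw [e1]
    exact nofire_pre.2 fun m hm i _ hi' => ha.nZ m hm i hi'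
  · rw [dropLast_pre]
    exact hinc

theorem act_self {h : Hist} {X Z : ℕ → Bool} (ha : Act h X Z) {s : ℕ} (h1 : (la (dl h)).length ≤ s)
    (h2 : (lb (dl h)).length ≤ s) : fire h (h.length - 1) (pre Z s) = false := by
  rw [← Bool.not_eq_true]
  intro h3
  rw [fire_last ha.pos] at h3
  have h4 := GAT_eq (GAT_fireS.1 h3).2.2.1 h2
  have h5 : compat (la (dl h)) (lb (dl h)) = true := by
    rw [h4, ha.laZ]
    exact GAT_compat Z _ _
  have h6 := (acc_iff_dns.1 (acc_last ha.good ha.pos)).1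
  unfold stat at h6
  rw [Bool.and_eq_true, Bool.or_eq_true] at h6
  rcases h6.2 with h7 | h7
  · have h8 : kd (dec (ch h (h.length - 1))) = 2 := ha.kind
    simp [h8] at h7
  · have h8 : compat (la (dec (ch h (h.length - 1)))) (lb (dec (ch h (h.length - 1)))) = true := h5
    simp [h8] at h7

end Pool.Agent.CMG
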