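import Pool.Agent.CMG.GCE

/-!
# CMG/GCB: computability of the conditions on a decision

PROOF.  Compose the lemmas of GCA, GCE and the combinators named there; `(eqs h σ)[i]? = σ[i]?` is `comp_decEq` for `Option Bool`
(`Computable.list_getElem?`).  To apply a lemma inside `comp_list_all (g := fun a ρ => ..)` compose `h`, `fr`, `d` with `Computable.fst`; for `fr` with
`α × β` in place of `α`: `hfr.comp (Computable.pair (Computable.fst.comp Computable.fst) Computable.snd)`.
-/

set_option autoImplicit false

namespace Pool.Agent.CMG

open Encodable Nat.Partrec Pool.Agent.H19 Pool.Agent.AEI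

variable {α : Type*} [Primcodable α] {h : α → Hist} {fr : α → ℕ → List Bool → Bool} {d : α → Dec} {σ : α → List Bool}

theorem comp_XX (hh : Computable h) (hd : Computable d) (hσ : Computable σ) : Computable fun a => XX (h a) (d a) (σ a) :=
  comp_fwp hh (comp_pa hd) hσ

private theorem GCB_tl (hh : Computable h) : Computable fun a => tsk (h a).length :=
  comp_tsk (Computable.list_length.comp hh)

private theorem GCB_f1 (hh : Computable h) (hσ : Computable σ) : Computable fun a => fn (tsk (h a).length).1 (σ a) :=
  comp_fn (Computable.fst.comp (GCB_tl hh)) hσ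

theorem comp_YY (hh : Computable h) (hd : Computable d) (hσ : Computable σ) : Computable fun a => YY (h a) (d a) (σ a) :=
  comp_fwp hh (comp_pb hd) (GCB_f1 hh hσ)

theorem comp_eqs (hh : Computable h) (hσ : Computable σ) : Computable fun a => eqs (h a) (σ a) :=
  comp_fn (Computable.fst.comp (Computable.snd.comp (GCB_tl hh))) (GCB_f1 hh hσ)

theorem comp_stat (hh : Computable h) (hd : Computable d) : Computable fun a => stat (h a) (d a) := by
  have ha : ∀ {p : α → List ℕ}, Computable p → Computable fun a => (p a).all (fun m => decide (m < (h a).length)) := by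
    intro p hp
    refine comp_list_all (g := fun a m => decide (m < (h a).length)) hp ?_
    exact comp_decLt Computable.snd (Computable.list_length.comp (hh.comp Computable.fst))
  refine comp_and (comp_and (comp_isPre (Computable.snd.comp (Computable.snd.comp (GCB_tl hh))) (comp_dtau hd))
    (comp_and (ha (comp_pa hd)) (ha (comp_pb hd)))) ?_
  exact comp_or (comp_not (comp_decEq (comp_kd hd) (Computable.const 2)))
    (comp_not (comp_compat (comp_la hd) (comp_lb hd)))

private theorem GCB_min {f g : α → ℕ} (hf : Computable f) (hg : Computable g) : Computable fun a => min (f a) (g a) :=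
  Primrec.nat_min.to_comp.comp hf hg

theorem comp_prog (hh : Computable h) (hfr : Computable fun x : α × (ℕ × List Bool) => fr x.1 x.2.1 x.2.2)
    (hd : Computable d) (hσ : Computable σ) : Computable fun a => prog (h a) (fr a) (d a) (σ a) := by
  have h1 : Computable fun a => pc (h a) (fr a) (pa (d a)) (σ a) := comp_pc hh hfr (comp_pa hd) hσ
  have h2 : Computable fun a => pc (h a) (fr a) (pb (d a)) (fn (tsk (h a).length).1 (σ a)) :=
    comp_pc hh hfr (comp_pb hd) (GCB_f1 hh hσ)
  have h3 := GCB_min h1 h2
  have h4 : Computable fun a => (fn (fi (d a)) (YY (h a) (d a) (σ a))).length :=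
    Computable.list_length.comp (comp_fn (comp_fi hd) (comp_YY hh hd hσ))
  have h5 : Computable fun a => (fn (gi (d a)) (XX (h a) (d a) (σ a))).length :=
    Computable.list_length.comp (comp_fn (comp_gi hd) (comp_XX hh hd hσ))
  have h6 := comp_ite (comp_decEq (comp_kd hd) (Computable.const 1)) h3
    (comp_ite (comp_decEq (comp_kd hd) (Computable.const 2)) (GCB_min h3 (GCB_min h4 h5)) (Computable.list_length.comp hσ))
  refine h6.of_eq fun a => ?_
  simp only [prog, decide_eq_true_eq]

theorem comp_okd (hh : Computable h) (hfr : Computable fun x : α × (ℕ × List Bool) => fr x.1 x.2.1 x.2.2)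
    (hd : Computable d) (hσ : Computable σ) : Computable fun a => okd (h a) (fr a) (d a) (σ a) := by
  have hX := comp_XX hh hd hσ
  have hY := comp_YY hh hd hσ
  have hl : Computable fun a => (h a).length := Computable.list_length.comp hh
  have hE := comp_eqs hh hσ
  have h1 : Computable fun a => (nofire (fr a) (h a).length (tt (d a)) (XX (h a) (d a) (σ a)) &&
      nofire (fr a) (h a).length (tt (d a)) (YY (h a) (d a) (σ a))) :=
    comp_and (comp_nofire hfr hl (comp_tt hd) hX) (comp_nofire hfr hl (comp_tt hd) hY)
  have h2 := comp_and h1 (comp_compat hX hY)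
  have h3 := comp_and (comp_and h1 (comp_and (comp_isPre (comp_la hd) hX) (comp_isPre (comp_lb hd) hY)))
    (comp_and (comp_compat (comp_fn (comp_fi hd) hY) hX) (comp_compat (comp_fn (comp_gi hd) hX) hY))
  have h4 := comp_not (comp_and (comp_decLt (comp_tt hd) (Computable.list_length.comp hE))
    (comp_decEq (Computable.list_getElem?.comp hE (comp_tt hd)) (Computable.list_getElem?.comp hσ (comp_tt hd))))
  have h6 := comp_ite (comp_decEq (comp_kd hd) (Computable.const 1)) h2
    (comp_ite (comp_decEq (comp_kd hd) (Computable.const 2)) h3 h4)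
  refine h6.of_eq fun a => ?_
  simp only [okd, decide_eq_true_eq]

theorem comp_atest (hh : Computable h) (hfr : Computable fun x : α × (ℕ × List Bool) => fr x.1 x.2.1 x.2.2)
    (hd : Computable d) {s L : α → ℕ} (hs : Computable s) (hL : Computable L) :
    Computable fun a => atest (h a) (fr a) (d a) (s a) (L a) := by
  refine comp_list_all (g := fun a ρ => !(isPre (dtau (d a)) ρ) ||
    (strsLe (s a)).any fun σ => isPre ρ σ && decide (L a ≤ prog (h a) (fr a) (d a) σ)) (comp_strsLe hL) ?_
  refine comp_or (comp_not (comp_isPre (comp_dtau (hd.comp Computable.fst)) Computable.snd)) ?_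
  refine comp_list_any (g := fun (a : α × List Bool) σ => isPre a.2 σ && decide (L a.1 ≤ prog (h a.1) (fr a.1) (d a.1) σ))
    (comp_strsLe (hs.comp Computable.fst)) ?_
  refine comp_and (comp_isPre (Computable.snd.comp Computable.fst) Computable.snd)
    (comp_decLe (hL.comp (Computable.fst.comp Computable.fst)) ?_)
  exact comp_prog (α := (α × List Bool) × List Bool) (h := fun a => h a.1.1) (fr := fun a => fr a.1.1) (d := fun a => d a.1.1)
    (σ := fun a => a.2) (hh.comp (Computable.fst.comp Computable.fst))
    (hfr.comp (Computable.pair (Computable.fst.comp (Computable.fst.comp Computable.fst)) Computable.snd))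
    (hd.comp (Computable.fst.comp Computable.fst)) Computable.snd

end Pool.Agent.CMG
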