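import Pool.Agent.CMG.GCB

/-!
# CMG/GCC: computability of the approximations

PROOF.  As in GCB.  `Nat.findGreatest` is a recursion: `Nat.findGreatest P n = Nat.rec 0 (fun i r => if P (i + 1) then i + 1 else r) n`
(`Nat.findGreatest_succ`), use `Computable.nat_rec` (as in `comp_lastI`, CMG/CA).  `gcnt`: `comp_list_map`, `comp_list_foldl` (`min` of numbers:
`Primrec.nat_min.to_comp`).
-/

set_option autoImplicit false

namespace Pool.Agent.CMG

open Encodable Nat.Partrec Pool.Agent.H19 Pool.Agent.AEI

variable {α : Type*} [Primcodable α] {h : α → Hist} {fr : α → ℕ → List Bool → Bool} {d : α → Dec} {s : α → ℕ}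

private theorem GCC_fr {β : Type*} [Primcodable β]
    (hfr : Computable fun x : α × (ℕ × List Bool) => fr x.1 x.2.1 x.2.2) {π : β → α} (hπ : Computable π) :
    Computable fun x : β × (ℕ × List Bool) => fr (π x.1) x.2.1 x.2.2 :=
  hfr.comp (Computable.pair (hπ.comp Computable.fst) Computable.snd)

theorem comp_acnt (hh : Computable h) (hfr : Computable fun x : α × (ℕ × List Bool) => fr x.1 x.2.1 x.2.2)
    (hd : Computable d) (hs : Computable s) : Computable fun a => acnt (h a) (fr a) (d a) (s a) := by
  have key : ∀ (a : α), acnt (h a) (fr a) (d a) (s a) = Nat.rec (motive := fun _ => ℕ) 0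
      (fun i r => if atest (h a) (fr a) (d a) (s a) (i + 1) then i + 1 else r) (s a) := by
    intro a
    have h : ∀ n, Nat.findGreatest (fun L => atest (h a) (fr a) (d a) (s a) L = true) n =
        Nat.rec (motive := fun _ => ℕ) 0
        (fun i r => if atest (h a) (fr a) (d a) (s a) (i + 1) then i + 1 else r) n := by
      intro n
      induction n with
      | zero => simp
      | succ n ih => rw [Nat.findGreatest_succ, ih]
    exact h _
  have hstep : Computable₂ fun (a : α) (q : ℕ × ℕ) =>
      if atest (h a) (fr a) (d a) (s a) (q.1 + 1) then q.1 + 1 else q.2 := by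
    have h1 : Computable fun (x : α × (ℕ × ℕ)) => x.2.1 + 1 :=
      Computable.succ.comp (Computable.fst.comp Computable.snd)
    refine comp_ite ?_ h1 (Computable.snd.comp Computable.snd)
    exact comp_atest (α := α × (ℕ × ℕ)) (h := fun x => h x.1) (fr := fun x => fr x.1) (d := fun x => d x.1)
      (hh.comp Computable.fst) (GCC_fr hfr Computable.fst) (hd.comp Computable.fst)
      (hs.comp Computable.fst) h1
  exact (Computable.nat_rec hs (Computable.const 0) hstep).of_eq fun a => (key a).symm

theorem comp_aok (hh : Computable h) (hfr : Computable fun x : α × (ℕ × List Bool) => fr x.1 x.2.1 x.2.2)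
    (hd : Computable d) (hs : Computable s) : Computable fun a => aok (h a) (fr a) (d a) (s a) := by
  refine comp_and (comp_stat hh hd) ?_
  refine comp_list_all (g := fun a σ => !(isPre (dtau (d a)) σ) || okd (h a) (fr a) (d a) σ) (comp_strsLe hs) ?_
  refine comp_or (comp_not (comp_isPre (comp_dtau (hd.comp Computable.fst)) Computable.snd)) ?_
  exact comp_okd (α := α × List Bool) (h := fun x => h x.1) (fr := fun x => fr x.1) (d := fun x => d x.1)
    (σ := fun x => x.2) (hh.comp Computable.fst) (GCC_fr hfr Computable.fst) (hd.comp Computable.fst) Computable.snd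

theorem comp_afr (hh : Computable h) (hfr : Computable fun x : α × (ℕ × List Bool) => fr x.1 x.2.1 x.2.2)
    {c : α → ℕ} (hc : Computable c) (hs : Computable s) : Computable fun a => afr (h a) (fr a) (c a) (s a) := by
  have hd : Computable fun a => dec (c a) := comp_dec hc
  refine comp_and (comp_aok hh hfr hd hs) ?_
  exact comp_decLt (comp_acnt hh hfr hd (Primrec.nat_sub.to_comp.comp hs (Computable.const 1)))
    (comp_acnt hh hfr hd hs)

private theorem GCC_take (hh : Computable h) : Computable fun x : α × ℕ => (h x.1).take x.2 :=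
  comp_take Computable.snd (hh.comp Computable.fst)

theorem comp_gok (hh : Computable h) (hfr : Computable fun x : α × (ℕ × List Bool) => fr x.1 x.2.1 x.2.2)
    (hs : Computable s) : Computable fun a => gok (h a) (fr a) (s a) := by
  refine comp_list_all (g := fun a r =>
    (decide (kh (h a) r ≤ s a) && aok ((h a).take r) (fr a) (dh (h a) r) (s a)) &&
    (((List.range (ch (h a) r)).all fun c => (List.range (s a + 1)).all fun t =>
        !(decide (kh (h a) r < t) && afr ((h a).take r) (fr a) c t)) &&
      (decide (kh (h a) r = 0) || (List.range (ch (h a) r)).any fun c => afr ((h a).take r) (fr a) c (kh (h a) r))))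
    (comp_range (Computable.list_length.comp hh)) ?_
  have hT : Computable fun x : α × ℕ => (h x.1).take x.2 := GCC_take hh
  have hF := GCC_fr hfr (π := fun x : α × ℕ => x.1) Computable.fst
  have hK : Computable fun x : α × ℕ => kh (h x.1) x.2 := comp_kh (hh.comp Computable.fst) Computable.snd
  have hC : Computable fun x : α × ℕ => ch (h x.1) x.2 := comp_ch (hh.comp Computable.fst) Computable.snd
  have hS : Computable fun x : α × ℕ => s x.1 := hs.comp Computable.fst
  have h1 : Computable fun x : α × ℕ => (decide (kh (h x.1) x.2 ≤ s x.1) &&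
      aok ((h x.1).take x.2) (fr x.1) (dh (h x.1) x.2) (s x.1)) :=
    comp_and (comp_decLe hK hS)
      (comp_aok (α := α × ℕ) (fr := fun x => fr x.1) hT hF (comp_dh (hh.comp Computable.fst) Computable.snd) hS)
  have h2 : Computable fun x : α × ℕ => (List.range (ch (h x.1) x.2)).all fun c => (List.range (s x.1 + 1)).all fun t =>
        !(decide (kh (h x.1) x.2 < t) && afr ((h x.1).take x.2) (fr x.1) c t) := by
    refine comp_list_all (α := α × ℕ) (g := fun x c => (List.range (s x.1 + 1)).all fun t =>
        !(decide (kh (h x.1) x.2 < t) && afr ((h x.1).take x.2) (fr x.1) c t)) (comp_range hC) ?_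
    refine comp_list_all (α := (α × ℕ) × ℕ) (g := fun y t =>
        !(decide (kh (h y.1.1) y.1.2 < t) && afr ((h y.1.1).take y.1.2) (fr y.1.1) y.2 t))
      (comp_range (Computable.succ.comp (hS.comp Computable.fst))) ?_
    refine comp_not (comp_and (comp_decLt (hK.comp (Computable.fst.comp Computable.fst)) Computable.snd) ?_)
    exact comp_afr (α := ((α × ℕ) × ℕ) × ℕ) (h := fun y => (h y.1.1.1).take y.1.1.2) (fr := fun y => fr y.1.1.1)
      (hT.comp (Computable.fst.comp Computable.fst))
      (GCC_fr hfr (π := fun y : ((α × ℕ) × ℕ) × ℕ => y.1.1.1) (Computable.fst.comp (Computable.fst.comp Computable.fst)))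
      (Computable.snd.comp Computable.fst) Computable.snd
  have h3 : Computable fun x : α × ℕ => (List.range (ch (h x.1) x.2)).any fun c =>
      afr ((h x.1).take x.2) (fr x.1) c (kh (h x.1) x.2) := by
    refine comp_list_any (α := α × ℕ) (g := fun x c => afr ((h x.1).take x.2) (fr x.1) c (kh (h x.1) x.2))
      (comp_range hC) ?_
    exact comp_afr (α := (α × ℕ) × ℕ) (h := fun y => (h y.1.1).take y.1.2) (fr := fun y => fr y.1.1)
      (hT.comp Computable.fst)
      (GCC_fr hfr (π := fun y : (α × ℕ) × ℕ => y.1.1) (Computable.fst.comp Computable.fst))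
      Computable.snd (hK.comp Computable.fst)
  exact comp_and h1 (comp_and h2 (comp_or (comp_decEq hK (Computable.const 0)) h3))

theorem comp_gcnt (hh : Computable h) (hfr : Computable fun x : α × (ℕ × List Bool) => fr x.1 x.2.1 x.2.2)
    (hs : Computable s) : Computable fun a => gcnt (h a) (fr a) (s a) := by
  have hT : Computable fun x : α × ℕ => (h x.1).take x.2 := GCC_take hh
  have hF := GCC_fr hfr (π := fun x : α × ℕ => x.1) Computable.fst
  have h1 : Computable₂ fun (a : α) (r : ℕ) => acnt ((h a).take r) (fr a) (dh (h a) r) (s a) :=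
    comp_acnt (α := α × ℕ) (fr := fun x => fr x.1) hT hF (comp_dh (hh.comp Computable.fst) Computable.snd)
      (hs.comp Computable.fst)
  have h2 := comp_list_map (comp_range (Computable.list_length.comp hh)) h1
  have h3 : Computable₂ fun (_ : α) (x : ℕ × ℕ) => min x.1 x.2 :=
    Primrec.nat_min.to_comp.comp (Computable.fst.comp Computable.snd) (Computable.snd.comp Computable.snd)
  exact comp_list_foldl h2 hs h3

end Pool.Agent.CMG
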