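import Pool.Agent.CMG.GCG

/-!
# CMG/GFE: the recursion equation of the firing functions

PROOF.  `FRn_eq`: induction on `n`: `FRn h (n + 1) m` is `FRn h n m` for `m < n` by definition.
`fire_eq`: by definition `fire h m σ = fireS (h.take (m + 1)) (FRn h m) σ`; use `fireS_congr` with `|h.take (m + 1)| - 1 ≤ m` and `FRn_eq`.
`fire_congr`: strong induction on `m`, `fire_eq` for both sides and `fireS_congr` (for `m' < m` also `h.take (m' + 1) = h'.take (m' + 1)`:
`List.take_take`).  `*_take`: `*_congr` of GCG with `fire_take`; note `|h.take r| ≤ r`.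
-/

set_option autoImplicit false

namespace Pool.Agent.CMG

open Encodable Nat.Partrec Pool.Agent.H19 Pool.Agent.AEI

variable {h h' : Hist}

theorem FRn_eq {n m : ℕ} (hm : m < n) : FRn h n m = fire h m := by
  induction n with
  | zero => exact absurd hm (Nat.not_lt_zero _)
  | succ n ih =>
    funext σ
    rcases Nat.lt_succ_iff_lt_or_eq.1 hm with h1 | rfl
    · show (if m = n then fireS (h.take (n + 1)) (FRn h n) σ else FRn h n m σ) = _
      rw [if_neg h1.ne, ih h1]
    · rfl

theorem fire_eq (m : ℕ) (σ : List Bool) : fire h m σ = fireS (h.take (m + 1)) (fire h) σ := by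
  have h1 : fire h m σ = fireS (h.take (m + 1)) (FRn h m) σ := by
    show (if m = m then fireS (h.take (m + 1)) (FRn h m) σ else FRn h m m σ) = _
    rw [if_pos rfl]
  rw [h1]
  refine fireS_congr fun m' hm' ρ _ => ?_
  have h2 := List.length_take_le (m + 1) h
  rw [FRn_eq (by omega)]

theorem fire_congr {m : ℕ} (hh : h.take (m + 1) = h'.take (m + 1)) : fire h m = fire h' m := by
  induction m using Nat.strong_induction_on with
  | _ m ih =>
    funext σ
    rw [fire_eq, fire_eq, hh]
    refine fireS_congr fun m' hm' ρ _ => ?_
    have h1 := List.length_take_le (m + 1) h'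
    have h2 : m' < m := by omega
    have h3 : h.take (m' + 1) = h'.take (m' + 1) := by
      have h4 := congrArg (List.take (m' + 1)) hh
      rwa [List.take_take, List.take_take, min_eq_left (by omega)] at h4
    rw [ih m' h2 h3]

theorem fire_take {n m : ℕ} (hm : m < n) : fire (h.take n) m = fire h m := by
  exact fire_congr (by rw [List.take_take, min_eq_left (by omega)])

theorem fire_last (hh : 0 < h.length) (σ : List Bool) : fire h (h.length - 1) σ = fireS h (fire h) σ := by
  rw [fire_eq, Nat.sub_add_cancel hh, List.take_length]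

theorem afr_take (r c s : ℕ) : afr (h.take r) (fire h) c s = afr (h.take r) (fire (h.take r)) c s := by
  refine afr_congr (fun m hm ρ _ => by
    have h1 := List.length_take_le r h
    rw [fire_take (by omega)]) _

theorem aok_take (r : ℕ) (d : Dec) (s : ℕ) : aok (h.take r) (fire h) d s = aok (h.take r) (fire (h.take r)) d s := by
  refine aok_congr (fun m hm ρ _ => by
    have h1 := List.length_take_le r h
    rw [fire_take (by omega)]) _

theorem acnt_take (r : ℕ) (d : Dec) (s : ℕ) : acnt (h.take r) (fire h) d s = acnt (h.take r) (fire (h.take r)) d s := by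
  refine acnt_congr (fun m hm ρ _ => by
    have h1 := List.length_take_le r h
    rw [fire_take (by omega)]) _

theorem dh_take {r m : ℕ} (hm : m < r) : dh (h.take r) m = dh h m := by
  rw [dh, dh, ch, ch, List.getD_eq_getElem?_getD, List.getD_eq_getElem?_getD, List.getElem?_take_of_lt hm]

theorem ch_take {r m : ℕ} (hm : m < r) : ch (h.take r) m = ch h m := by
  rw [ch, ch, List.getD_eq_getElem?_getD, List.getD_eq_getElem?_getD, List.getElem?_take_of_lt hm]

theorem kh_take {r m : ℕ} (hm : m < r) : kh (h.take r) m = kh h m := by
  rw [kh, kh, List.getD_eq_getElem?_getD, List.getD_eq_getElem?_getD, List.getElem?_take_of_lt hm]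

theorem dl_take {m : ℕ} (hm : m < h.length) : dl (h.take (m + 1)) = dh h m := by
  rw [dl, List.length_take, min_eq_left (by omega), Nat.add_sub_cancel, dh_take (Nat.lt_succ_self m)]

end Pool.Agent.CMG
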