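import Pool.Agent.CMG.GCC
import Pool.Agent.CMG.GFE
import Pool.Agent.CMG.CC

/-!
# CMG/GCD: the firing functions are computable

PROOF.  `comp_fireS`: compose (`comp_dropLast` of CMG/CC).  For `comp_fire` use tables: `look T m ρ := decide (ρ ∈ T.getD m [])` for
`T : List (List (List Bool))` (write it as `(T.getD m []).any fun x => decide (x = ρ)`), and for a length `S` and a history `h`
`TB 0 = []`, `TB (n + 1) = TB n ++ [(strsLe S).filter (fun σ => fireS (h.take (n + 1)) (look (TB n)) σ)]`; the map `(S, h, n) ↦ TB` is computable by
`Computable.nat_rec` and `comp_fireS` (with `α := ((ℕ × Hist) × (ℕ × Table)) × List Bool`).  By induction on `n`: `|TB n| = n` and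
`look (TB n) m ρ = fire h m ρ` for `m < n`, `|ρ| ≤ S` (`fire_eq`, and `fireS_congr` with the induction hypothesis; `|h.take (n + 1)| - 1 ≤ n`).
So `fire h m σ = look (TB |σ| h (m + 1)) m σ`.
-/

set_option autoImplicit false

namespace Pool.Agent.CMG

open Encodable Nat.Partrec Pool.Agent.H19 Pool.Agent.AEI

theorem comp_fireS {α : Type*} [Primcodable α] {h : α → Hist} {fr : α → ℕ → List Bool → Bool} {σ : α → List Bool}
    (hh : Computable h) (hfr : Computable fun x : α × (ℕ × List Bool) => fr x.1 x.2.1 x.2.2) (hσ : Computable σ) :
    Computable fun a => fireS (h a) (fr a) (σ a) := by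
  have hdl := comp_dl hh
  have hlen : Computable fun a => (h a).length := Computable.list_length.comp hh
  have hlen1 : Computable fun a => (h a).length - 1 := Primrec.nat_sub.to_comp.comp hlen (Computable.const 1)
  have hF : ∀ {ρ : α → List Bool}, Computable ρ → Computable fun a => fn (fi (dl (h a))) (ρ a) :=
    fun hρ => comp_fn (comp_fi hdl) hρ
  have hG : ∀ {ρ : α → List Bool}, Computable ρ → Computable fun a => fn (gi (dl (h a))) (ρ a) :=
    fun hρ => comp_fn (comp_gi hdl) hρ
  have hpc : ∀ {ρ : α → List Bool}, Computable ρ → Computable fun a => pcnt (h a) (fr a) (ρ a) := by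
    intro ρ hρ
    exact Primrec.nat_min.to_comp.comp (comp_gcnt hh hfr (Computable.list_length.comp hρ))
      (Computable.list_length.comp (hG (hF hρ)))
  have hpok : Computable fun a => pok (h a) (fr a) (σ a) := by
    refine comp_and (comp_and (comp_and (comp_gok hh hfr (Computable.list_length.comp hσ))
      (comp_and (comp_compat (comp_lb hdl) hσ) (comp_compat (comp_la hdl) (hF hσ))))
      (comp_isPre (hG (hF hσ)) hσ)) (comp_and ?_ ?_)
    · exact comp_nofire hfr hlen1 (comp_tt hdl) hσ
    · exact comp_nofire hfr hlen1 (comp_tt hdl) (hF hσ)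
  exact comp_and (comp_and (comp_decEq (comp_kd hdl) (Computable.const 2)) hpok)
    (comp_decLt (hpc (comp_dropLast hσ)) (hpc hσ))

private def gcd_look (T : List (List (List Bool))) (m : ℕ) (ρ : List Bool) : Bool :=
  (T.getD m []).any fun x => decide (x = ρ)

private def gcd_TB (S : ℕ) (h : Hist) : ℕ → List (List (List Bool))
  | 0 => []
  | n + 1 => gcd_TB S h n ++
      [(strsLe S).filter fun σ => fireS (h.take (n + 1)) (gcd_look (gcd_TB S h n)) σ]

private theorem gcd_length (S : ℕ) (h : Hist) (n : ℕ) : (gcd_TB S h n).length = n := by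
  induction n with
  | zero => rfl
  | succ n ih => rw [gcd_TB, List.length_append, ih]; rfl

private theorem gcd_look_eq (S : ℕ) (h : Hist) (n : ℕ) :
    ∀ m < n, ∀ ρ : List Bool, ρ.length ≤ S → gcd_look (gcd_TB S h n) m ρ = fire h m ρ := by
  induction n with
  | zero => intro m hm; omega
  | succ n ih =>
    intro m hm ρ hρ
    rcases Nat.lt_succ_iff_lt_or_eq.1 hm with hm' | rfl
    · rw [← ih m hm' ρ hρ]
      unfold gcd_look
      rw [gcd_TB, List.getD_append _ _ _ _ (by rw [gcd_length]; exact hm')]
    · have e : (gcd_TB S h (m + 1)).getD m [] =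
          (strsLe S).filter fun σ => fireS (h.take (m + 1)) (gcd_look (gcd_TB S h m)) σ := by
        rw [gcd_TB, List.getD_append_right _ _ _ _ (by rw [gcd_length]), gcd_length, Nat.sub_self]
        rfl
      have e2 : fireS (h.take (m + 1)) (gcd_look (gcd_TB S h m)) ρ = fire h m ρ := by
        rw [fire_eq]
        apply fireS_congr
        intro k hk x hx
        refine ih k ?_ x (le_trans hx hρ)
        rw [List.length_take] at hk
        omega
      unfold gcd_look
      rw [e, ← e2, Bool.eq_iff_iff, List.any_eq_true]
      constructor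
      · rintro ⟨x, hx, hxe⟩
        have hxe' : x = ρ := of_decide_eq_true hxe
        rw [hxe'] at hx
        exact (List.mem_filter.1 hx).2
      · intro hf
        exact ⟨ρ, List.mem_filter.2 ⟨mem_strsLe.2 hρ, hf⟩, decide_eq_true rfl⟩

private theorem gcd_comp_look {α : Type*} [Primcodable α] {T : α → List (List (List Bool))} {m : α → ℕ}
    {ρ : α → List Bool} (hT : Computable T) (hm : Computable m) (hρ : Computable ρ) :
    Computable fun a => gcd_look (T a) (m a) (ρ a) := by
  refine comp_list_any (g := fun a x => decide (x = ρ a)) ((Primrec.list_getD []).to_comp.comp hT hm) ?_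
  exact comp_decEq Computable.snd (hρ.comp Computable.fst)

private theorem gcd_comp_TB {α : Type*} [Primcodable α] {S : α → ℕ} {h : α → Hist} {n : α → ℕ}
    (hS : Computable S) (hh : Computable h) (hn : Computable n) :
    Computable fun a => gcd_TB (S a) (h a) (n a) := by
  have hstep : Computable₂ fun (a : α) (q : ℕ × List (List (List Bool))) =>
      q.2 ++ [(strsLe (S a)).filter fun σ => fireS ((h a).take (q.1 + 1)) (gcd_look q.2) σ] := by
    have h1 : Computable fun x : α × (ℕ × List (List (List Bool))) =>
        (strsLe (S x.1)).filter fun σ => fireS ((h x.1).take (x.2.1 + 1)) (gcd_look x.2.2) σ := by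
      refine comp_list_filter
        (g := fun (x : α × (ℕ × List (List (List Bool)))) (σ : List Bool) =>
          fireS ((h x.1).take (x.2.1 + 1)) (gcd_look x.2.2) σ)
        (comp_strsLe (hS.comp Computable.fst)) ?_
      refine comp_fireS
        (h := fun y : (α × (ℕ × List (List (List Bool)))) × List Bool => (h y.1.1).take (y.1.2.1 + 1))
        (fr := fun y => gcd_look y.1.2.2) (σ := fun y => y.2) ?_ ?_ Computable.snd
      · exact comp_take (Computable.succ.comp (Computable.fst.comp (Computable.snd.comp Computable.fst)))
          (hh.comp (Computable.fst.comp Computable.fst))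
      · exact gcd_comp_look
          (Computable.snd.comp (Computable.snd.comp (Computable.fst.comp Computable.fst)))
          (Computable.fst.comp Computable.snd) (Computable.snd.comp Computable.snd)
    exact Computable.list_append.comp (Computable.snd.comp Computable.snd)
      (Computable.list_cons.comp h1 (Computable.const []))
  refine (Computable.nat_rec hn (Computable.const []) hstep).of_eq fun a => ?_
  generalize n a = k
  induction k with
  | zero => rfl
  | succ k ih =>
    rw [gcd_TB, ← ih]

theorem comp_fire {α : Type*} [Primcodable α] {h : α → Hist} {m : α → ℕ} {σ : α → List Bool}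
    (hh : Computable h) (hm : Computable m) (hσ : Computable σ) : Computable fun a => fire (h a) (m a) (σ a) := by
  have h1 : Computable fun a => gcd_TB (σ a).length (h a) (m a + 1) :=
    gcd_comp_TB (Computable.list_length.comp hσ) hh (Computable.succ.comp hm)
  refine (gcd_comp_look h1 hm hσ).of_eq fun a => ?_
  exact gcd_look_eq _ _ _ _ (Nat.lt_succ_self _) _ le_rfl

end Pool.Agent.CMG
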