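import Pool.Agent.CMG.GCA

/-!
# CMG/GCE: computability of the functions of a path and of the firing counts

PROOFS (see GCA for the combinators).
`fwp`: fold over the list: `fwp h a σ = a.foldl (fun τ m => fn (fi (dh h m)) τ) σ` (`comp_list_foldl`).  `nf`: `comp_list_filter`, `Computable.list_length`.
`nofire`: `comp_list_all` twice.  `pc`: `pc h fr a σ = ((List.range |a|).map (fun k => nf h fr (a.getD k 0) (fwp h (a.take k) σ))).foldl min |fwp h a σ|` (induction on `a`; `foldl min`
of a list is `≥ L` iff the start value and all elements are), or fold over `a.reverse`... or fold the pair (current string, list of the values `nf`) over `a` and take the minimum at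
the end; `Primrec.nat_min.to_comp`.
For `fr` with `α × β` in place of `α`: `hfr.comp (Computable.pair (Computable.fst.comp Computable.fst) Computable.snd)`.
-/

set_option autoImplicit false

namespace Pool.Agent.CMG

open Encodable Nat.Partrec Pool.Agent.H19 Pool.Agent.AEI

variable {α : Type*} [Primcodable α] {h : α → Hist} {fr : α → ℕ → List Bool → Bool} {σ : α → List Bool}

theorem comp_fwp {p : α → List ℕ} (hh : Computable h) (hp : Computable p) (hσ : Computable σ) :
    Computable fun a => fwp (h a) (p a) (σ a) := by
  have key : ∀ (g : Hist) (l : List ℕ) (τ : List Bool),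
      l.foldl (fun τ m => fn (fi (dh g m)) τ) τ = fwp g l τ := by
    intro g l
    induction l with
    | nil => intro τ; rfl
    | cons m l ih => intro τ; rw [fwp, List.foldl_cons, ih]
  have h1 : Computable₂ fun (a : α) (x : List Bool × ℕ) => fn (fi (dh (h a) x.2)) x.1 :=
    comp_fn (comp_fi (comp_dh (hh.comp Computable.fst) (Computable.snd.comp Computable.snd)))
      (Computable.fst.comp Computable.snd)
  exact (comp_list_foldl hp hσ h1).of_eq fun a => key _ _ _

theorem comp_nf (hh : Computable h) (hfr : Computable fun x : α × (ℕ × List Bool) => fr x.1 x.2.1 x.2.2)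
    {m : α → ℕ} (hm : Computable m) (hσ : Computable σ) : Computable fun a => nf (h a) (fr a) (m a) (σ a) := by
  have h1 : Computable₂ fun (a : α) (i : ℕ) => decide (m a < (h a).length) && fr a (m a) ((σ a).take i) :=
    comp_and (comp_decLt (hm.comp Computable.fst) (Computable.list_length.comp (hh.comp Computable.fst)))
      (hfr.comp (Computable.pair Computable.fst (Computable.pair (hm.comp Computable.fst)
        (comp_take Computable.snd (hσ.comp Computable.fst)))))
  exact Computable.list_length.comp
    (comp_list_filter (comp_range (Computable.succ.comp (Computable.list_length.comp hσ))) h1)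

theorem comp_nofire (hfr : Computable fun x : α × (ℕ × List Bool) => fr x.1 x.2.1 x.2.2)
    {n T : α → ℕ} (hn : Computable n) (hT : Computable T) (hσ : Computable σ) :
    Computable fun a => nofire (fr a) (n a) (T a) (σ a) := by
  have h1 : Computable₂ fun (a : α) (m : ℕ) => (List.range ((σ a).length + 1)).all fun i =>
      !(decide (T a < i) && fr a m ((σ a).take i)) := by
    have h2 : Computable₂ fun (x : α × ℕ) (i : ℕ) => !(decide (T x.1 < i) && fr x.1 x.2 ((σ x.1).take i)) :=
      comp_not (comp_and (comp_decLt (hT.comp (Computable.fst.comp Computable.fst)) Computable.snd)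
        (hfr.comp (Computable.pair (Computable.fst.comp Computable.fst)
          (Computable.pair (Computable.snd.comp Computable.fst)
            (comp_take Computable.snd (hσ.comp (Computable.fst.comp Computable.fst)))))))
    exact comp_list_all
      (comp_range (Computable.succ.comp (Computable.list_length.comp (hσ.comp Computable.fst)))) h2
  exact comp_list_all (comp_range hn) h1

theorem comp_pc (hh : Computable h) (hfr : Computable fun x : α × (ℕ × List Bool) => fr x.1 x.2.1 x.2.2)
    {p : α → List ℕ} (hp : Computable p) (hσ : Computable σ) : Computable fun a => pc (h a) (fr a) (p a) (σ a) := by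
  have le : ∀ (g : Hist) (f : ℕ → List Bool → Bool) (l : List ℕ) (τ : List Bool),
      pc g f l τ ≤ τ.length := by
    intro g f l
    induction l with
    | nil => intro τ; exact le_rfl
    | cons m l ih =>
      intro τ
      rw [pc]
      exact (min_le_right _ _).trans ((ih _).trans (zf_length_le _ _))
  have key : ∀ (g : Hist) (f : ℕ → List Bool → Bool) (l : List ℕ) (x : List Bool × ℕ),
      min (l.foldl (fun x m => (fn (fi (dh g m)) x.1, min x.2 (nf g f m x.1))) x).2
        (l.foldl (fun x m => (fn (fi (dh g m)) x.1, min x.2 (nf g f m x.1))) x).1.length =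
        min x.2 (pc g f l x.1) := by
    intro g f l
    induction l with
    | nil => intro x; rfl
    | cons m l ih => intro x; rw [pc, List.foldl_cons, ih, min_assoc]
  have h1 : Computable₂ fun (a : α) (y : (List Bool × ℕ) × ℕ) =>
      (fn (fi (dh (h a) y.2)) y.1.1, min y.1.2 (nf (h a) (fr a) y.2 y.1.1)) := by
    refine Computable.pair (comp_fn (comp_fi (comp_dh (hh.comp Computable.fst)
      (Computable.snd.comp Computable.snd))) (Computable.fst.comp (Computable.fst.comp Computable.snd)))
      (Primrec.nat_min.to_comp.comp (Computable.snd.comp (Computable.fst.comp Computable.snd)) ?_)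
    exact comp_nf (h := fun x : α × ((List Bool × ℕ) × ℕ) => h x.1) (fr := fun x => fr x.1)
      (hh.comp Computable.fst)
      (hfr.comp (Computable.pair (Computable.fst.comp Computable.fst) Computable.snd))
      (Computable.snd.comp Computable.snd) (Computable.fst.comp (Computable.fst.comp Computable.snd))
  have h2 : Computable fun a => (p a).foldl (fun x m => (fn (fi (dh (h a) m)) x.1,
      min x.2 (nf (h a) (fr a) m x.1))) (σ a, (σ a).length) :=
    comp_list_foldl hp (Computable.pair hσ (Computable.list_length.comp hσ)) h1
  have h3 := Primrec.nat_min.to_comp.comp (Computable.snd.comp h2)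
    (Computable.list_length.comp (Computable.fst.comp h2))
  exact h3.of_eq fun a => (key _ _ _ _).trans (min_eq_right (le _ _ _ _))

end Pool.Agent.CMG
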