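import Pool.Agent.CMG.GLC

/-!
# CMG/GCG: locality: everything at a stage depends only on the firing at short strings
-/

set_option autoImplicit false

namespace Pool.Agent.CMG

open Encodable Nat.Partrec Pool.Agent.H19 Pool.Agent.AEI

variable {h : Hist} {fr fr' : ℕ → List Bool → Bool}

private theorem any_congr' {α : Type} {l : List α} {p q : α → Bool} (H : ∀ a ∈ l, p a = q a) :
    l.any p = l.any q := by
  rw [Bool.eq_iff_iff, List.any_eq_true, List.any_eq_true]
  constructor
  · rintro ⟨a, ha, hp⟩
    exact ⟨a, ha, by rw [← H a ha]; exact hp⟩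
  · rintro ⟨a, ha, hp⟩
    exact ⟨a, ha, by rw [H a ha]; exact hp⟩

private theorem all_congr' {α : Type} {l : List α} {p q : α → Bool} (H : ∀ a ∈ l, p a = q a) :
    l.all p = l.all q := by
  rw [Bool.eq_iff_iff, List.all_eq_true, List.all_eq_true]
  constructor
  · intro hp a ha
    rw [← H a ha]; exact hp a ha
  · intro hp a ha
    rw [H a ha]; exact hp a ha

theorem Agr.mono {n s n' s' : ℕ} (ha : Agr n s fr fr') (hn : n' ≤ n) (hs : s' ≤ s) : Agr n' s' fr fr' :=
  fun m hm ρ hρ => ha m (lt_of_lt_of_le hm hn) ρ (hρ.trans hs)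

private theorem len_take_le (i : ℕ) (σ : List Bool) : (σ.take i).length ≤ σ.length := by
  rw [List.length_take]; exact min_le_right _ _

theorem nf_congr {s : ℕ} (ha : Agr h.length s fr fr') (m : ℕ) {σ : List Bool} (hσ : σ.length ≤ s) :
    nf h fr m σ = nf h fr' m σ := by
  unfold nf
  congr 1
  apply List.filter_congr
  intro i _
  by_cases hm : m < h.length
  · simp only [hm, decide_true, Bool.true_and]
    exact ha m hm _ ((len_take_le i σ).trans hσ)
  · simp only [hm, decide_false, Bool.false_and]

theorem nofire_congr {n s : ℕ} (ha : Agr n s fr fr') (T : ℕ) {σ : List Bool} (hσ : σ.length ≤ s) :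
    nofire fr n T σ = nofire fr' n T σ := by
  unfold nofire
  apply all_congr'
  intro m hm
  apply all_congr'
  intro i _
  rw [ha m (List.mem_range.1 hm) _ ((len_take_le i σ).trans hσ)]

theorem pc_congr {s : ℕ} (ha : Agr h.length s fr fr') (a : List ℕ) {σ : List Bool} (hσ : σ.length ≤ s) :
    pc h fr a σ = pc h fr' a σ := by
  induction a generalizing σ with
  | nil => rfl
  | cons m a ih =>
    show min (nf h fr m σ) (pc h fr a (fn (fi (dh h m)) σ)) = min (nf h fr' m σ) (pc h fr' a (fn (fi (dh h m)) σ))
    rw [nf_congr ha m hσ, ih ((fn_len _ _).trans hσ)]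

theorem prog_congr {s : ℕ} (ha : Agr h.length s fr fr') (d : Dec) {σ : List Bool} (hσ : σ.length ≤ s) :
    prog h fr d σ = prog h fr' d σ := by
  unfold prog
  rw [pc_congr ha (pa d) hσ, pc_congr ha (pb d) ((fn_len _ _).trans hσ)]

theorem okd_congr {s : ℕ} (ha : Agr h.length s fr fr') (d : Dec) {σ : List Bool} (hσ : σ.length ≤ s) :
    okd h fr d σ = okd h fr' d σ := by
  unfold okd
  rw [nofire_congr ha (tt d) ((XX_len h d σ).trans hσ), nofire_congr ha (tt d) ((YY_len h d σ).trans hσ)]

private theorem atest_congr {s : ℕ} (ha : Agr h.length s fr fr') (d : Dec) : atest h fr d s = atest h fr' d s := by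
  funext L
  unfold atest
  apply all_congr'
  intro ρ _
  congr 1
  apply any_congr'
  intro σ hσ
  rw [prog_congr ha d (mem_strsLe.1 hσ)]

theorem acnt_congr {s : ℕ} (ha : Agr h.length s fr fr') (d : Dec) : acnt h fr d s = acnt h fr' d s := by
  unfold acnt
  rw [atest_congr ha d]

theorem aok_congr {s : ℕ} (ha : Agr h.length s fr fr') (d : Dec) : aok h fr d s = aok h fr' d s := by
  unfold aok
  congr 1
  apply all_congr'
  intro σ hσ
  rw [okd_congr ha d (mem_strsLe.1 hσ)]

theorem afr_congr {s : ℕ} (ha : Agr h.length s fr fr') (c : ℕ) : afr h fr c s = afr h fr' c s := by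
  unfold afr
  rw [aok_congr ha, acnt_congr ha, acnt_congr (ha.mono le_rfl (Nat.sub_le s 1))]

theorem gok_congr {s : ℕ} (ha : Agr (h.length - 1) s fr fr') : gok h fr s = gok h fr' s := by
  unfold gok
  apply all_congr'
  intro r hr
  have hr' : r < h.length := List.mem_range.1 hr
  have hlen : (h.take r).length ≤ h.length - 1 := by
    rw [List.length_take]; omega
  by_cases hk : kh h r ≤ s
  · have e1 : aok (h.take r) fr (dh h r) s = aok (h.take r) fr' (dh h r) s := aok_congr (ha.mono hlen le_rfl) _
    have e2 : ∀ c t, t ≤ s → afr (h.take r) fr c t = afr (h.take r) fr' c t := fun c t ht =>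
      afr_congr (ha.mono hlen ht) c
    rw [e1]
    congr 2
    · apply all_congr'
      intro c _
      apply all_congr'
      intro t ht
      rw [e2 c t (Nat.lt_succ_iff.1 (List.mem_range.1 ht))]
    · congr 1
      apply any_congr'
      intro c _
      exact e2 c _ hk
  · simp only [hk, decide_false, Bool.false_and]

theorem gcnt_congr {s : ℕ} (ha : Agr (h.length - 1) s fr fr') : gcnt h fr s = gcnt h fr' s := by
  unfold gcnt
  congr 1
  apply List.map_congr_left
  intro r hr
  have hr' : r < h.length := List.mem_range.1 hr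
  have hlen : (h.take r).length ≤ h.length - 1 := by
    rw [List.length_take]; omega
  exact acnt_congr (ha.mono hlen le_rfl) _

theorem fireS_congr {σ : List Bool} (ha : Agr (h.length - 1) σ.length fr fr') : fireS h fr σ = fireS h fr' σ := by
  have e1 : pok h fr σ = pok h fr' σ := by
    unfold pok
    rw [gok_congr ha, nofire_congr ha (tt (dl h)) (le_refl σ.length),
      nofire_congr ha (tt (dl h)) (fn_len (fi (dl h)) σ)]
  have e2 : pcnt h fr σ = pcnt h fr' σ := by
    unfold pcnt
    rw [gcnt_congr ha]
  have e3 : pcnt h fr σ.dropLast = pcnt h fr' σ.dropLast := by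
    unfold pcnt
    rw [gcnt_congr (ha.mono le_rfl (by rw [List.length_dropLast]; exact Nat.sub_le _ _))]
  unfold fireS
  rw [e1, e2, e3]

end Pool.Agent.CMG
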