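import Pool.Agent.CMG.GDefs
import Pool.Agent.CMG.LIB

/-!
# CMG/GRS: dense conditions on strings hold at comeager many sequences

PROOF.  The set is open: it is the union over `s` of the sets `{X | p (pre X s)}`, and `X ↦ pre X s` is continuous into a discrete space (or: it depends on finitely many
coordinates; `isOpen_pi_iff`, or `continuous_pi_iff`, `PiNat.cylinder`, `PiNat.isOpen_cylinder`).  It is dense: every nonempty open set contains a cylinder
`{X | pre X s = ρ}` (`PiNat.isTopologicalBasis_cylinders`, or `isOpen_pi_iff`), take `σ` extending `ρ` with `p σ` and a sequence extending `σ` (`exists_pre` of AEI/SF).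
`residual_of_dense_open`.
-/

set_option autoImplicit false

namespace Pool.Agent.CMG

open Encodable Nat.Partrec Pool.Agent.H19 Pool.Agent.AEI

theorem residual_of_dns {p : List Bool → Prop} (hd : ∀ ρ, ∃ σ, ρ <+: σ ∧ p σ) :
    ∀ᶠ X in residual (ℕ → Bool), ∃ s, p (pre X s) := by
  have hopen : IsOpen {X : ℕ → Bool | ∃ s, p (pre X s)} := by
    have h1 : {X : ℕ → Bool | ∃ s, p (pre X s)} = ⋃ s, {X : ℕ → Bool | p (pre X s)} := by
      ext X; simp
    rw [h1]
    refine isOpen_iUnion fun s => ?_
    rw [isOpen_pi_iff]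
    intro X hX
    refine ⟨Finset.range s, fun i => {X i}, fun i _ => ⟨isOpen_discrete _, rfl⟩, ?_⟩
    intro Y hY
    have h2 : pre Y s = pre X s := by
      rw [pre, pre]
      refine List.map_congr_left fun i hi => ?_
      exact hY i (by simpa using hi)
    change p (pre Y s)
    rw [h2]
    exact hX
  refine residual_of_dense_open hopen ?_
  rw [dense_iff_inter_open]
  intro U hU hne
  obtain ⟨X, hX⟩ := hne
  obtain ⟨I, u, h1, h2⟩ := (isOpen_pi_iff.1 hU) X hX
  obtain ⟨σ, h3, h4⟩ := hd (pre X (I.sup id + 1))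
  obtain ⟨Y, hY⟩ := exists_pre σ
  refine ⟨Y, h2 ?_, σ.length, ?_⟩
  · intro i hi
    have h5 : i < I.sup id + 1 := Nat.lt_succ_of_le (Finset.le_sup (f := id) hi)
    have h6 : pre X (I.sup id + 1) <+: pre Y σ.length := by rw [hY]; exact h3
    have h7 := eq_pre_of_prefix h6
    rw [pre_length] at h7
    have h8 := pre_getElem? X h5
    rw [h7, pre_getElem? Y h5] at h8
    have h9 : Y i = X i := Option.some.inj h8
    rw [h9]
    exact (h1 i hi).2
  · rw [hY]; exact h4

end Pool.Agent.CMG
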