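import Pool.Agent.CMG.GTS
import Pool.Agent.CMG.GRS

/-!
# CMG/GCM: comeager many sequences are generic

PROOF.  `eventually_countable_forall` for the filter `residual` (countable intersections) twice.
(1) For `n`, `L` use `residual_of_dns` with `p σ := compat (dtau d) σ = false ∨ L ≤ prog .. σ`, `d = dec (u n).1`: given `ρ`; if `ρ` and `dtau d` are not comparable take `σ = ρ`;
otherwise the longer of the two extends `dtau d` and `ρ`, and `Dns` (`acc_u`, `acc_iff_dns`) gives `σ`.  If `p (pre X s)` and `dtau d <+: pre X s'` then `compat`, so `L ≤ prog`.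
(2) For `i`, `j` use `p σ := ∃ n, (tsk n).1 = i ∧ (tsk n).2.1 = j ∧ dtau (dec (u n).1) <+: σ`: given `ρ` take `n = encode (i, (j, ρ))` (`tsk_encode`); by `stat` (`acc_u`,
`acc_iff_dns`, `Hn_len`) `ρ <+: dtau (dec (u n).1) =: σ`.
-/

set_option autoImplicit false

namespace Pool.Agent.CMG

open Encodable Nat.Partrec Pool.Agent.H19 Pool.Agent.AEI

private theorem gcm_one {u : ℕ → ℕ × ℕ} (hu : ∀ n, GoodH (Hn u n)) (n L : ℕ) (ρ : List Bool) :
    ∃ σ, ρ <+: σ ∧ (compat (dtau (dec (u n).1)) σ = false ∨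
      L ≤ prog (Hn u n) (fire (Hn u n)) (dec (u n).1) σ) := by
  obtain ⟨-, -, hd⟩ := acc_iff_dns.1 (acc_u hu n)
  by_cases hc : compat (dtau (dec (u n).1)) ρ = true
  · rcases compat_iff.1 hc with h | h
    · obtain ⟨σ, h1, h2⟩ := hd ρ h L
      exact ⟨σ, h1, Or.inr h2⟩
    · obtain ⟨σ, h1, h2⟩ := hd _ (List.prefix_refl _) L
      exact ⟨σ, h.trans h1, Or.inr h2⟩
  · exact ⟨ρ, List.prefix_refl _, Or.inl (Bool.eq_false_iff.2 hc)⟩

private theorem gcm_two {u : ℕ → ℕ × ℕ} (hu : ∀ n, GoodH (Hn u n)) (i j : ℕ) (ρ : List Bool) :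
    ∃ σ, ρ <+: σ ∧ ∃ n, (tsk n).1 = i ∧ (tsk n).2.1 = j ∧ dtau (dec (u n).1) <+: σ := by
  have ht := tsk_encode i j ρ
  set n := encode ((i, (j, ρ)) : ℕ × (ℕ × List Bool)) with hn
  obtain ⟨hs, -, -⟩ := acc_iff_dns.1 (acc_u hu n)
  rw [stat, Bool.and_eq_true, Bool.and_eq_true, Hn_len] at hs
  have h1 := isPre_iff.1 hs.1.1
  rw [ht] at h1
  exact ⟨_, h1, n, by rw [ht], by rw [ht], List.prefix_refl _⟩

theorem gen_residual {u : ℕ → ℕ × ℕ} (hu : ∀ n, GoodH (Hn u n)) : ∀ᶠ X in residual (ℕ → Bool), Gen u X := by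
  have h1 : ∀ᶠ X in residual (ℕ → Bool), ∀ n L, ∃ s,
      (compat (dtau (dec (u n).1)) (pre X s) = false ∨
        L ≤ prog (Hn u n) (fire (Hn u n)) (dec (u n).1) (pre X s)) := by
    rw [eventually_countable_forall]
    intro n
    rw [eventually_countable_forall]
    intro L
    exact residual_of_dns (p := fun σ => compat (dtau (dec (u n).1)) σ = false ∨
      L ≤ prog (Hn u n) (fire (Hn u n)) (dec (u n).1) σ) (gcm_one hu n L)
  have h2 : ∀ᶠ X in residual (ℕ → Bool), ∀ i j, ∃ s, ∃ n, (tsk n).1 = i ∧ (tsk n).2.1 = j ∧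
      dtau (dec (u n).1) <+: pre X s := by
    rw [eventually_countable_forall]
    intro i
    rw [eventually_countable_forall]
    intro j
    exact residual_of_dns (p := fun σ => ∃ n, (tsk n).1 = i ∧ (tsk n).2.1 = j ∧
      dtau (dec (u n).1) <+: σ) (gcm_two hu i j)
  filter_upwards [h1, h2] with X hX1 hX2
  refine ⟨?_, ?_⟩
  · rintro n L ⟨s', hs'⟩
    obtain ⟨s, hs⟩ := hX1 n L
    rcases hs with hs | hs
    · exfalso
      have hc : compat (dtau (dec (u n).1)) (pre X s) = true :=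
        compat_of_prefix (hs'.trans (pre_mono X (le_max_right s s'))) (pre_mono X (le_max_left s s'))
      rw [hs] at hc
      exact Bool.false_ne_true hc
    · exact ⟨s, hs⟩
  · intro i j
    obtain ⟨s, n, h3, h4, h5⟩ := hX2 i j
    exact ⟨n, h3, h4, s, h5⟩

end Pool.Agent.CMG
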