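import Pool.Agent.CMG.Defs

/-!
# CMG, part B: the pointer system of the generic sequences (definitions)

A decision is a tuple `((τ, (kd, tt)), ((pa, pb), ((la, lb), (fi, gi))))`.  A history is a list of pairs
`(c, k)`, oldest first; `c` is the code of a decision, `k` a stage.  The `n`-th decision is a decision
on the task `tsk n = (i, (j, τ0))`: what happens below `τ ⊇ τ0` with the sequences `X` and
`Y = fn i X` for which `X = fn j Y`.  Kind `0`: this does not occur.  Kind `1`: the paths `pa` from `X`
and `pb` from `Y` end in the same sequence.  Kind `2`: they end in different sequences `X'` (extending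
`la`) and `Y'` (extending `lb`) with `X' = fn fi Y'` and `Y' = fn gi X'`; then the decision is a new
pointer from `Y'` to `X'`.
`fr m σ = true` means that the pointer `m` fires at `σ`.
-/

set_option autoImplicit false

namespace Pool.Agent.CMG

open Encodable Nat.Partrec Pool.Agent.H19 Pool.Agent.AEI

/-- Decisions. -/
abbrev Dec : Type :=
  (List Bool × (ℕ × ℕ)) × ((List ℕ × List ℕ) × ((List Bool × List Bool) × (ℕ × ℕ)))

/-- Histories. -/
abbrev Hist : Type := List (ℕ × ℕ)

def dtau (d : Dec) : List Bool := d.1.1
def kd (d : Dec) : ℕ := d.1.2.1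
def tt (d : Dec) : ℕ := d.1.2.2
def pa (d : Dec) : List ℕ := d.2.1.1
def pb (d : Dec) : List ℕ := d.2.1.2
def la (d : Dec) : List Bool := d.2.2.1.1
def lb (d : Dec) : List Bool := d.2.2.1.2
def fi (d : Dec) : ℕ := d.2.2.2.1
def gi (d : Dec) : ℕ := d.2.2.2.2

/-- The decision with code `c`. -/
def dec (c : ℕ) : Dec := (decode (α := Dec) c).getD (([], (0, 0)), (([], []), (([], []), (0, 0))))

/-- The string functional with index `e`. -/
def fn (e : ℕ) (σ : List Bool) : List Bool := zf (Denumerable.ofNat Code e) σ

/-- The code of the decision number `m`. -/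
def ch (h : Hist) (m : ℕ) : ℕ := (h.getD m (0, 0)).1
/-- The stage of the decision number `m`. -/
def kh (h : Hist) (m : ℕ) : ℕ := (h.getD m (0, 0)).2
/-- The decision number `m`. -/
def dh (h : Hist) (m : ℕ) : Dec := dec (ch h m)

/-- The task number `n`. -/
def tsk (n : ℕ) : ℕ × (ℕ × List Bool) := (decode (α := ℕ × (ℕ × List Bool)) n).getD (0, (0, []))

/-- Following the pointers with numbers `a`. -/
def fwp (h : Hist) : List ℕ → List Bool → List Bool
  | [], σ => σ
  | m :: a, σ => fwp h a (fn (fi (dh h m)) σ)

/-- Going back. -/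
def bkp (h : Hist) : List ℕ → List Bool → List Bool
  | [], σ => σ
  | m :: a, σ => fn (gi (dh h m)) (bkp h a σ)

/-- One of the strings is an initial segment of the other. -/
def compat (σ τ : List Bool) : Bool := isPre σ τ || isPre τ σ

/-- The first end string. -/
def XX (h : Hist) (d : Dec) (σ : List Bool) : List Bool := fwp h (pa d) σ
/-- The second end string. -/
def YY (h : Hist) (d : Dec) (σ : List Bool) : List Bool := fwp h (pb d) (fn (tsk h.length).1 σ)
/-- The result of the two reductions. -/
def eqs (h : Hist) (σ : List Bool) : List Bool := fn (tsk h.length).2.1 (fn (tsk h.length).1 σ)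

section

variable (h : Hist) (fr : ℕ → List Bool → Bool)

/-- The number of initial segments of `σ` at which the pointer `m < |h|` fires. -/
def nf (m : ℕ) (σ : List Bool) : ℕ :=
  ((List.range (σ.length + 1)).filter fun i => decide (m < h.length) && fr m (σ.take i)).length

/-- No pointer `< n` fires at an initial segment of `σ` of length `> T`. -/
def nofire (n T : ℕ) (σ : List Bool) : Bool :=
  (List.range n).all fun m => (List.range (σ.length + 1)).all fun i =>
    !(decide (T < i) && fr m (σ.take i))

/-- The least of the numbers of firings along a path, and of the length of the end string. -/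
def pc : List ℕ → List Bool → ℕ
  | [], σ => σ.length
  | m :: a, σ => min (nf h fr m σ) (pc a (fn (fi (dh h m)) σ))

/-- The progress of a decision. -/
def prog (d : Dec) (σ : List Bool) : ℕ :=
  if kd d = 1 then min (pc h fr (pa d) σ) (pc h fr (pb d) (fn (tsk h.length).1 σ))
  else if kd d = 2 then
    min (min (pc h fr (pa d) σ) (pc h fr (pb d) (fn (tsk h.length).1 σ)))
      (min (fn (fi d) (YY h d σ)).length (fn (gi d) (XX h d σ)).length)
  else σ.length

/-- The static conditions. -/
def stat (d : Dec) : Bool :=
  (isPre (tsk h.length).2.2 (dtau d) && ((pa d).all (fun m => decide (m < h.length)) &&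
    (pb d).all (fun m => decide (m < h.length)))) &&
  (!(decide (kd d = 2)) || !(compat (la d) (lb d)))

/-- The condition on all extensions of `dtau d`. -/
def okd (d : Dec) (σ : List Bool) : Bool :=
  if kd d = 1 then
    (nofire fr h.length (tt d) (XX h d σ) && nofire fr h.length (tt d) (YY h d σ)) &&
      compat (XX h d σ) (YY h d σ)
  else if kd d = 2 then
    ((nofire fr h.length (tt d) (XX h d σ) && nofire fr h.length (tt d) (YY h d σ)) &&
      (isPre (la d) (XX h d σ) && isPre (lb d) (YY h d σ))) &&
    (compat (fn (fi d) (YY h d σ)) (XX h d σ) && compat (fn (gi d) (XX h d σ)) (YY h d σ))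
  else !(decide (tt d < (eqs h σ).length) && decide ((eqs h σ)[tt d]? = σ[tt d]?))

/-- Every extension of `dtau d` of length `≤ L` has an extension of length `≤ s` with
progress `≥ L`. -/
def atest (d : Dec) (s L : ℕ) : Bool :=
  (strsLe L).all fun ρ => !(isPre (dtau d) ρ) ||
    (strsLe s).any fun σ => isPre ρ σ && decide (L ≤ prog h fr d σ)

def acnt (d : Dec) (s : ℕ) : ℕ := Nat.findGreatest (fun L => atest h fr d s L = true) s

def aok (d : Dec) (s : ℕ) : Bool :=
  stat h d && (strsLe s).all fun σ => !(isPre (dtau d) σ) || okd h fr d σ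

/-- At the stage `s` the code `c` looks better than before. -/
def afr (c s : ℕ) : Bool :=
  aok h fr (dec c) s && decide (acnt h fr (dec c) (s - 1) < acnt h fr (dec c) s)

/-- At the stage `s` the history `h` looks right. -/
def gok (s : ℕ) : Bool :=
  (List.range h.length).all fun r =>
    (decide (kh h r ≤ s) && aok (h.take r) fr (dh h r) s) &&
    (((List.range (ch h r)).all fun c => (List.range (s + 1)).all fun t =>
        !(decide (kh h r < t) && afr (h.take r) fr c t)) &&
      (decide (kh h r = 0) || (List.range (ch h r)).any fun c => afr (h.take r) fr c (kh h r)))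

def gcnt (s : ℕ) : ℕ :=
  ((List.range h.length).map fun r => acnt (h.take r) fr (dh h r) s).foldl min s

/-- The last decision of the history. -/
def dl : Dec := dh h (h.length - 1)

/-- The conditions for the firing of the pointer number `|h| - 1`. -/
def pok (σ : List Bool) : Bool :=
  ((gok h fr σ.length && (compat (lb (dl h)) σ && compat (la (dl h)) (fn (fi (dl h)) σ))) &&
    isPre (fn (gi (dl h)) (fn (fi (dl h)) σ)) σ) &&
  (nofire fr (h.length - 1) (tt (dl h)) σ &&
    nofire fr (h.length - 1) (tt (dl h)) (fn (fi (dl h)) σ))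

def pcnt (σ : List Bool) : ℕ :=
  min (gcnt h fr σ.length) (fn (gi (dl h)) (fn (fi (dl h)) σ)).length

/-- The pointer number `|h| - 1` fires at `σ`. -/
def fireS (σ : List Bool) : Bool :=
  (decide (kd (dl h) = 2) && pok h fr σ) && decide (pcnt h fr σ.dropLast < pcnt h fr σ)

end

/-- The firing of the pointers `< n`. -/
def FRn (h : Hist) : ℕ → ℕ → List Bool → Bool
  | 0 => fun _ _ => false
  | n + 1 => fun m σ => if m = n then fireS (h.take (n + 1)) (FRn h n) σ else FRn h n m σ

/-- The pointer number `m` of the history `h` fires at `σ`. -/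
def fire (h : Hist) (m : ℕ) (σ : List Bool) : Bool := FRn h (m + 1) m σ

/-! ### The positions of the pointers -/

def bl (u : ℕ) : ℕ → ℕ
  | 0 => 0
  | i + 1 => Nat.pair u (bl u i) + 1

def bd (u : ℕ) : ℕ := Nat.pair 1 (Nat.pair (bl u u) u) + 1

def PPn (h : Hist) : ℕ → ℕ
  | 0 => 0
  | k + 1 => Nat.pair (bd (PPn h k)) (encode (h.take (k + 1)))

/-- The name of the pointer number `|h| - 1` of the history `h`. -/
def Pos (h : Hist) : ℕ := PPn h h.length

/-- The history of the pointer with name `p`. -/
def hh (p : ℕ) : Hist := Denumerable.ofNat (List (ℕ × ℕ)) p.unpair.2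

/-- `p` is the name of a pointer. -/
def vld (p : ℕ) : Bool := decide (0 < (hh p).length) && decide (Pos (hh p) = p)

/-! ### Semantics -/

/-- The decision with code `c` is right after the history `g`. -/
def Acc (g : Hist) (c : ℕ) : Prop :=
  (∀ s, aok g (fire g) (dec c) s = true) ∧ ∀ L, ∃ s, L ≤ acnt g (fire g) (dec c) s

/-- `k` is the last stage at which a code `< c` looks better than before. -/
def Ex (g : Hist) (c k : ℕ) : Prop :=
  (∀ c' < c, ∀ s, k < s → afr g (fire g) c' s = false) ∧
    (k = 0 ∨ ∃ c' < c, afr g (fire g) c' k = true)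

/-- The history `h` is right. -/
def GoodH (h : Hist) : Prop :=
  ∀ r < h.length, Acc (h.take r) (ch h r) ∧ Ex (h.take r) (ch h r) (kh h r)

/-- The pointer `m` of `h` fires infinitely often along `X`. -/
def Fi (h : Hist) (m : ℕ) (X : ℕ → Bool) : Prop := ∀ N, ∃ s ≥ N, fire h m (pre X s) = true

/-- The last pointer of `h` leads from `X` to `Z`. -/
structure Act (h : Hist) (X Z : ℕ → Bool) : Prop where
  good : GoodH h
  kind : kd (dl h) = 2
  pos : 0 < h.length
  lbX : lb (dl h) = pre X (lb (dl h)).length
  laZ : la (dl h) = pre Z (la (dl h)).length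
  mF : Maps (fn (fi (dl h))) X Z
  mG : Maps (fn (gi (dl h))) Z X
  nX : ∀ m < h.length - 1, ∀ s > tt (dl h), fire h m (pre X s) = false
  nZ : ∀ m < h.length - 1, ∀ s > tt (dl h), fire h m (pre Z s) = false

/-- The pointers with numbers `a` lead from `X` to `Z`. -/
inductive ActP (h : Hist) : List ℕ → (ℕ → Bool) → (ℕ → Bool) → Prop
  | nil (X : ℕ → Bool) : ActP h [] X X
  | cons {m : ℕ} {a : List ℕ} {X Y Z : ℕ → Bool} (h0 : m < h.length) (h1 : Fi h m X)
      (h2 : Maps (fn (fi (dh h m))) X Y) (h2' : Maps (fn (gi (dh h m))) Y X)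
      (h3 : ActP h a Y Z) : ActP h (m :: a) X Z

/-- `g` is unbounded above every extension of `τ`. -/
def Dns (τ : List Bool) (g : List Bool → ℕ) : Prop :=
  ∀ ρ, τ <+: ρ → ∀ L, ∃ σ, ρ <+: σ ∧ L ≤ g σ

/-- The two firing functions agree for the pointers `< n` and the strings of length `≤ s`. -/
def Agr (n s : ℕ) (fr fr' : ℕ → List Bool → Bool) : Prop :=
  ∀ m < n, ∀ ρ : List Bool, ρ.length ≤ s → fr m ρ = fr' m ρ

/-- Below `τ` the task number `|h|` is a reduction and its inverse, and the pointers of `h` lead
along the paths `a` and `b` to strings at which nothing fires above `T`. -/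
structure Sit (h : Hist) (τ : List Bool) (a b : List ℕ) (T : ℕ) : Prop where
  t0 : (tsk h.length).2.2 <+: τ
  ia : ∀ m ∈ a, m < h.length
  ib : ∀ m ∈ b, m < h.length
  ep : ∀ σ, τ <+: σ → eqs h σ <+: σ
  ed : Dns τ fun σ => (eqs h σ).length
  da : Dns τ fun σ => pc h (fire h) a σ
  db : Dns τ fun σ => pc h (fire h) b (fn (tsk h.length).1 σ)
  na : ∀ σ, τ <+: σ → nofire (fire h) h.length T (fwp h a σ) = true
  nb : ∀ σ, τ <+: σ → nofire (fire h) h.length T (fwp h b (fn (tsk h.length).1 σ)) = true

/-- The history of the first `n` terms of the sequence `u`. -/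
def Hn (u : ℕ → ℕ × ℕ) (n : ℕ) : Hist := (List.range n).map u

/-- The genericity we need. -/
structure Gen (u : ℕ → ℕ × ℕ) (X : ℕ → Bool) : Prop where
  prg : ∀ n L, (∃ s, dtau (dec (u n).1) <+: pre X s) →
    ∃ s, L ≤ prog (Hn u n) (fire (Hn u n)) (dec (u n).1) (pre X s)
  tks : ∀ i j, ∃ n, (tsk n).1 = i ∧ (tsk n).2.1 = j ∧ ∃ s, dtau (dec (u n).1) <+: pre X s

end Pool.Agent.CMG
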