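import Pool.Agent.CMG.GDefs
import Pool.Agent.CMG.LIB

/-!
# CMG/GGN: generic sequences for countably many dense conditions

PROOFS.  `dns_min`: extend twice.  `exists_gen`: define strings `ρ n` with `ρ 0 = ρ`, `ρ n <+: ρ (n + 1)`, `n ≤ |ρ n|` and
`n.unpair.2 ≤ g n.unpair.1 (ρ (n + 1))`: `ρ (n + 1)` is chosen by `Dns` above `ρ n ++ [false]` (a subtype of the strings extending `τ`, or choice and induction).  The limit
`X` (`exists_limit` of H19/Op) satisfies `pre X |ρ n| = ρ n`; for `k`, `L` take `n = Nat.pair k L`, `s = |ρ (n + 1)|`.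
`dns_of_gen`: given `ρ`, `L` take `X` and `s` with `L ≤ g (pre X s)` and `σ = pre X (max s |ρ|)`.
-/

set_option autoImplicit false

namespace Pool.Agent.CMG

open Encodable Nat.Partrec Pool.Agent.H19 Pool.Agent.AEI

theorem dns_anti {τ τ' : List Bool} {g : List Bool → ℕ} (hp : τ <+: τ') (hd : Dns τ g) : Dns τ' g := by
  intro ρ hρ L
  exact hd ρ (hp.trans hρ) L

theorem dns_le {τ : List Bool} {f g : List Bool → ℕ} (hp : ∀ σ, τ <+: σ → f σ ≤ g σ) (hd : Dns τ f) : Dns τ g := by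
  intro ρ hρ L
  obtain ⟨σ, h1, h2⟩ := hd ρ hρ L
  exact ⟨σ, h1, h2.trans (hp σ (hρ.trans h1))⟩

theorem dns_min {τ : List Bool} {f g : List Bool → ℕ} (hf : ∀ σ ρ, σ <+: ρ → f σ ≤ f ρ) (hg : ∀ σ ρ, σ <+: ρ → g σ ≤ g ρ)
    (h1 : Dns τ f) (h2 : Dns τ g) : Dns τ fun σ => min (f σ) (g σ) := by
  intro ρ hρ L
  obtain ⟨σ, a1, a2⟩ := h1 ρ hρ L
  obtain ⟨σ', b1, b2⟩ := h2 σ (hρ.trans a1) L
  exact ⟨σ', a1.trans b1, le_min (a2.trans (hf σ σ' b1)) b2⟩

theorem exists_gen {τ ρ : List Bool} {g : ℕ → List Bool → ℕ} (hd : ∀ k, Dns τ (g k)) (hρ : τ <+: ρ) :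
    ∃ X : ℕ → Bool, pre X ρ.length = ρ ∧ ∀ k L, ∃ s, L ≤ g k (pre X s) := by
  have H : ∀ (n : ℕ) (σ : {σ : List Bool // τ <+: σ}), ∃ σ' : {σ : List Bool // τ <+: σ},
      σ.1 ++ [false] <+: σ'.1 ∧ n.unpair.2 ≤ g n.unpair.1 σ'.1 := by
    intro n σ
    have h1 : τ <+: σ.1 ++ [false] := σ.2.trans (List.prefix_append _ _)
    obtain ⟨σ', a1, a2⟩ := hd n.unpair.1 _ h1 n.unpair.2
    exact ⟨⟨σ', h1.trans a1⟩, a1, a2⟩
  choose nx hnx using H
  obtain ⟨r, hr0, hr1⟩ : ∃ r : ℕ → {σ : List Bool // τ <+: σ}, r 0 = ⟨ρ, hρ⟩ ∧ ∀ n, r (n + 1) = nx n (r n) :=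
    ⟨fun n => Nat.rec ⟨ρ, hρ⟩ (fun n s => nx n s) n, rfl, fun _ => rfl⟩
  have h1 : ∀ k, (r k).1 ++ [false] <+: (r (k + 1)).1 := by
    intro k; rw [hr1]; exact (hnx k (r k)).1
  have h2 : ∀ k, k ≤ (r k).1.length := by
    intro k
    induction k with
    | zero => exact Nat.zero_le _
    | succ k ih =>
      have := (h1 k).length_le
      rw [List.length_append, List.length_singleton] at this
      omega
  obtain ⟨X, hX⟩ := exists_limit (fun k => (r k).1) (fun k => (List.prefix_append _ _).trans (h1 k)) h2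
  refine ⟨X, ?_, fun k L => ?_⟩
  · have := hX 0
    simp only [hr0] at this
    exact this
  · refine ⟨(r (Nat.pair k L + 1)).1.length, ?_⟩
    have h3 := hX (Nat.pair k L + 1)
    rw [h3, hr1]
    have h4 := (hnx (Nat.pair k L) (r (Nat.pair k L))).2
    rw [Nat.unpair_pair] at h4
    exact h4

theorem exists_gen2 {τ ρ : List Bool} {f g : List Bool → ℕ} (hf : Dns τ f) (hg : Dns τ g) (hρ : τ <+: ρ) :
    ∃ X : ℕ → Bool, pre X ρ.length = ρ ∧ (∀ L, ∃ s, L ≤ f (pre X s)) ∧ ∀ L, ∃ s, L ≤ g (pre X s) := by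
  obtain ⟨X, h1, h2⟩ := exists_gen (τ := τ) (ρ := ρ) (g := fun k => if k = 0 then f else g)
    (fun k => by
      by_cases hk : k = 0
      · simpa only [hk, if_true] using hf
      · simpa only [hk, if_false] using hg) hρ
  refine ⟨X, h1, fun L => ?_, fun L => ?_⟩
  · obtain ⟨s, hs⟩ := h2 0 L
    exact ⟨s, by simpa using hs⟩
  · obtain ⟨s, hs⟩ := h2 1 L
    exact ⟨s, by simpa using hs⟩

theorem dns_of_gen {τ : List Bool} {g : List Bool → ℕ} (hg : ∀ σ ρ, σ <+: ρ → g σ ≤ g ρ)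
    (hx : ∀ ρ, τ <+: ρ → ∃ X : ℕ → Bool, pre X ρ.length = ρ ∧ ∀ L, ∃ s, L ≤ g (pre X s)) : Dns τ g := by
  intro ρ hρ L
  obtain ⟨X, h1, h2⟩ := hx ρ hρ
  obtain ⟨s, hs⟩ := h2 L
  refine ⟨pre X (max s ρ.length), ?_, hs.trans (hg _ _ (pre_mono X (le_max_left _ _)))⟩
  have h3 := pre_mono X (le_max_right s ρ.length)
  rw [h1] at h3
  exact h3

/-- Two monotone families of strings which are comparable have the same limit. -/
theorem maps_of_compat {F : List Bool → List Bool} (hF : ∀ σ τ, σ <+: τ → F σ <+: F τ) {X Z : ℕ → Bool} {v : ℕ → List Bool}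
    {s0 : ℕ} (hv : ∀ s, v s = pre Z (v s).length) (hv' : ∀ L, ∃ s0, ∀ s ≥ s0, L ≤ (v s).length)
    (hc : ∀ s ≥ s0, compat (F (pre X s)) (v s) = true) (hl : ∀ L, ∃ s, L ≤ (F (pre X s)).length) : Maps F X Z := by
  refine maps_of (fun s => ?_) hl
  obtain ⟨s1, hs1⟩ := hv' (F (pre X s)).length
  have hc' := hc (max s (max s0 s1)) ((le_max_left _ _).trans (le_max_right _ _))
  have hlen := hs1 (max s (max s0 s1)) ((le_max_right _ _).trans (le_max_right _ _))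
  have hpre : F (pre X s) <+: F (pre X (max s (max s0 s1))) := hF _ _ (pre_mono X (le_max_left _ _))
  have hz := hv (max s (max s0 s1))
  rw [compat, Bool.or_eq_true, isPre_iff, isPre_iff] at hc'
  rcases hc' with hc' | hc'
  · have h3 := hpre.trans hc'
    rw [hz] at h3
    exact eq_pre_of_prefix h3
  · have h3 := prefix_of_prefix hpre hc' hlen
    rw [hz] at h3
    exact eq_pre_of_prefix h3

end Pool.Agent.CMG
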