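import Pool.Agent.CMG.GTS
import Pool.Agent.CMG.GPR
import Pool.Agent.CMG.GGN

/-!
# CMG/GMA: merging: the kinds of decisions

Let `X` be generic, `dtau d <+: pre X s0` for `d = dec (u n).1`, `h = Hn u n` (`|h| = n`), `(i, (j, _)) = tsk n`, `Maps (fn i) X Y`, `Maps (fn j) Y X`.
PROOFS.  By `acc_u`, `acc_iff_dns`: `stat h d`, `okd` at all `pre X s`, `s ≥ s0`; by `Gen.prg` and `prog_mono` the progress is unbounded along `X`.
`kind_ne`: suppose `kd d ≠ 1, 2`.  `Maps (fun σ => fn j (fn i σ)) X X` (`maps_comp`), so for large `s` `eqs h (pre X s) = pre X t` with `tt d < t ≤ s` (`maps_pre`, `maps_len`): the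
entries number `tt d` agree, against `okd`.
`kind_paths`: `kd d = 1` or `2`: both `pc` are unbounded; `actP_of_pc` for `X`, and for `Y` (`fn i (pre X s) = pre Y t`, `maps_pre`).
`kind_one`: `XX h d (pre X s)` is an initial segment of `X'`, `YY h d (pre X s)` one of `Y'`, their lengths are unbounded and they are comparable for `s ≥ s0`: `X' = Y'`
(compare the entries; `maps_fwp`, `maps_pre`, `maps_len`).
-/

set_option autoImplicit false

namespace Pool.Agent.CMG

open Encodable Nat.Partrec Pool.Agent.H19 Pool.Agent.AEI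

variable {u : ℕ → ℕ × ℕ} {n s0 : ℕ} {X Y : ℕ → Bool}

theorem kind_ne (hu : ∀ n, GoodH (Hn u n)) (hs : dtau (dec (u n).1) <+: pre X s0)
    (hi : Maps (fn (tsk n).1) X Y) (hj : Maps (fn (tsk n).2.1) Y X) : kd (dec (u n).1) = 1 ∨ kd (dec (u n).1) = 2 := by
  by_contra hcon
  rw [not_or] at hcon
  have hn := Hn_len u n
  have hacc := acc_iff_dns.1 (acc_u hu n)
  have mF : Maps (fun σ => fn (tsk n).2.1 (fn (tsk n).1 σ)) X X :=
    maps_comp (F := fn (tsk n).1) (fun _ _ h => fn_mono _ h) (G := fn (tsk n).2.1) (fun _ _ h => fn_mono _ h) hi hj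
  have hmono : ∀ σ τ : List Bool, σ <+: τ → fn (tsk n).2.1 (fn (tsk n).1 σ) <+: fn (tsk n).2.1 (fn (tsk n).1 τ) :=
    fun _ _ h => fn_mono _ (fn_mono _ h)
  obtain ⟨s1, hs1⟩ := maps_len hmono mF (tt (dec (u n).1) + 1)
  have h1 := hs1 (max s0 s1) (le_max_right _ _)
  have h2 := maps_pre hmono mF (max s0 s1)
  have h3 := hacc.2.1 _ (hs.trans (pre_mono X (le_max_left s0 s1)))
  have h4 : (fn (tsk n).2.1 (fn (tsk n).1 (pre X (max s0 s1)))).length ≤ max s0 s1 := by
    have h5 := (fn_len (tsk n).2.1 (fn (tsk n).1 (pre X (max s0 s1)))).trans (fn_len (tsk n).1 (pre X (max s0 s1)))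
    rwa [pre_length] at h5
  rw [okd, if_neg hcon.1, if_neg hcon.2] at h3
  have he : eqs (Hn u n) (pre X (max s0 s1)) = fn (tsk n).2.1 (fn (tsk n).1 (pre X (max s0 s1))) := by
    rw [eqs, hn]
  rw [he] at h3
  have h6 : tt (dec (u n).1) < (fn (tsk n).2.1 (fn (tsk n).1 (pre X (max s0 s1)))).length := h1
  have h7 : (fn (tsk n).2.1 (fn (tsk n).1 (pre X (max s0 s1))))[tt (dec (u n).1)]? = (pre X (max s0 s1))[tt (dec (u n).1)]? := by
    rw [pre_getElem? X (lt_of_lt_of_le h6 h4)]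
    have h8 := pre_getElem? X (s := (fn (tsk n).2.1 (fn (tsk n).1 (pre X (max s0 s1)))).length) h6
    rw [← h2] at h8
    exact h8
  rw [decide_eq_true h6, decide_eq_true h7] at h3
  exact Bool.false_ne_true h3

theorem kind_paths (hu : ∀ n, GoodH (Hn u n)) (hX : Gen u X) (hs : dtau (dec (u n).1) <+: pre X s0)
    (hi : Maps (fn (tsk n).1) X Y) (hk : kd (dec (u n).1) = 1 ∨ kd (dec (u n).1) = 2) :
    ∃ X' Y', ActP (Hn u n) (pa (dec (u n).1)) X X' ∧ ActP (Hn u n) (pb (dec (u n).1)) Y Y' := by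
  have hn := Hn_len u n
  have hacc := acc_iff_dns.1 (acc_u hu n)
  have hst := hacc.1
  simp only [stat, Bool.and_eq_true, List.all_eq_true, decide_eq_true_eq] at hst
  have hpa : ∀ m ∈ pa (dec (u n).1), m < (Hn u n).length := hst.1.2.1
  have hpb : ∀ m ∈ pb (dec (u n).1), m < (Hn u n).length := hst.1.2.2
  have hp : ∀ L, ∃ s, L ≤ pc (Hn u n) (fire (Hn u n)) (pa (dec (u n).1)) (pre X s) ∧
      L ≤ pc (Hn u n) (fire (Hn u n)) (pb (dec (u n).1)) (fn (tsk n).1 (pre X s)) := by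
    intro L
    obtain ⟨s, h3⟩ := hX.prg n L ⟨s0, hs⟩
    refine ⟨s, ?_⟩
    rcases hk with hk | hk
    · rw [prog, if_pos hk, hn] at h3
      exact ⟨h3.trans (min_le_left _ _), h3.trans (min_le_right _ _)⟩
    · rw [prog, if_neg (by rw [hk]; norm_num), if_pos hk, hn] at h3
      have h4 := h3.trans (min_le_left _ _)
      exact ⟨h4.trans (min_le_left _ _), h4.trans (min_le_right _ _)⟩
  obtain ⟨X', hX'⟩ := actP_of_pc (X := X) hpa fun L => by
    obtain ⟨s, h3, _⟩ := hp L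
    exact ⟨s, h3⟩
  obtain ⟨Y', hY'⟩ := actP_of_pc (X := Y) hpb fun L => by
    obtain ⟨s, _, h3⟩ := hp L
    refine ⟨(fn (tsk n).1 (pre X s)).length, ?_⟩
    rw [← maps_pre (fun _ _ h => fn_mono _ h) hi s]
    exact h3
  exact ⟨X', Y', hX', hY'⟩

theorem kind_one (hu : ∀ n, GoodH (Hn u n)) (hs : dtau (dec (u n).1) <+: pre X s0)
    (hi : Maps (fn (tsk n).1) X Y) (hk : kd (dec (u n).1) = 1) {X' Y' : ℕ → Bool}
    (h1 : ActP (Hn u n) (pa (dec (u n).1)) X X') (h2 : ActP (Hn u n) (pb (dec (u n).1)) Y Y') : X' = Y' := by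
  have hn := Hn_len u n
  have hacc := acc_iff_dns.1 (acc_u hu n)
  have hok : ∀ s ≥ s0, compat (XX (Hn u n) (dec (u n).1) (pre X s)) (YY (Hn u n) (dec (u n).1) (pre X s)) = true := by
    intro s hs'
    have h3 := hacc.2.1 _ (hs.trans (pre_mono X hs'))
    rw [okd, if_pos hk, Bool.and_eq_true] at h3
    exact h3.2
  have hX1 : Maps (XX (Hn u n) (dec (u n).1)) X X' := maps_fwp h1
  have hY1 : Maps (YY (Hn u n) (dec (u n).1)) X Y' := by
    have h3 := maps_comp (fun σ τ h => fn_mono _ h) (fun σ τ h => fwp_mono (Hn u n) (pb (dec (u n).1)) h)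
      hi (maps_fwp h2)
    have e : YY (Hn u n) (dec (u n).1) = fun σ => fwp (Hn u n) (pb (dec (u n).1)) (fn (tsk n).1 σ) := by
      funext σ
      rw [YY, hn]
    rw [e]
    exact h3
  have mX : ∀ σ τ, σ <+: τ → XX (Hn u n) (dec (u n).1) σ <+: XX (Hn u n) (dec (u n).1) τ := fun σ τ h =>
    XX_mono _ _ h
  have mY : ∀ σ τ, σ <+: τ → YY (Hn u n) (dec (u n).1) σ <+: YY (Hn u n) (dec (u n).1) τ := fun σ τ h =>
    YY_mono _ _ h
  refine pre_inj fun k => ?_
  obtain ⟨s1, hs1⟩ := maps_len mX hX1 k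
  obtain ⟨s2, hs2⟩ := maps_len mY hY1 k
  have a0 : s0 ≤ max s0 (max s1 s2) := le_max_left _ _
  have a1 : s1 ≤ max s0 (max s1 s2) := (le_max_left _ _).trans (le_max_right _ _)
  have a2 : s2 ≤ max s0 (max s1 s2) := (le_max_right _ _).trans (le_max_right _ _)
  have b1 := hs1 _ a1
  have b2 := hs2 _ a2
  have c1 := maps_pre mX hX1 (max s0 (max s1 s2))
  have c2 := maps_pre mY hY1 (max s0 (max s1 s2))
  have e1 : pre X' k <+: XX (Hn u n) (dec (u n).1) (pre X (max s0 (max s1 s2))) := by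
    rw [c1]; exact pre_mono X' b1
  have e2 : pre Y' k <+: YY (Hn u n) (dec (u n).1) (pre X (max s0 (max s1 s2))) := by
    rw [c2]; exact pre_mono Y' b2
  rcases compat_iff.1 (hok _ a0) with h3 | h3
  · have h4 := e1.trans h3
    rw [c2] at h4
    have h5 := eq_pre_of_prefix h4
    rwa [pre_length] at h5
  · have h4 := e2.trans h3
    rw [c1] at h4
    have h5 := eq_pre_of_prefix h4
    rw [pre_length] at h5
    exact h5.symm

end Pool.Agent.CMG
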