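import Pool.Agent.CMG.GTS
import Pool.Agent.CMG.GPR
import Pool.Agent.CMG.GGN

/-!
# CMG/GMB: merging: a new pointer

PROOF.  `h = Hn u n` (`|h| = n`), `d = dec (u n).1`, `f = fi d`, `g = gi d`.  By `acc_u`, `acc_iff_dns`: `okd h (fire h) d (pre X s)` for all `s ≥ s0` (`dtau d <+: pre X s`); by
`Gen.prg` and `prog_mono` the progress is unbounded along `X`.  By `maps_fwp`, `maps_comp`: `Maps (XX h d) X X'`, `Maps (YY h d) X Y'` (as `(tsk h.length).1 = (tsk n).1`).
The fields of `Act (Hn u (n + 1)) Y' X'` (`dl_Hn`; `fire_take` with `(Hn u (n + 1)).take n = Hn u n`): `lb <+: YY h d (pre X s)`, `la <+: XX h d (pre X s)`, and these are initial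
segments of `Y'`, `X'` (`maps_pre`, `eq_pre_of_prefix`).  `mF`: by `maps_of_compat` (GGN) with `F σ = fn f (YY h d σ)`, `v s = XX h d (pre X s)` one gets
`Maps (fun σ => fn f (YY h d σ)) X X'`, and `YY h d (pre X s) = pre Y' t`, so `Maps (fn f) Y' X'`.  `mG`: the same with `F σ = fn g (XX h d σ)`.
`nX`, `nZ`: `nofire_pre` at `pre X s` with `|YY h d (pre X s)|`, `|XX h d (pre X s)|` large.
-/

set_option autoImplicit false

namespace Pool.Agent.CMG

open Encodable Nat.Partrec Pool.Agent.H19 Pool.Agent.AEI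

variable {u : ℕ → ℕ × ℕ} {n s0 : ℕ} {X Y : ℕ → Bool}

theorem kind_two (hu : ∀ n, GoodH (Hn u n)) (hX : Gen u X) (hs : dtau (dec (u n).1) <+: pre X s0)
    (hi : Maps (fn (tsk n).1) X Y) (hk : kd (dec (u n).1) = 2) {X' Y' : ℕ → Bool}
    (h1 : ActP (Hn u n) (pa (dec (u n).1)) X X') (h2 : ActP (Hn u n) (pb (dec (u n).1)) Y Y') :
    Act (Hn u (n + 1)) Y' X' := by
  have hn := Hn_len u n
  have hacc := acc_iff_dns.1 (acc_u hu n)
  have hok : ∀ s ≥ s0, okd (Hn u n) (fire (Hn u n)) (dec (u n).1) (pre X s) = true := fun s hs' =>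
    hacc.2.1 _ (hs.trans (pre_mono X hs'))
  simp only [okd, hk, OfNat.ofNat_ne_one, if_false, if_true, Bool.and_eq_true] at hok
  have hX1 : Maps (XX (Hn u n) (dec (u n).1)) X X' := maps_fwp h1
  have hY1 : Maps (YY (Hn u n) (dec (u n).1)) X Y' := by
    have h3 := maps_comp (fun σ τ h => fn_mono _ h) (fun σ τ h => fwp_mono (Hn u n) (pb (dec (u n).1)) h)
      hi (maps_fwp h2)
    have e : YY (Hn u n) (dec (u n).1) = fun σ => fwp (Hn u n) (pb (dec (u n).1)) (fn (tsk n).1 σ) := by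
      funext σ
      rw [YY, hn]
    rw [e]
    exact h3
  have mX : ∀ σ τ, σ <+: τ → XX (Hn u n) (dec (u n).1) σ <+: XX (Hn u n) (dec (u n).1) τ := fun σ τ h =>
    XX_mono _ _ h
  have mY : ∀ σ τ, σ <+: τ → YY (Hn u n) (dec (u n).1) σ <+: YY (Hn u n) (dec (u n).1) τ := fun σ τ h =>
    YY_mono _ _ h
  have pX := maps_pre mX hX1
  have pY := maps_pre mY hY1
  have lX := maps_len mX hX1
  have lY := maps_len mY hY1
  have hprog : ∀ L, ∃ s, L ≤ (fn (fi (dec (u n).1)) (YY (Hn u n) (dec (u n).1) (pre X s))).length ∧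
      L ≤ (fn (gi (dec (u n).1)) (XX (Hn u n) (dec (u n).1) (pre X s))).length := by
    intro L
    obtain ⟨s, h3⟩ := hX.prg n L ⟨s0, hs⟩
    rw [prog, if_neg (by rw [hk]; norm_num), if_pos hk] at h3
    have h4 := h3.trans (min_le_right _ _)
    exact ⟨s, h4.trans (min_le_left _ _), h4.trans (min_le_right _ _)⟩
  have hF1 : Maps (fun σ => fn (fi (dec (u n).1)) (YY (Hn u n) (dec (u n).1) σ)) X X' := by
    refine maps_of_compat (s0 := s0) (v := fun s => XX (Hn u n) (dec (u n).1) (pre X s))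
      (fun σ τ h => fn_mono _ (mY σ τ h)) pX lX (fun s h3 => (hok s h3).2.1) fun L => ?_
    obtain ⟨s, h3, _⟩ := hprog L
    exact ⟨s, h3⟩
  have hG1 : Maps (fun σ => fn (gi (dec (u n).1)) (XX (Hn u n) (dec (u n).1) σ)) X Y' := by
    refine maps_of_compat (s0 := s0) (v := fun s => YY (Hn u n) (dec (u n).1) (pre X s))
      (fun σ τ h => fn_mono _ (mX σ τ h)) pY lY (fun s h3 => (hok s h3).2.2) fun L => ?_
    obtain ⟨s, _, h3⟩ := hprog L
    exact ⟨s, h3⟩
  have hno : ∀ (Z : ℕ → Bool) (v : ℕ → List Bool), (∀ s, v s = pre Z (v s).length) →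
      (∀ L, ∃ s1, ∀ s ≥ s1, L ≤ (v s).length) →
      (∀ s ≥ s0, nofire (fire (Hn u n)) (Hn u n).length (tt (dec (u n).1)) (v s) = true) →
      ∀ m < n, ∀ s > tt (dec (u n).1), fire (Hn u (n + 1)) m (pre Z s) = false := by
    intro Z v hv hv' hnf m hm s hs'
    obtain ⟨s1, h3⟩ := hv' s
    have h4 := hnf (max s0 s1) (le_max_left _ _)
    have h5 := h3 (max s0 s1) (le_max_right _ _)
    rw [hv, hn, nofire_pre] at h4
    have h6 := h4 m hm s h5 hs'
    have h7 := fire_take (h := Hn u (n + 1)) hm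
    rw [Hn_take u (Nat.le_succ n)] at h7
    rwa [← h7]
  have hdl := dl_Hn u n
  have hlen := Hn_len u (n + 1)
  refine ⟨hu (n + 1), by rw [hdl, hk], by rw [hlen]; exact Nat.succ_pos n, ?_, ?_, ?_, ?_, ?_, ?_⟩
  · rw [hdl]
    obtain h3 := isPre_iff.1 (hok s0 le_rfl).1.2.2
    rw [pY s0] at h3
    exact eq_pre_of_prefix h3
  · rw [hdl]
    obtain h3 := isPre_iff.1 (hok s0 le_rfl).1.2.1
    rw [pX s0] at h3
    exact eq_pre_of_prefix h3
  · rw [hdl]
    intro k
    obtain ⟨s, h3⟩ := hF1 k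
    refine ⟨(YY (Hn u n) (dec (u n).1) (pre X s)).length, ?_⟩
    rw [← pY s]
    exact h3
  · rw [hdl]
    intro k
    obtain ⟨s, h3⟩ := hG1 k
    refine ⟨(XX (Hn u n) (dec (u n).1) (pre X s)).length, ?_⟩
    rw [← pX s]
    exact h3
  · intro m hm s hs'
    rw [hlen] at hm
    rw [hdl] at hs'
    exact hno Y' (fun s => YY (Hn u n) (dec (u n).1) (pre X s)) pY lY (fun s h3 => (hok s h3).1.1.2) m hm s hs'
  · intro m hm s hs'
    rw [hlen] at hm
    rw [hdl] at hs'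
    exact hno X' (fun s => XX (Hn u n) (dec (u n).1) (pre X s)) pX lX (fun s h3 => (hok s h3).1.1.1) m hm s hs'

end Pool.Agent.CMG
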