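import Pool.Agent.CMG.GSS
import Pool.Agent.CMG.GPB

/-!
# CMG/GSG: the pointer system is good: growth
-/

set_option autoImplicit false

namespace Pool.Agent.CMG

open Encodable Nat.Partrec Pool.Agent.H19 Pool.Agent.AEI

theorem chain_lt {a : List ℕ} {X Z : ℕ → Bool} {p : ℕ} (hc : Chain gsys a X Z) (hq : Q gsys p Z) :
    (∃ p2, Q gsys p2 X ∧ (hh p2).length + a.length ≤ (hh p).length) ∧
      ∀ l ∈ a, (hh l).length < (hh p).length ∧ GoodH (hh l) ∧ Pos (hh l) = l := by
  induction hc with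
  | nil X => exact ⟨⟨p, hq, le_rfl⟩, by simp⟩
  | @cons p1 a X Y Z h1 h2 h3 ih =>
    obtain ⟨⟨p2, hq2, hl2⟩, hall⟩ := ih hq
    obtain ⟨⟨Y', hA⟩, hpos⟩ := act_of_Q h1
    obtain ⟨⟨Z', hA2⟩, _⟩ := act_of_Q hq2
    have hY : Y' = Y := maps_unique (fun _ _ h => fn_mono _ h) hA.mF h2
    subst hY
    have hlt := act_next hA hA2
    refine ⟨⟨p1, h1, ?_⟩, ?_⟩
    · simp only [List.length_cons]; omega
    · intro l hl
      rcases List.mem_cons.1 hl with rfl | hl
      · exact ⟨by omega, hA.good, hpos⟩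
      · exact hall l hl

theorem gsys_gr (a : List ℕ) (X Z : ℕ → Bool) (p : ℕ) (hc : Chain gsys a X Z) (hq : Q gsys p Z) (t : ℕ) (ht : t ≤ 1) :
    rq t a a.length < p := by
  obtain ⟨⟨p2, hq2, hl2⟩, hall⟩ := chain_lt hc hq
  obtain ⟨⟨Z', hA⟩, hpos⟩ := act_of_Q hq
  obtain ⟨⟨Z2, hA2⟩, _⟩ := act_of_Q hq2
  have h0 := hA.pos
  have h02 := hA2.pos
  have hmem : ∀ x ∈ a, x ≤ PPn (hh p) ((hh p).length - 1) := by
    intro l hl
    obtain ⟨h1, h2, h3⟩ := hall l hl
    have h4 : hh l = (hh p).take (hh l).length := good_prefix h2 hA.good h1.le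
    have h5 : PPn (hh l) (hh l).length = PPn (hh p) (hh l).length := by
      have h6 := PPn_take (h := hh p) (n := (hh l).length) (k := (hh l).length) le_rfl
      rw [← h4] at h6
      exact h6
    have h7 : l = PPn (hh p) (hh l).length := by
      rw [← h5]; exact h3.symm
    rw [h7]
    exact PPn_mono (by omega)
  have hlen : a.length ≤ PPn (hh p) ((hh p).length - 1) := by
    have := le_PPn (h := hh p) ((hh p).length - 1)
    omega
  have h8 := rq_lt_bd ht hmem hlen
  have h9 := bd_le_PPn (h := hh p) ((hh p).length - 1)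
  rw [Nat.sub_add_cancel h0] at h9
  have h10 : PPn (hh p) (hh p).length = p := hpos
  omega

theorem good_gsys : GoodSys gsys := ⟨gsys_total, gsys_uni, gsys_gr⟩

end Pool.Agent.CMG
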