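import Pool.Agent.CMG.GCM
import Pool.Agent.CMG.GMA
import Pool.Agent.CMG.GMB
import Pool.Agent.CMG.GUV
import Pool.Agent.CMG.GSG
import Pool.Agent.CMG.PTR

/-!
# CMG/GFN: the final theorem of the category case
-/

set_option autoImplicit false

namespace Pool.Agent.CMG

open Encodable Nat.Partrec Pool.Agent.H19 Pool.Agent.AEI

theorem merge {u : ℕ → ℕ × ℕ} (hu : ∀ n, GoodH (Hn u n)) {X Y : ℕ → Bool} (hX : Gen u X)
    (h1 : TuringReducible (chi Y) (chi X)) (h2 : TuringReducible (chi X) (chi Y)) :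
    ∃ a b Z, Chain gsys a X Z ∧ Chain gsys b Y Z := by
  obtain ⟨i, hi⟩ := exists_fn_of_red h1
  obtain ⟨j, hj⟩ := exists_fn_of_red h2
  obtain ⟨n, rfl, rfl, s0, hs⟩ := hX.tks i j
  have hk := kind_ne hu hs hi hj
  obtain ⟨X', Y', hA, hB⟩ := kind_paths hu hX hs hi hk
  rcases hk with hk | hk
  · have he := kind_one hu hs hi hk hA hB
    subst he
    exact ⟨_, _, X', chain_of_actP hA, chain_of_actP hB⟩
  · have ha := kind_two hu hX hs hi hk hA hB
    refine ⟨_, _, X', chain_of_actP hA, chain_snoc (chain_of_actP hB) (Q_of_act ha) ?_⟩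
    rw [F_gsys, hh_Pos ha.pos]
    exact ha.mF

theorem main_gen : ∃ r : Code,
    (∀ X n, (∃ s, (r.eval (encode (n, pre X s))).Dom) ↔ WX gsys X n = true) ∧
    (∀ X, ¬ TuringReducible (chi (WX gsys X)) (chi X)) ∧
    (∀ X, ¬ TuringReducible (chi (JJ X)) (chi (WX gsys X))) ∧
    ∀ᶠ X in residual (ℕ → Bool), ∀ Y, TuringReducible (chi Y) (chi X) → TuringReducible (chi X) (chi Y) →
      TuringReducible (chi (WX gsys Y)) (chi (WX gsys X)) ∧ TuringReducible (chi (WX gsys X)) (chi (WX gsys Y)) := by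
  obtain ⟨r, h1, h2, h3, h4⟩ := pointer good_gsys
  refine ⟨r, h1, h2, h3, ?_⟩
  obtain ⟨u, hu⟩ := exists_seq
  filter_upwards [gen_residual hu] with X hX Y hY hY'
  obtain ⟨a, b, Z, ha, hb⟩ := merge hu hX hY hY'
  obtain ⟨e1, e2⟩ := h4 a X Z ha
  obtain ⟨e3, e4⟩ := h4 b Y Z hb
  exact ⟨e3.trans e2, e1.trans e4⟩

end Pool.Agent.CMG
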