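import Pool.Agent.CMG.GAC

/-!
# CMG/GGK: the approximation to the correctness of a history

PROOFS.  By `aok_take`, `afr_take`, `acnt_take` (GFE) the tests of `gok h (fire h) s` are about `fire (h.take r)`.
`gok_of_good`: `s0` = the maximum of the `kh h r`.  `gcnt`: the minimum of a list (`foldl min`): `L ≤ l.foldl min s ↔ L ≤ s ∧ ∀ x ∈ l, L ≤ x` (induction).
`good_of_gok`: fix `r < |h|`; `aok` at infinitely many stages, hence at all (`aok_anti`); `acnt` is at least `gcnt`; for `c' < ch h r` and `t > kh h r` take a stage `s ≥ t`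
with `gok`.
-/

set_option autoImplicit false

namespace Pool.Agent.CMG

open Encodable Nat.Partrec Pool.Agent.H19 Pool.Agent.AEI

theorem le_foldl_min {L s : ℕ} {l : List ℕ} : L ≤ l.foldl min s ↔ L ≤ s ∧ ∀ x ∈ l, L ≤ x := by
  induction l generalizing s with
  | nil => simp
  | cons a l ih =>
    rw [List.foldl_cons, ih]
    simp only [le_min_iff, List.mem_cons, forall_eq_or_imp]
    tauto

theorem gcnt_mono (h : Hist) (fr : ℕ → List Bool → Bool) {s t : ℕ} (hst : s ≤ t) : gcnt h fr s ≤ gcnt h fr t := by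
  have h1 := (le_foldl_min (L := gcnt h fr s) (s := s)
    (l := (List.range h.length).map fun r => acnt (h.take r) fr (dh h r) s)).1 le_rfl
  refine le_foldl_min.2 ⟨h1.1.trans hst, ?_⟩
  intro x hx
  obtain ⟨r, hr, rfl⟩ := List.mem_map.1 hx
  exact (h1.2 _ (List.mem_map.2 ⟨r, hr, rfl⟩)).trans (acnt_mono _ _ _ hst)

private theorem GGK_gok {h : Hist} {s : ℕ} : gok h (fire h) s = true ↔ ∀ r < h.length,
    (kh h r ≤ s ∧ aok (h.take r) (fire (h.take r)) (dh h r) s = true) ∧
      (∀ c < ch h r, ∀ t ≤ s, kh h r < t → afr (h.take r) (fire (h.take r)) c t = false) ∧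
      (kh h r = 0 ∨ ∃ c < ch h r, afr (h.take r) (fire (h.take r)) c (kh h r) = true) := by
  rw [gok, List.all_eq_true]
  simp only [List.mem_range]
  refine forall_congr' fun r => imp_congr_right fun hr => ?_
  rw [aok_take]
  simp only [Bool.and_eq_true, decide_eq_true_eq, List.all_eq_true, List.mem_range, Bool.not_eq_true',
    Bool.and_eq_false_iff, decide_eq_false_iff_not, Bool.or_eq_true, List.any_eq_true, afr_take]
  refine and_congr_right fun _ => and_congr_left fun _ => ?_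
  refine forall_congr' fun c => imp_congr_right fun hc => ?_
  constructor
  · intro h1 t ht hk
    exact (h1 t (Nat.lt_succ_of_le ht)).resolve_left (not_not.2 hk)
  · intro h1 t ht
    by_cases hk : kh h r < t
    · exact Or.inr (h1 t (Nat.le_of_lt_succ ht) hk)
    · exact Or.inl hk

theorem gok_of_good {h : Hist} (hg : GoodH h) : ∃ s0, ∀ s ≥ s0, gok h (fire h) s = true := by
  refine ⟨(Finset.range h.length).sup (kh h), fun s hs => GGK_gok.2 fun r hr => ?_⟩
  obtain ⟨h1, h2⟩ := hg r hr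
  have h3 : kh h r ≤ s := (Finset.le_sup (f := kh h) (Finset.mem_range.2 hr)).trans hs
  exact ⟨⟨h3, h1.1 s⟩, fun c hc t _ ht => h2.1 c hc t ht, h2.2⟩

theorem gcnt_of_good {h : Hist} (hg : GoodH h) (L : ℕ) : ∃ s0, ∀ s ≥ s0, L ≤ gcnt h (fire h) s := by
  have h1 : ∀ r, ∃ s, r < h.length → L ≤ acnt (h.take r) (fire h) (dh h r) s := by
    intro r
    by_cases hr : r < h.length
    · obtain ⟨s, hs⟩ := (hg r hr).1.2 L
      refine ⟨s, fun _ => ?_⟩
      rw [acnt_take]
      exact hs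
    · exact ⟨0, fun hr' => absurd hr' hr⟩
  choose S hS using h1
  refine ⟨max L ((Finset.range h.length).sup S), fun s hs => le_foldl_min.2 ⟨(le_max_left _ _).trans hs, ?_⟩⟩
  intro x hx
  obtain ⟨r, hr, rfl⟩ := List.mem_map.1 hx
  have hr' := List.mem_range.1 hr
  exact (hS r hr').trans (acnt_mono _ _ _
    (((Finset.le_sup (f := S) (Finset.mem_range.2 hr')).trans (le_max_right _ _)).trans hs))

theorem good_of_gok {h : Hist} (h1 : ∀ N, ∃ s ≥ N, gok h (fire h) s = true) (h2 : ∀ L, ∃ s, L ≤ gcnt h (fire h) s) :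
    GoodH h := by
  intro r hr
  refine ⟨⟨fun s => ?_, fun L => ?_⟩, fun c' hc s hs => ?_, ?_⟩
  · obtain ⟨t, ht, h3⟩ := h1 s
    exact aok_anti ht ((GGK_gok.1 h3) r hr).1.2
  · obtain ⟨s, hs⟩ := h2 L
    have h3 := (le_foldl_min.1 hs).2 _ (List.mem_map.2 ⟨r, List.mem_range.2 hr, rfl⟩)
    rw [acnt_take] at h3
    exact ⟨s, h3⟩
  · obtain ⟨t, ht, h3⟩ := h1 s
    exact ((GGK_gok.1 h3) r hr).2.1 c' hc s ht hs
  · obtain ⟨t, _, h3⟩ := h1 0
    exact ((GGK_gok.1 h3) r hr).2.2

end Pool.Agent.CMG
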