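import Pool.Agent.CMG.GDefs
import Pool.Agent.CMG.LIB

/-!
# CMG/GLB: basic lemmas: strings and decisions

PROOFS.  `dec_encode`, `tsk_encode`: `Encodable.encodek`.  `fn_mono`, `fn_len`: `zf_mono`, `zf_length_le`.  `fwp`, `bkp`: induction on the path.
`compat_*`: `isPre_iff`, `prefix_of_prefix`.  `nofire_iff`: `List.all_eq_true`, `List.mem_range`.
-/

set_option autoImplicit false

namespace Pool.Agent.CMG

open Encodable Nat.Partrec Pool.Agent.H19 Pool.Agent.AEI

variable {fr : ℕ → List Bool → Bool}

theorem dec_encode (d : Dec) : dec (encode d) = d := by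
  rw [dec, encodek, Option.getD_some]

theorem tsk_encode (i j : ℕ) (τ : List Bool) : tsk (encode ((i, (j, τ)) : ℕ × (ℕ × List Bool))) = (i, (j, τ)) := by
  rw [tsk, encodek, Option.getD_some]

theorem fn_mono (e : ℕ) {σ τ : List Bool} (hp : σ <+: τ) : fn e σ <+: fn e τ := zf_mono _ hp

theorem fn_len (e : ℕ) (σ : List Bool) : (fn e σ).length ≤ σ.length := zf_length_le _ _

theorem fwp_mono (h : Hist) (a : List ℕ) {σ τ : List Bool} (hp : σ <+: τ) : fwp h a σ <+: fwp h a τ := by
  induction a generalizing σ τ with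
  | nil => exact hp
  | cons m a ih => exact ih (fn_mono _ hp)

theorem fwp_len (h : Hist) (a : List ℕ) (σ : List Bool) : (fwp h a σ).length ≤ σ.length := by
  induction a generalizing σ with
  | nil => exact le_rfl
  | cons m a ih => exact (ih _).trans (fn_len _ _)

theorem bkp_mono (h : Hist) (a : List ℕ) {σ τ : List Bool} (hp : σ <+: τ) : bkp h a σ <+: bkp h a τ := by
  induction a with
  | nil => exact hp
  | cons m a ih => exact fn_mono _ ih

theorem bkp_len (h : Hist) (a : List ℕ) (σ : List Bool) : (bkp h a σ).length ≤ σ.length := by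
  induction a with
  | nil => exact le_rfl
  | cons m a ih => exact (fn_len _ _).trans ih

theorem XX_mono (h : Hist) (d : Dec) {σ τ : List Bool} (hp : σ <+: τ) : XX h d σ <+: XX h d τ :=
  fwp_mono h _ hp

theorem YY_mono (h : Hist) (d : Dec) {σ τ : List Bool} (hp : σ <+: τ) : YY h d σ <+: YY h d τ :=
  fwp_mono h _ (fn_mono _ hp)

theorem eqs_mono (h : Hist) {σ τ : List Bool} (hp : σ <+: τ) : eqs h σ <+: eqs h τ :=
  fn_mono _ (fn_mono _ hp)

theorem XX_len (h : Hist) (d : Dec) (σ : List Bool) : (XX h d σ).length ≤ σ.length := fwp_len h _ _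

theorem YY_len (h : Hist) (d : Dec) (σ : List Bool) : (YY h d σ).length ≤ σ.length :=
  (fwp_len h _ _).trans (fn_len _ _)

theorem eqs_len (h : Hist) (σ : List Bool) : (eqs h σ).length ≤ σ.length :=
  (fn_len _ _).trans (fn_len _ _)

theorem compat_iff {σ τ : List Bool} : compat σ τ = true ↔ σ <+: τ ∨ τ <+: σ := by
  rw [compat, Bool.or_eq_true, isPre_iff, isPre_iff]

theorem compat_comm {σ τ : List Bool} : compat σ τ = compat τ σ := by
  rw [compat, compat, Bool.or_comm]

theorem compat_of_prefix {σ τ υ : List Bool} (h1 : σ <+: υ) (h2 : τ <+: υ) : compat σ τ = true := by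
  rw [compat_iff]
  rcases le_total σ.length τ.length with h | h
  · exact Or.inl (prefix_of_prefix h1 h2 h)
  · exact Or.inr (prefix_of_prefix h2 h1 h)

theorem compat_anti {σ τ σ' τ' : List Bool} (h1 : σ <+: σ') (h2 : τ <+: τ') (hc : compat σ' τ' = true) :
    compat σ τ = true := by
  rcases compat_iff.1 hc with h | h
  · exact compat_of_prefix (h1.trans h) h2
  · exact compat_of_prefix h1 (h2.trans h)

theorem nofire_iff {n T : ℕ} {σ : List Bool} :
    nofire fr n T σ = true ↔ ∀ m < n, ∀ i ≤ σ.length, T < i → fr m (σ.take i) = false := by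
  rw [nofire, List.all_eq_true]
  simp only [List.all_eq_true, List.mem_range, Bool.not_eq_true', Bool.and_eq_false_iff,
    decide_eq_false_iff_not, Nat.lt_succ_iff]
  constructor
  · intro h m hm i hi hT
    rcases h m hm i hi with h1 | h1
    · exact absurd hT h1
    · exact h1
  · intro h m hm i hi
    by_cases hT : T < i
    · exact Or.inr (h m hm i hi hT)
    · exact Or.inl hT

theorem nofire_pre {n T : ℕ} {X : ℕ → Bool} {s : ℕ} :
    nofire fr n T (pre X s) = true ↔ ∀ m < n, ∀ i ≤ s, T < i → fr m (pre X i) = false := by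
  rw [nofire_iff, pre_length]
  constructor
  · intro h m hm i hi hT
    have := h m hm i hi hT
    rwa [pre_take X hi] at this
  · intro h m hm i hi hT
    rw [pre_take X hi]
    exact h m hm i hi hT

theorem nofire_anti {n T : ℕ} {σ τ : List Bool} (hp : σ <+: τ) (hn : nofire fr n T τ = true) :
    nofire fr n T σ = true := by
  rw [nofire_iff] at hn ⊢
  intro m hm i hi hT
  obtain ⟨u, rfl⟩ := hp
  have := hn m hm i (by rw [List.length_append]; omega) hT
  rwa [List.take_append_of_le_length hi] at this

theorem nofire_le {n T T' : ℕ} {σ : List Bool} (hT : T ≤ T') (hn : nofire fr n T σ = true) :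
    nofire fr n T' σ = true := by
  rw [nofire_iff] at hn ⊢
  intro m hm i hi h
  exact hn m hm i hi (by omega)

end Pool.Agent.CMG
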