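import Pool.Agent.CMG.GLB

/-!
# CMG/GLC: firing counts and progress are monotone

PROOFS.  `nf`: for `σ <+: τ` the list `(List.range (|σ| + 1)).filter ..` is an initial part of the one for `τ` (`|τ| + 1 = (|σ| + 1) + k`,
`List.range_add`, `List.filter_append`, `List.filter_congr`; `τ.take i = σ.take i` for `i ≤ |σ|`); for `nf_lt` the rest of the list contains `i`.
`nf_pre_succ`: `List.range_succ`.  `nf_inf`: by `nf_pre_succ` (induction on `L`; if nothing fires after `N` then `nf` is constant from `N` on).
`pc_mono`, `prog_mono`: `min_le_min`, `List.IsPrefix.length_le`, induction on the path.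
-/

set_option autoImplicit false

namespace Pool.Agent.CMG

open Encodable Nat.Partrec Pool.Agent.H19 Pool.Agent.AEI

variable {h : Hist} {fr : ℕ → List Bool → Bool}

private theorem glc_split {m : ℕ} (σ u : List Bool) :
    nf h fr m (σ ++ u) = nf h fr m σ +
      (((List.range u.length).map (σ.length + 1 + ·)).filter
        fun i => decide (m < h.length) && fr m ((σ ++ u).take i)).length := by
  unfold nf
  have e : (σ ++ u).length + 1 = (σ.length + 1) + u.length := by rw [List.length_append]; omega
  rw [e, List.range_add, List.filter_append, List.length_append]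
  congr 2
  refine List.filter_congr fun i hi => ?_
  rw [List.take_append_of_le_length (by rw [List.mem_range] at hi; omega)]

theorem nf_mono {m : ℕ} {σ τ : List Bool} (hp : σ <+: τ) : nf h fr m σ ≤ nf h fr m τ := by
  obtain ⟨u, rfl⟩ := hp
  rw [glc_split]
  exact Nat.le_add_right _ _

theorem nf_lt {m i : ℕ} {σ τ : List Bool} (hp : σ <+: τ) (hm : m < h.length) (hi : σ.length < i) (hi' : i ≤ τ.length)
    (hf : fr m (τ.take i) = true) : nf h fr m σ < nf h fr m τ := by
  obtain ⟨u, rfl⟩ := hp
  rw [glc_split]
  refine Nat.lt_add_of_pos_right (List.length_pos_of_mem (a := i) ?_)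
  rw [List.mem_filter]
  refine ⟨?_, by rw [hf, decide_eq_true hm]; rfl⟩
  rw [List.mem_map]
  rw [List.length_append] at hi'
  exact ⟨i - (σ.length + 1), by rw [List.mem_range]; omega, by omega⟩

theorem nf_pre_succ {m : ℕ} {X : ℕ → Bool} {s : ℕ} (hm : m < h.length) :
    nf h fr m (pre X (s + 1)) = nf h fr m (pre X s) + if fr m (pre X (s + 1)) = true then 1 else 0 := by
  have e : pre X (s + 1) = pre X s ++ [X s] := pre_succ X s
  have e2 := glc_split (h := h) (fr := fr) (m := m) (pre X s) [X s]
  rw [← e] at e2
  rw [e2]
  congr 1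
  have e3 : (pre X (s + 1)).take (s + 1) = pre X (s + 1) := pre_take X le_rfl
  simp only [List.length_singleton, List.range_one, List.map_cons, List.map_nil, pre_length,
    Nat.add_zero, List.filter_cons, List.filter_nil, e3, decide_eq_true hm, Bool.true_and]
  split_ifs <;> rfl

theorem nf_inf {m : ℕ} {X : ℕ → Bool} (hm : m < h.length) :
    (∀ L, ∃ s, L ≤ nf h fr m (pre X s)) ↔ ∀ N, ∃ s ≥ N, fr m (pre X s) = true := by
  constructor
  · intro H N
    by_contra hc
    push Not at hc
    have hconst : ∀ s, nf h fr m (pre X (N + s)) = nf h fr m (pre X N) := by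
      intro s
      induction s with
      | zero => rfl
      | succ s ih =>
        rw [← Nat.add_assoc, nf_pre_succ hm, ih]
        have := hc (N + s + 1) (by omega)
        rw [if_neg this]
        rfl
    obtain ⟨s, hs⟩ := H (nf h fr m (pre X N) + 1)
    have h1 : nf h fr m (pre X s) ≤ nf h fr m (pre X (N + s)) := nf_mono (pre_mono X (by omega))
    rw [hconst] at h1
    omega
  · intro H L
    induction L with
    | zero => exact ⟨0, Nat.zero_le _⟩
    | succ L ih =>
      obtain ⟨s, hs⟩ := ih
      obtain ⟨t, ht, hf⟩ := H (s + 1)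
      refine ⟨t, ?_⟩
      have h1 : nf h fr m (pre X s) < nf h fr m (pre X t) := by
        refine nf_lt (i := t) (pre_mono X (by omega)) hm (by rw [pre_length]; omega) (by rw [pre_length]) ?_
        rw [pre_take X le_rfl]
        exact hf
      omega

theorem pc_mono (a : List ℕ) {σ τ : List Bool} (hp : σ <+: τ) : pc h fr a σ ≤ pc h fr a τ := by
  induction a generalizing σ τ with
  | nil => exact hp.length_le
  | cons m a ih => exact min_le_min (nf_mono hp) (ih (fn_mono _ hp))

theorem pc_le_length (a : List ℕ) (σ : List Bool) : pc h fr a σ ≤ (fwp h a σ).length := by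
  induction a generalizing σ with
  | nil => exact le_rfl
  | cons m a ih => exact (min_le_right _ _).trans (ih _)

theorem prog_mono (d : Dec) {σ τ : List Bool} (hp : σ <+: τ) : prog h fr d σ ≤ prog h fr d τ := by
  unfold prog
  have h1 : min (pc h fr (pa d) σ) (pc h fr (pb d) (fn (tsk h.length).1 σ)) ≤
      min (pc h fr (pa d) τ) (pc h fr (pb d) (fn (tsk h.length).1 τ)) :=
    min_le_min (pc_mono _ hp) (pc_mono _ (fn_mono _ hp))
  split_ifs
  · exact h1
  · exact min_le_min h1 (min_le_min (fn_mono _ (YY_mono h d hp)).length_le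
      (fn_mono _ (XX_mono h d hp)).length_le)
  · exact hp.length_le

end Pool.Agent.CMG
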