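import Pool.Agent.CMG.GPR
import Pool.Agent.CMG.GGN

/-!
# CMG/GPL: the path lemma

PROOF by induction on `|h| - m0`.  If `m0 = |h|` take `τ1 = τ`, `a = []`, `T1 = T` (`pc h fr [] σ = |σ|`, `fwp h [] σ = σ`).  Let `m0 < |h|`.
CASE 1: `Dns τ (fun σ => nf h (fire h) m0 (B σ))`.  Let `d = dh h m0`, `B' σ = fn (fi d) (B σ)`.  For every `ρ` extending `τ` there is (`exists_gen2` for `nf .. (B σ)` and
`|B σ|`) a sequence `X` extending `ρ` with `Y`, `Maps B X Y` (`exists_ext`) and `Fi h m0 Y` (`nf_inf`; `B (pre X s) = pre Y t`, `nf_mono`), hence `Act (h.take (m0 + 1)) Y Z`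
(`act_of_fi`) and `Maps B' X Z` (`dl_take`, `maps_comp`).  So: `|B' σ|` is dense (`dns_of_gen`, `maps_len`); and `B' ρ <+: Z`-prefix: by `Act.nZ` no `m < m0` fires at
`pre Z s` for `s > tt d` and by `act_self` `m0` does not fire at `pre Z s` for `s ≥ |la d|, |lb d|` (`fire_take`); so
`nofire (fire h) (m0 + 1) T' (B' ρ)` with `T' = max (tt d) (max |la d| |lb d|)`.  The induction hypothesis for `m0 + 1`, `B'`, `τ`, `T'` gives `τ1`, `a`, `T1`; take `m0 :: a`
(`dns_min`, `dns_anti`; `pc h fr (m0 :: a) (B σ) = min (nf ..) (pc h fr a (B' σ))`).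
CASE 2: otherwise there are `ρ` extending `τ` and `L` with `nf h (fire h) m0 (B σ) < L` for all `σ` extending `ρ`.  Let `ρ'` extend `ρ` with `nf .. (B ρ')` maximal.  Then
for all `σ` extending `ρ'` the pointer `m0` does not fire at the initial segments of `B σ` of length `> |B ρ'|` (`nf_lt`).  The induction hypothesis for `m0 + 1`, `B`, `ρ'`,
`max T |B ρ'|` (`nofire_le`, `nofire_iff`).
-/

set_option autoImplicit false

namespace Pool.Agent.CMG

open Encodable Nat.Partrec Pool.Agent.H19 Pool.Agent.AEI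

theorem path_lemma {h : Hist} (n : ℕ) : ∀ m0, m0 + n = h.length → ∀ (B : List Bool → List Bool),
    (∀ σ τ, σ <+: τ → B σ <+: B τ) → ∀ (τ : List Bool) (T : ℕ), Dns τ (fun σ => (B σ).length) →
    (∀ σ, τ <+: σ → nofire (fire h) m0 T (B σ) = true) →
    ∃ (τ1 : List Bool) (a : List ℕ) (T1 : ℕ), τ <+: τ1 ∧ (∀ m ∈ a, m < h.length) ∧
      Dns τ1 (fun σ => pc h (fire h) a (B σ)) ∧
      ∀ σ, τ1 <+: σ → nofire (fire h) h.length T1 (fwp h a (B σ)) = true := by
  induction n with
  | zero =>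
    intro m0 hm0 B hB τ T hD hN
    rw [Nat.add_zero] at hm0
    subst hm0
    exact ⟨τ, [], T, List.prefix_rfl, fun m hm => absurd hm (List.not_mem_nil), hD, hN⟩
  | succ n ih =>
    intro m0 hm0 B hB τ T hD hN
    have hlt : m0 < h.length := by omega
    by_cases hc : Dns τ (fun σ => nf h (fire h) m0 (B σ))
    · have hB' : ∀ σ ρ, σ <+: ρ → fn (fi (dh h m0)) (B σ) <+: fn (fi (dh h m0)) (B ρ) :=
        fun σ ρ hp => fn_mono _ (hB σ ρ hp)
      have key : ∀ ρ, τ <+: ρ → ∃ X Y Z : ℕ → Bool, pre X ρ.length = ρ ∧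
          Maps (fun σ => fn (fi (dh h m0)) (B σ)) X Z ∧ Act (h.take (m0 + 1)) Y Z := by
        intro ρ hρ
        obtain ⟨X, hX, h1, h2⟩ := exists_gen2 hc hD hρ
        obtain ⟨Y, hY⟩ := exists_ext (F := B) hB (X := X) h2
        have hF : Fi h m0 Y := (nf_inf hlt).1 fun L => by
          obtain ⟨s, hs⟩ := h1 L
          refine ⟨(B (pre X s)).length, ?_⟩
          rw [← maps_pre hB hY s]
          exact hs
        obtain ⟨Z, hZ⟩ := act_of_fi hlt hF
        have mF := hZ.mF
        rw [dl_take hlt] at mF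
        exact ⟨X, Y, Z, hX, maps_comp (F := B) hB (G := fn (fi (dh h m0)))
          (fun _ _ hp => fn_mono _ hp) hY mF, hZ⟩
      have hD' : Dns τ (fun σ => (fn (fi (dh h m0)) (B σ)).length) := by
        refine dns_of_gen (fun σ ρ hp => (hB' σ ρ hp).length_le) fun ρ hρ => ?_
        obtain ⟨X, Y, Z, hX, hM, -⟩ := key ρ hρ
        refine ⟨X, hX, fun L => ?_⟩
        obtain ⟨s, hs⟩ := maps_len hB' hM L
        exact ⟨s, hs s le_rfl⟩
      have hN' : ∀ σ, τ <+: σ → nofire (fire h) (m0 + 1)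
          (max (tt (dh h m0)) (max (la (dh h m0)).length (lb (dh h m0)).length))
          (fn (fi (dh h m0)) (B σ)) = true := by
        intro σ hσ
        obtain ⟨X, Y, Z, hX, hM, hA⟩ := key σ hσ
        have hpre := maps_pre hB' hM σ.length
        simp only [hX] at hpre
        rw [hpre, nofire_pre]
        intro m hm i _ hi
        have hlen : (h.take (m0 + 1)).length - 1 = m0 := by
          rw [List.length_take]; omega
        have hi1 : tt (dh h m0) < i := lt_of_le_of_lt (le_max_left _ _) hi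
        have hi2 : (la (dh h m0)).length ≤ i :=
          (lt_of_le_of_lt ((le_max_left _ _).trans (le_max_right _ _)) hi).le
        have hi3 : (lb (dh h m0)).length ≤ i :=
          (lt_of_le_of_lt ((le_max_right _ _).trans (le_max_right _ _)) hi).le
        rcases Nat.lt_succ_iff_lt_or_eq.1 hm with hm' | hm'
        · have h5 := hA.nZ m (by rw [hlen]; exact hm') i (by rw [dl_take hlt]; exact hi1)
          rw [fire_take hm] at h5
          exact h5
        · subst hm'
          have h5 := act_self hA (s := i) (by rw [dl_take hlt]; exact hi2) (by rw [dl_take hlt]; exact hi3)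
          rw [hlen, fire_take (Nat.lt_succ_self m)] at h5
          exact h5
      obtain ⟨τ1, a, T1, b1, b2, b3, b4⟩ := ih (m0 + 1) (by omega) (fun σ => fn (fi (dh h m0)) (B σ)) hB' τ _ hD' hN'
      refine ⟨τ1, m0 :: a, T1, b1, ?_, ?_, b4⟩
      · intro m hm
        rcases List.mem_cons.1 hm with hm | hm
        · rw [hm]; exact hlt
        · exact b2 m hm
      · exact dns_min (f := fun σ => nf h (fire h) m0 (B σ))
          (g := fun σ => pc h (fire h) a (fn (fi (dh h m0)) (B σ)))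
          (fun σ ρ hp => nf_mono (hB σ ρ hp)) (fun σ ρ hp => pc_mono a (hB' σ ρ hp)) (dns_anti b1 hc) b3
    · have hc' : ∃ ρ, τ <+: ρ ∧ ∃ L, ∀ σ, ρ <+: σ → nf h (fire h) m0 (B σ) < L := by
        by_contra hcon
        apply hc
        intro ρ hρ L
        by_contra hcon2
        apply hcon
        refine ⟨ρ, hρ, L, fun σ hσ => ?_⟩
        by_contra hcon3
        exact hcon2 ⟨σ, hσ, not_lt.1 hcon3⟩
      obtain ⟨ρ, hρ, L, hL⟩ := hc'
      -- maximal
      have hmax : ∃ ρ', ρ <+: ρ' ∧ ∀ σ, ρ' <+: σ → nf h (fire h) m0 (B σ) ≤ nf h (fire h) m0 (B ρ') := by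
        have H : ∀ k, ∀ ρ1, ρ <+: ρ1 → L ≤ nf h (fire h) m0 (B ρ1) + k →
            ∃ ρ', ρ <+: ρ' ∧ ∀ σ, ρ' <+: σ → nf h (fire h) m0 (B σ) ≤ nf h (fire h) m0 (B ρ') := by
          intro k
          induction k with
          | zero =>
            intro ρ1 h1 h2
            exact absurd (hL ρ1 h1) (not_lt.2 h2)
          | succ k ihk =>
            intro ρ1 h1 h2
            by_cases hex : ∀ σ, ρ1 <+: σ → nf h (fire h) m0 (B σ) ≤ nf h (fire h) m0 (B ρ1)
            · exact ⟨ρ1, h1, hex⟩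
            · push Not at hex
              obtain ⟨σ, hσ, hlt2⟩ := hex
              exact ihk σ (h1.trans hσ) (by omega)
        exact H L ρ List.prefix_rfl (Nat.le_add_left _ _)
      obtain ⟨ρ', hρ', hmx⟩ := hmax
      have hN' : ∀ σ, ρ' <+: σ → nofire (fire h) (m0 + 1) (max T (B ρ').length) (B σ) = true := by
        intro σ hσ
        rw [nofire_iff]
        intro m hm i hi hTi
        rcases Nat.lt_succ_iff_lt_or_eq.1 hm with hm' | hm'
        · exact (nofire_iff.1 (hN σ ((hρ.trans hρ').trans hσ))) m hm' i hi (lt_of_le_of_lt (le_max_left _ _) hTi)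
        · subst hm'
          by_contra hne
          rw [Bool.not_eq_false] at hne
          exact absurd (nf_lt (h := h) (hB _ _ hσ) hlt (lt_of_le_of_lt (le_max_right _ _) hTi) hi hne) (not_lt.2 (hmx σ hσ))
      obtain ⟨τ1, a, T1, b1, b2, b3, b4⟩ := ih (m0 + 1) (by omega) B hB ρ' _ (dns_anti (hρ.trans hρ') hD) hN'
      exact ⟨τ1, a, T1, (hρ.trans hρ').trans b1, b2, b3, b4⟩

end Pool.Agent.CMG
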