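import Pool.Agent.CMG.GCD
import Pool.Agent.CMG.GPO

/-!
# CMG/GSY: the pointer system

(The definition is complete, nothing to prove here except `q_gsys`.)
-/

set_option autoImplicit false

namespace Pool.Agent.CMG

open Encodable Nat.Partrec Pool.Agent.H19 Pool.Agent.AEI

/-- The pointer system of the generic sequences. -/
def gsys : PSys where
  F p σ := fn (fi (dl (hh p))) σ
  G p σ := fn (gi (dl (hh p))) σ
  q p σ := vld p && fire (hh p) ((hh p).length - 1) σ
  compF := by
    refine comp_fn (comp_fi (comp_dl (comp_hh Computable.fst))) Computable.snd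
  compG := by
    refine comp_fn (comp_gi (comp_dl (comp_hh Computable.fst))) Computable.snd
  compq := by
    refine comp_and (comp_vld Computable.fst) (comp_fire (comp_hh Computable.fst) ?_ Computable.snd)
    exact (Primrec.nat_sub.to_comp).comp (Computable.list_length.comp (comp_hh Computable.fst)) (Computable.const 1)
  monoF _ _ _ h := fn_mono _ h
  monoG _ _ _ h := fn_mono _ h
  lenF _ _ := fn_len _ _
  lenG _ _ := fn_len _ _

theorem q_gsys {p : ℕ} {σ : List Bool} :
    gsys.q p σ = true ↔ vld p = true ∧ fire (hh p) ((hh p).length - 1) σ = true := by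
  show (vld p && fire (hh p) ((hh p).length - 1) σ) = true ↔ _
  rw [Bool.and_eq_true]

theorem F_gsys (p : ℕ) : gsys.F p = fn (fi (dl (hh p))) := rfl

theorem G_gsys (p : ℕ) : gsys.G p = fn (gi (dl (hh p))) := rfl

end Pool.Agent.CMG
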