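import Pool.Agent.CMG.GXB
import Pool.Agent.CMG.GUQ

/-!
# CMG/GTS: the true sequence of decisions

By `exists_acc` and `exists_ex` choose for every history `g` numbers `st g = (c, k)` with `Acc g c` and
`Ex g c k`; let `hs 0 = []`, `hs (n + 1) = hs n ++ [st (hs n)]`, `u n = st (hs n)`.
-/

set_option autoImplicit false

namespace Pool.Agent.CMG

open Encodable Nat.Partrec Pool.Agent.H19 Pool.Agent.AEI

theorem Hn_len (u : ℕ → ℕ × ℕ) (n : ℕ) : (Hn u n).length = n := by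
  rw [Hn, List.length_map, List.length_range]

theorem Hn_succ (u : ℕ → ℕ × ℕ) (n : ℕ) : Hn u (n + 1) = Hn u n ++ [u n] := by
  rw [Hn, List.range_succ, List.map_append, List.map_singleton, ← Hn]

theorem Hn_take (u : ℕ → ℕ × ℕ) {m n : ℕ} (hm : m ≤ n) : (Hn u n).take m = Hn u m := by
  rw [Hn, ← List.map_take, List.take_range, min_eq_left hm, ← Hn]

theorem getD_Hn (u : ℕ → ℕ × ℕ) (n : ℕ) : (Hn u (n + 1)).getD n (0, 0) = u n := by
  rw [Hn_succ, List.getD_eq_getElem?_getD, List.getElem?_append_right (Hn_len u n).le, Hn_len]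
  simp

theorem dl_Hn (u : ℕ → ℕ × ℕ) (n : ℕ) : dl (Hn u (n + 1)) = dec (u n).1 := by
  rw [dl, Hn_len, Nat.add_sub_cancel, dh, ch, getD_Hn]

theorem exists_st : ∃ st : Hist → ℕ × ℕ, ∀ g, Acc g (st g).1 ∧ Ex g (st g).1 (st g).2 := by
  have h : ∀ g : Hist, ∃ x : ℕ × ℕ, Acc g x.1 ∧ Ex g x.1 x.2 := by
    intro g
    obtain ⟨c, k, h1, h2⟩ := exists_ex (exists_acc g)
    exact ⟨(c, k), h1, h2⟩
  choose st hst using h
  exact ⟨st, hst⟩

theorem exists_seq : ∃ u : ℕ → ℕ × ℕ, ∀ n, GoodH (Hn u n) := by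
  obtain ⟨st, hst⟩ := exists_st
  let hs : ℕ → Hist := fun n => Nat.rec [] (fun _ g => g ++ [st g]) n
  have hs0 : hs 0 = [] := rfl
  have hs1 : ∀ n, hs (n + 1) = hs n ++ [st (hs n)] := fun n => rfl
  have e : ∀ n, Hn (fun n => st (hs n)) n = hs n := by
    intro n
    induction n with
    | zero => rfl
    | succ n ih => rw [Hn_succ, ih, hs1]
  refine ⟨fun n => st (hs n), fun n => ?_⟩
  rw [e]
  induction n with
  | zero => exact good_nil
  | succ n ih =>
    rw [hs1]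
    have h := hst (hs n)
    exact good_append (c := (st (hs n)).1) (k := (st (hs n)).2) ih h.1 h.2

theorem acc_u {u : ℕ → ℕ × ℕ} (hu : ∀ n, GoodH (Hn u n)) (n : ℕ) : Acc (Hn u n) (u n).1 := by
  have h := (hu (n + 1) n (by rw [Hn_len]; exact Nat.lt_succ_self n)).1
  rwa [Hn_take u (Nat.le_succ n), ch, getD_Hn] at h

end Pool.Agent.CMG
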