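import Pool.Agent.CMG.GAC
import Pool.Agent.CMG.GGN

/-!
# CMG/GXA: right decisions exist: preparations

PROOFS.  `acc_zero`: the decision `((σ0, (0, x)), (([], []), (([], []), (0, 0))))`; `acc_iff_dns`; `prog` is the length.
`eq_or`: suppose there are no such `σ0`, `x`.  If `σ` extends `τ0` but `eqs h σ` is not an initial segment of `σ`, then for some `x < |eqs h σ|` (`≤ |σ|`) the entries number `x`
differ, also for all extensions of `σ` (`eqs_mono`); contradiction.  For `L` and `σ` extending `τ0` there is an extension `σ'` with `L < |eqs h σ'|`.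
-/

set_option autoImplicit false

namespace Pool.Agent.CMG

open Encodable Nat.Partrec Pool.Agent.H19 Pool.Agent.AEI

theorem acc_zero {h : Hist} {σ0 : List Bool} {x : ℕ} (h0 : (tsk h.length).2.2 <+: σ0)
    (hx : ∀ σ, σ0 <+: σ → ¬ (x < (eqs h σ).length ∧ (eqs h σ)[x]? = σ[x]?)) : ∃ c, Acc h c := by
  refine ⟨encode (((σ0, (0, x)), (([], []), (([], []), (0, 0)))) : Dec), ?_⟩
  rw [acc_iff_dns, dec_encode]
  refine ⟨?_, ?_, ?_⟩
  · simp only [stat, dtau, pa, pb, kd, List.all_nil, Bool.and_true, Bool.and_eq_true,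
      Bool.or_eq_true]
    refine ⟨isPre_iff.2 h0, Or.inl ?_⟩
    simp
  · intro σ hσ
    have h1 := hx σ hσ
    have hk : kd (((σ0, (0, x)), (([], []), (([], []), (0, 0)))) : Dec) = 0 := rfl
    have ht : tt (((σ0, (0, x)), (([], []), (([], []), (0, 0)))) : Dec) = x := rfl
    unfold okd
    rw [hk, ht, if_neg (by omega), if_neg (by omega)]
    rw [Bool.not_eq_true', Bool.and_eq_false_iff]
    by_cases h2 : x < (eqs h σ).length
    · right
      rw [decide_eq_false_iff_not]
      exact fun h3 => h1 ⟨h2, h3⟩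
    · left
      rw [decide_eq_false_iff_not]
      exact h2
  · intro ρ hρ L
    refine ⟨ρ ++ List.replicate L false, List.prefix_append _ _, ?_⟩
    have hk : kd (((σ0, (0, x)), (([], []), (([], []), (0, 0)))) : Dec) = 0 := rfl
    unfold prog
    rw [hk, if_neg (by omega), if_neg (by omega)]
    simp

theorem eq_or (h : Hist) : (∃ c, Acc h c) ∨ ((∀ σ, (tsk h.length).2.2 <+: σ → eqs h σ <+: σ) ∧
    Dns (tsk h.length).2.2 fun σ => (eqs h σ).length) := by
  by_cases H : ∃ σ0 x, (tsk h.length).2.2 <+: σ0 ∧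
      ∀ σ, σ0 <+: σ → ¬ (x < (eqs h σ).length ∧ (eqs h σ)[x]? = σ[x]?)
  · obtain ⟨σ0, x, h0, hx⟩ := H
    exact Or.inl (acc_zero h0 hx)
  · right
    have H' : ∀ σ0 x, (tsk h.length).2.2 <+: σ0 →
        ∃ σ, σ0 <+: σ ∧ x < (eqs h σ).length ∧ (eqs h σ)[x]? = σ[x]? := by
      intro σ0 x h0
      by_contra hc
      refine H ⟨σ0, x, h0, fun σ hσ hh => hc ⟨σ, hσ, hh⟩⟩
    refine ⟨?_, ?_⟩
    · intro σ hσ
      rw [List.prefix_iff_getElem?]
      intro x hx
      obtain ⟨σ', h1, h2, h3⟩ := H' σ x hσ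
      have h4 := List.prefix_iff_getElem?.1 (eqs_mono h h1) x hx
      have h5 : x < σ.length := lt_of_lt_of_le hx (eqs_len h σ)
      have h6 := List.prefix_iff_getElem?.1 h1 x h5
      rw [h6] at h3
      rw [h4] at h3
      rw [h3]
      exact List.getElem?_eq_getElem h5
    · intro ρ hρ L
      obtain ⟨σ, h1, h2, h3⟩ := H' ρ L hρ
      exact ⟨σ, h1, h2.le⟩

end Pool.Agent.CMG
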