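import Pool.Agent.CMG.GXC
import Pool.Agent.CMG.GUV

/-!
# CMG/GXB: right decisions exist

PROOFS.  `acc_one`: the decision `((τ, (1, T)), ((a, b), (([], []), (0, 0))))`, `acc_iff_dns`, `dns_min`.
`acc_two`: let `i`, `j` be the task.  `Hf σ = fwp h a (fn j (bkp h b σ))`, `Hg σ = fwp h b (fn i (bkp h a σ))` are computable (`comp_fwp1`, `comp_bkp1`: induction on `a`)
and monotone; take indices `f`, `g` for them (`exists_fn`).  Let `la = fwp h a τ`, `lb = fwp h b (fn i τ)` and take the decision `((τ, (2, T)), ((a, b), ((la, lb), (f, g))))`.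
For the sequences of `sit_real`: `Maps (fn f) Y' X'` and `Maps (fn g) X' Y'` (`maps_fwp`, `maps_bkp`, `maps_comp`).  `okd` at `σ` extending `τ`: `la`, `lb` by monotonicity;
`compat (fn f (YY σ)) (XX σ)`: take the sequences of `sit_real` for `ρ = σ`; `XX σ` is an initial segment of `X'` (`maps_pre`) and `YY σ` one of `Y'`, so `fn f (YY σ)` is one of
`X'` too (`compat_of_prefix`).  The progress: `pc` by `Sit`, the lengths by `dns_of_gen` (with the sequences of `sit_real`: `|YY (pre X s)|` and `|fn f (pre Y' t)|` are unbounded),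
all four together by `dns_min`.
`exists_acc`: `eq_or`, `exists_sit`; if `compat (fwp h a σ) (fwp h b (fn i σ)) = false` for some `σ` extending `τ` use `Sit.ext` and `acc_two`, otherwise `acc_one`.
-/

set_option autoImplicit false

namespace Pool.Agent.CMG

open Encodable Nat.Partrec Pool.Agent.H19 Pool.Agent.AEI

theorem comp_fwp1 (h : Hist) (a : List ℕ) : Computable fun σ => fwp h a σ := by
  induction a with
  | nil => exact Computable.id
  | cons m a ih => exact ih.comp (comp_fn (Computable.const (fi (dh h m))) Computable.id)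

theorem comp_bkp1 (h : Hist) (a : List ℕ) : Computable fun σ => bkp h a σ := by
  induction a with
  | nil => exact Computable.id
  | cons m a ih => exact comp_fn (Computable.const (gi (dh h m))) ih

private theorem gxb_pc2_mono (h : Hist) (i : ℕ) (b : List ℕ) : ∀ σ ρ : List Bool, σ <+: ρ →
    pc h (fire h) b (fn i σ) ≤ pc h (fire h) b (fn i ρ) :=
  fun _ _ hp => pc_mono b (fn_mono i hp)

theorem acc_one {h : Hist} {τ : List Bool} {a b : List ℕ} {T : ℕ} (hS : Sit h τ a b T)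
    (hc : ∀ σ, τ <+: σ → compat (fwp h a σ) (fwp h b (fn (tsk h.length).1 σ)) = true) : ∃ c, Acc h c := by
  refine ⟨encode (((τ, (1, T)), ((a, b), (([], []), (0, 0)))) : Dec), ?_⟩
  rw [acc_iff_dns, dec_encode]
  refine ⟨?_, ?_, ?_⟩
  · simp only [stat, dtau, pa, pb, kd, la, lb, Bool.and_eq_true, Bool.or_eq_true, Bool.not_eq_true', List.all_eq_true,
      decide_eq_true_eq, decide_eq_false_iff_not, isPre_iff]
    exact ⟨⟨hS.t0, hS.ia, hS.ib⟩, Or.inl (by norm_num)⟩
  · intro σ hσ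
    have hσ' : τ <+: σ := hσ
    simp only [okd, kd, tt, if_true, Bool.and_eq_true]
    exact ⟨⟨hS.na σ hσ', hS.nb σ hσ'⟩, hc σ hσ'⟩
  · have h1 := dns_min (fun σ ρ hp => pc_mono (h := h) (fr := fire h) a hp) (gxb_pc2_mono h (tsk h.length).1 b)
      hS.da hS.db
    exact h1

theorem acc_two {h : Hist} {τ : List Bool} {a b : List ℕ} {T : ℕ} (hS : Sit h τ a b T)
    (hc : compat (fwp h a τ) (fwp h b (fn (tsk h.length).1 τ)) = false) : ∃ c, Acc h c := by
  obtain ⟨f, hf⟩ := exists_fn (H := fun σ => fwp h a (fn (tsk h.length).2.1 (bkp h b σ)))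
    ((comp_fwp1 h a).comp (comp_fn (Computable.const _) (comp_bkp1 h b)))
    (fun σ ρ hp => fwp_mono h a (fn_mono _ (bkp_mono h b hp)))
  obtain ⟨g, hg⟩ := exists_fn (H := fun σ => fwp h b (fn (tsk h.length).1 (bkp h a σ)))
    ((comp_fwp1 h b).comp (comp_fn (Computable.const _) (comp_bkp1 h a)))
    (fun σ ρ hp => fwp_mono h b (fn_mono _ (bkp_mono h a hp)))
  have fm : ∀ e (σ ρ : List Bool), σ <+: ρ → fn e σ <+: fn e ρ := fun e σ ρ hp => fn_mono e hp
  -- the sequences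
  have key : ∀ ρ, τ <+: ρ → ∃ X X' Y' : ℕ → Bool, pre X ρ.length = ρ ∧
      Maps (fun σ => fwp h a σ) X X' ∧ Maps (fun σ => fwp h b (fn (tsk h.length).1 σ)) X Y' ∧
      Maps (fun σ => fn f (fwp h b (fn (tsk h.length).1 σ))) X X' ∧
      Maps (fun σ => fn g (fwp h a σ)) X Y' := by
    intro ρ hρ
    obtain ⟨X, Y, X', Y', hX, hi, hj, hA, hB⟩ := sit_real hS hρ
    have e1 : Maps (fwp h a) X X' := maps_fwp hA
    have e2 : Maps (fwp h b) Y Y' := maps_fwp hB
    have e3 : Maps (bkp h a) X' X := maps_bkp hA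
    have e4 : Maps (bkp h b) Y' Y := maps_bkp hB
    have e5 : Maps (fun σ => fwp h b (fn (tsk h.length).1 σ)) X Y' :=
      maps_comp (fm _) (fun σ ρ hp => fwp_mono h b hp) hi e2
    have e6 : Maps (fn f) Y' X' := hf _ _ (maps_comp (F := fun σ => fn (tsk h.length).2.1 (bkp h b σ))
      (fun σ ρ hp => fn_mono _ (bkp_mono h b hp)) (fun σ ρ hp => fwp_mono h a hp)
      (maps_comp (fun σ ρ hp => bkp_mono h b hp) (fm _) e4 hj) e1)
    have e7 : Maps (fn g) X' Y' := hg _ _ (maps_comp (F := fun σ => fn (tsk h.length).1 (bkp h a σ))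
      (fun σ ρ hp => fn_mono _ (bkp_mono h a hp)) (fun σ ρ hp => fwp_mono h b hp)
      (maps_comp (fun σ ρ hp => bkp_mono h a hp) (fm _) e3 hi) e2)
    refine ⟨X, X', Y', hX, e1, e5, ?_, ?_⟩
    · exact maps_comp (F := fun σ => fwp h b (fn (tsk h.length).1 σ)) (fun σ ρ hp => fwp_mono h b (fn_mono _ hp))
        (fm _) e5 e6
    · exact maps_comp (F := fwp h a) (fun σ ρ hp => fwp_mono h a hp) (fm _) e1 e7
  have mYf : ∀ σ ρ : List Bool, σ <+: ρ → fn f (fwp h b (fn (tsk h.length).1 σ)) <+: fn f (fwp h b (fn (tsk h.length).1 ρ)) :=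
    fun σ ρ hp => fn_mono _ (fwp_mono h b (fn_mono _ hp))
  have mXg : ∀ σ ρ : List Bool, σ <+: ρ → fn g (fwp h a σ) <+: fn g (fwp h a ρ) :=
    fun σ ρ hp => fn_mono _ (fwp_mono h a hp)
  have cp : ∀ {Z : ℕ → Bool} {σ ρ : List Bool}, σ = pre Z σ.length → ρ = pre Z ρ.length → compat σ ρ = true := by
    intro Z σ ρ h1 h2
    refine compat_of_prefix (υ := pre Z (max σ.length ρ.length)) ?_ ?_
    · conv_lhs => rw [h1]
      exact pre_mono Z (le_max_left _ _)
    · conv_lhs => rw [h2]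
      exact pre_mono Z (le_max_right _ _)
  refine ⟨encode (((τ, (2, T)), ((a, b), ((fwp h a τ, fwp h b (fn (tsk h.length).1 τ)), (f, g)))) : Dec), ?_⟩
  rw [acc_iff_dns, dec_encode]
  refine ⟨?_, ?_, ?_⟩
  · simp only [stat, dtau, pa, pb, kd, la, lb, Bool.and_eq_true, Bool.or_eq_true, Bool.not_eq_true', List.all_eq_true,
      decide_eq_true_eq, decide_eq_false_iff_not, isPre_iff]
    exact ⟨⟨hS.t0, hS.ia, hS.ib⟩, Or.inr hc⟩
  · intro σ hσ
    have hσ' : τ <+: σ := hσ
    obtain ⟨X, X', Y', hX, m1, m2, m3, m4⟩ := key σ hσ'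
    have p1 := maps_pre (fun σ ρ hp => fwp_mono h a hp) m1 σ.length
    have p2 := maps_pre (fun σ ρ hp => fwp_mono h b (fn_mono _ hp)) m2 σ.length
    have p3 := maps_pre mYf m3 σ.length
    have p4 := maps_pre mXg m4 σ.length
    rw [hX] at p1 p2 p3 p4
    have hk : ¬ ((2 : ℕ) = 1) := by norm_num
    simp only [okd, kd, tt, la, lb, fi, gi, XX, YY, pa, pb, if_true, if_neg hk, Bool.and_eq_true, isPre_iff]
    exact ⟨⟨⟨hS.na σ hσ', hS.nb σ hσ'⟩, fwp_mono h a hσ', fwp_mono h b (fn_mono _ hσ')⟩, cp p3 p1, cp p4 p2⟩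
  · have d3 : Dns τ fun σ => (fn f (fwp h b (fn (tsk h.length).1 σ))).length := by
      refine dns_of_gen (fun σ ρ hp => (mYf σ ρ hp).length_le) fun ρ hρ => ?_
      obtain ⟨X, X', Y', hX, m1, m2, m3, m4⟩ := key ρ hρ
      refine ⟨X, hX, fun L => ?_⟩
      obtain ⟨s0, hs⟩ := maps_len mYf m3 L
      exact ⟨s0, hs s0 le_rfl⟩
    have d4 : Dns τ fun σ => (fn g (fwp h a σ)).length := by
      refine dns_of_gen (fun σ ρ hp => (mXg σ ρ hp).length_le) fun ρ hρ => ?_
      obtain ⟨X, X', Y', hX, m1, m2, m3, m4⟩ := key ρ hρ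
      refine ⟨X, hX, fun L => ?_⟩
      obtain ⟨s0, hs⟩ := maps_len mXg m4 L
      exact ⟨s0, hs s0 le_rfl⟩
    have h1 := dns_min (fun σ ρ hp => pc_mono (h := h) (fr := fire h) a hp) (gxb_pc2_mono h (tsk h.length).1 b)
      hS.da hS.db
    have h2 := dns_min (fun σ ρ hp => (mYf σ ρ hp).length_le) (fun σ ρ hp => (mXg σ ρ hp).length_le) d3 d4
    have h3 := dns_min
      (fun σ ρ hp => min_le_min (pc_mono (h := h) (fr := fire h) a hp) (gxb_pc2_mono h (tsk h.length).1 b σ ρ hp))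
      (fun σ ρ hp => min_le_min (mYf σ ρ hp).length_le (mXg σ ρ hp).length_le) h1 h2
    exact h3

theorem exists_acc (h : Hist) : ∃ c, Acc h c := by
  rcases eq_or h with h0 | ⟨h1, h2⟩
  · exact h0
  · obtain ⟨τ, a, b, T, hS⟩ := exists_sit h1 h2
    by_cases hc : ∀ σ, τ <+: σ → compat (fwp h a σ) (fwp h b (fn (tsk h.length).1 σ)) = true
    · exact acc_one hS hc
    · push Not at hc
      obtain ⟨σ, hσ, hn⟩ := hc
      exact acc_two (hS.ext hσ) (by simpa using hn)

end Pool.Agent.CMG
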