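import Pool.Agent.CMG.GPL
import Pool.Agent.CMG.GXA

/-!
# CMG/GXC: right decisions exist: the situation below some string

PROOFS.  `exists_sit`: the path lemma (`m0 = 0`, `n = |h|`, `T = 0`; `nofire fr 0 T σ = true` is trivial) with `B σ = σ` below `τ0 = (tsk h.length).2.2`, then with `B = fn i` below
the string obtained (`|eqs h σ| ≤ |fn i σ|` by `fn_len`; `dns_le`, `dns_anti`); `T` the maximum (`nofire_le`).
`sit_real`: `exists_gen` for the family `g 0 = pc .. a σ`, `g 1 = pc .. b (fn i σ)`, `g (k + 2) = |eqs h σ|`.  `|fn i (pre X s)|` is unbounded, so `Y` (`exists_ext`);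
`Maps (fn j) Y X`: `fn j (fn i (pre X s)) = eqs h (pre X s)` is an initial segment of `pre X s` for `s ≥ |ρ|` and `fn i (pre X s) = pre Y t`.  `actP_of_pc` for `X` and for
`Y` (`fn i (pre X s) = pre Y t`).
-/

set_option autoImplicit false

namespace Pool.Agent.CMG

open Encodable Nat.Partrec Pool.Agent.H19 Pool.Agent.AEI

theorem exists_sit {h : Hist} (h1 : ∀ σ, (tsk h.length).2.2 <+: σ → eqs h σ <+: σ)
    (h2 : Dns (tsk h.length).2.2 fun σ => (eqs h σ).length) : ∃ τ a b T, Sit h τ a b T := by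
  have hz : ∀ (B : List Bool → List Bool) (τ σ : List Bool), τ <+: σ → nofire (fire h) 0 0 (B σ) = true := by
    intro B τ σ _
    rw [nofire_iff]
    intro m hm
    exact absurd hm (Nat.not_lt_zero m)
  obtain ⟨τ1, a, T1, a1, a2, a3, a4⟩ := path_lemma (h := h) h.length 0 (Nat.zero_add _) (fun σ => σ)
    (fun _ _ hp => hp) (tsk h.length).2.2 0 (dns_le (fun σ _ => eqs_len h σ) h2)
    (hz (fun σ => σ) (tsk h.length).2.2)
  obtain ⟨τ2, b, T2, b1, b2, b3, b4⟩ := path_lemma (h := h) h.length 0 (Nat.zero_add _) (fn (tsk h.length).1)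
    (fun _ _ hp => fn_mono _ hp) τ1 0
    (dns_anti a1 (dns_le (fun σ _ => fn_len (tsk h.length).2.1 (fn (tsk h.length).1 σ)) h2))
    (hz (fn (tsk h.length).1) τ1)
  exact ⟨τ2, a, b, max T1 T2,
    { t0 := a1.trans b1
      ia := a2
      ib := b2
      ep := fun σ hσ => h1 σ ((a1.trans b1).trans hσ)
      ed := dns_anti (a1.trans b1) h2
      da := dns_anti b1 a3
      db := b3
      na := fun σ hσ => nofire_le (le_max_left _ _) (a4 σ (b1.trans hσ))
      nb := fun σ hσ => nofire_le (le_max_right _ _) (b4 σ hσ) }⟩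

theorem Sit.ext {h : Hist} {τ τ' : List Bool} {a b : List ℕ} {T : ℕ} (hS : Sit h τ a b T) (hp : τ <+: τ') :
    Sit h τ' a b T where
  t0 := hS.t0.trans hp
  ia := hS.ia
  ib := hS.ib
  ep := fun σ hσ => hS.ep σ (hp.trans hσ)
  ed := dns_anti hp hS.ed
  da := dns_anti hp hS.da
  db := dns_anti hp hS.db
  na := fun σ hσ => hS.na σ (hp.trans hσ)
  nb := fun σ hσ => hS.nb σ (hp.trans hσ)

theorem sit_real {h : Hist} {τ ρ : List Bool} {a b : List ℕ} {T : ℕ} (hS : Sit h τ a b T) (hρ : τ <+: ρ) :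
    ∃ X Y X' Y' : ℕ → Bool, pre X ρ.length = ρ ∧ Maps (fn (tsk h.length).1) X Y ∧ Maps (fn (tsk h.length).2.1) Y X ∧
      ActP h a X X' ∧ ActP h b Y Y' := by
  obtain ⟨X, hX, hg⟩ := exists_gen (τ := τ) (ρ := ρ)
    (g := fun k σ => if k = 0 then pc h (fire h) a σ else
      if k = 1 then pc h (fire h) b (fn (tsk h.length).1 σ) else (eqs h σ).length)
    (fun k => by
      by_cases hk : k = 0
      · simpa only [hk, if_true] using hS.da
      · by_cases hk1 : k = 1
        · simpa only [hk1, one_ne_zero, if_false, if_true] using hS.db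
        · simpa only [hk, hk1, if_false] using hS.ed) hρ
  have ga : ∀ L, ∃ s, L ≤ pc h (fire h) a (pre X s) := by
    intro L
    obtain ⟨s, hs⟩ := hg 0 L
    exact ⟨s, by simpa using hs⟩
  have gb : ∀ L, ∃ s, L ≤ pc h (fire h) b (fn (tsk h.length).1 (pre X s)) := by
    intro L
    obtain ⟨s, hs⟩ := hg 1 L
    exact ⟨s, by simpa using hs⟩
  have ge : ∀ L, ∃ s, L ≤ (eqs h (pre X s)).length := by
    intro L
    obtain ⟨s, hs⟩ := hg 2 L
    exact ⟨s, by simpa using hs⟩
  have hmi : ∀ σ τ : List Bool, σ <+: τ → fn (tsk h.length).1 σ <+: fn (tsk h.length).1 τ := fun _ _ hp => fn_mono _ hp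
  obtain ⟨Y, hY⟩ := exists_ext hmi (X := X) (fun L => by
    obtain ⟨s, hs⟩ := ge L
    exact ⟨s, hs.trans (fn_len _ _)⟩)
  have hYX : Maps (fn (tsk h.length).2.1) Y X := by
    refine maps_of (fun t => ?_) (fun L => ?_)
    · obtain ⟨s0, hs0⟩ := maps_len hmi hY t
      have hs := hs0 (max s0 ρ.length) (le_max_left _ _)
      have h3 := maps_pre hmi hY (max s0 ρ.length)
      have h4 : pre Y t <+: fn (tsk h.length).1 (pre X (max s0 ρ.length)) := by
        rw [h3]; exact pre_mono Y hs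
      have h5 : fn (tsk h.length).2.1 (pre Y t) <+: eqs h (pre X (max s0 ρ.length)) := fn_mono _ h4
      have h6 : ρ <+: pre X (max s0 ρ.length) := by
        have := pre_mono X (le_max_right s0 ρ.length)
        rw [hX] at this
        exact this
      exact eq_pre_of_prefix (h5.trans (hS.ep _ (hρ.trans h6)))
    · obtain ⟨s, hs⟩ := ge L
      refine ⟨(fn (tsk h.length).1 (pre X s)).length, ?_⟩
      rw [← maps_pre hmi hY s]
      exact hs
  obtain ⟨X', hX'⟩ := actP_of_pc hS.ia ga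
  obtain ⟨Y', hY'⟩ := actP_of_pc (X := Y) hS.ib (fun L => by
    obtain ⟨s, hs⟩ := gb L
    refine ⟨(fn (tsk h.length).1 (pre X s)).length, ?_⟩
    rw [← maps_pre hmi hY s]
    exact hs)
  exact ⟨X, Y, X', Y', hX, hY, hYX, hX', hY'⟩

end Pool.Agent.CMG
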