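import Pool.Agent.CMG.VLM
import Pool.Agent.CMG.CGR

/-!
# CMG/NEW: what happens at one stage

PROOF.  `Dt_append` and the definition of `step`: case distinction on `((List.range c).filter ..).head?` (`none` iff no `n < c` with
`act .. n σ`; `some n`: `n < c`, `act .. n σ = true` and `act .. m σ = false` for `m < n`, because `List.range` is increasing: write
`List.range c = List.range n ++ ..` or use `List.find?`: `List.head?_filter`, `List.find?_range_eq_some`).  `cc`: the same.
-/

set_option autoImplicit false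

namespace Pool.Agent.CMG

open Encodable Nat.Partrec Pool.Agent.H19 Pool.Agent.AEI

variable {P : PSys}

private theorem NEW_none {c : ℕ} {f : ℕ → Bool} (h : ((List.range c).filter f).head? = Option.none) :
    ∀ n < c, f n = false := by
  rw [List.head?_filter, List.find?_range_eq_none] at h
  intro n hn
  have := h n hn
  simpa using this

private theorem NEW_some {c n : ℕ} {f : ℕ → Bool} (h : ((List.range c).filter f).head? = Option.some n) :
    n < c ∧ f n = true ∧ ∀ m < n, f m = false := by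
  rw [List.head?_filter, List.find?_range_eq_some] at h
  obtain ⟨h1, h2, h3⟩ := h
  refine ⟨List.mem_range.mp h2, by simpa using h1, fun m hm => ?_⟩
  have := h3 m hm
  simpa using this

theorem cc_le (ρ : List Bool) : cc P ρ ≤ ρ.length := by
  unfold cc
  cases h : ((List.range ρ.length).filter fun p => P.q p ρ).head? with
  | none => exact le_refl _
  | some n => exact (NEW_some h).1.le

theorem q_of_cc {ρ : List Bool} (h : cc P ρ < ρ.length) : P.q (cc P ρ) ρ = true := by
  unfold cc at h ⊢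
  cases h' : ((List.range ρ.length).filter fun p => P.q p ρ).head? with
  | none =>
    rw [h'] at h
    exact absurd h (lt_irrefl _)
  | some n => exact (NEW_some h').2.1

theorem cc_le_of_q {ρ : List Bool} {p : ℕ} (hp : p < ρ.length) (h : P.q p ρ = true) : cc P ρ ≤ p := by
  unfold cc
  cases h' : ((List.range ρ.length).filter fun p => P.q p ρ).head? with
  | none => exact absurd (h.symm.trans (NEW_none h' p hp)) (by decide)
  | some n =>
    refine not_lt.mp fun hlt => ?_
    exact absurd (h.symm.trans ((NEW_some h').2.2 p hlt)) (by decide)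

private theorem NEW_cases (σ : List Bool) (b : Bool) :
    (∃ n < cc P (σ ++ [b]), act P (Dt P) n σ = true ∧ (∀ m < n, act P (Dt P) m σ = false) ∧
      Dt P (σ ++ [b]) = (n + 1, if decide (ty n = 0) then [yy n (wt P (Dt P) n σ)] else [])) ∨
    ((∀ n < cc P (σ ++ [b]), act P (Dt P) n σ = false) ∧
      Dt P (σ ++ [b]) = (0, if decide (cc P (σ ++ [b]) < σ.length + 1) then
        ((V (Dt P) (P.F (cc P (σ ++ [b])) σ)).map (Nat.pair (cc P (σ ++ [b]) + 1))).filter
          fun x => decide (lastA P (Dt P) (cc P (σ ++ [b])) σ ≤ x) else [])) := by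
  rw [Dt_append]
  unfold step
  cases h' : ((List.range (cc P (σ ++ [b]))).filter fun n => act P (Dt P) n σ).head? with
  | none => exact Or.inr ⟨NEW_none h', rfl⟩
  | some n =>
    obtain ⟨h1, h2, h3⟩ := NEW_some h'
    exact Or.inl ⟨n, h1, h2, h3, rfl⟩

/-- If the requirement `n` acts, it is below the pointer and wanted to act. -/
theorem act_of_fst {σ : List Bool} {b : Bool} {n : ℕ} (h : (Dt P (σ ++ [b])).1 = n + 1) :
    n < cc P (σ ++ [b]) ∧ act P (Dt P) n σ = true := by
  rcases NEW_cases (P := P) σ b with ⟨n', h1, h2, -, h4⟩ | ⟨-, h4⟩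
  · rw [h4] at h
    have : n' = n := Nat.succ.inj h
    exact this ▸ ⟨h1, h2⟩
  · rw [h4] at h
    exact absurd h (Nat.succ_ne_zero n).symm

/-- If `n` wants to act, some requirement `≤ n` acts. -/
theorem exists_act {σ : List Bool} {b : Bool} {n : ℕ} (hn : n < cc P (σ ++ [b])) (h : act P (Dt P) n σ = true) :
    ∃ m ≤ n, (Dt P (σ ++ [b])).1 = m + 1 := by
  rcases NEW_cases (P := P) σ b with ⟨n', h1, h2, h3, h4⟩ | ⟨h3, -⟩
  · refine ⟨n', not_lt.mp fun hlt => ?_, by rw [h4]⟩
    exact absurd (h.symm.trans (h3 n hlt)) (by decide)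
  · exact absurd (h.symm.trans (h3 n hn)) (by decide)

theorem mem_new {σ : List Bool} {b : Bool} {x : ℕ} (h : x ∈ (Dt P (σ ++ [b])).2) :
    (∃ n, (Dt P (σ ++ [b])).1 = n + 1 ∧ ty n = 0 ∧ x = yy n (wt P (Dt P) n σ)) ∨
      ((Dt P (σ ++ [b])).1 = 0 ∧ cc P (σ ++ [b]) < (σ ++ [b]).length ∧
        ∃ y ∈ V (Dt P) (P.F (cc P (σ ++ [b])) σ), x = Nat.pair (cc P (σ ++ [b]) + 1) y ∧
          lastA P (Dt P) (cc P (σ ++ [b])) σ ≤ x) := by
  rcases NEW_cases (P := P) σ b with ⟨n, -, -, -, h4⟩ | ⟨-, h4⟩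
  · rw [h4] at h ⊢
    by_cases ht : ty n = 0
    · rw [if_pos (decide_eq_true ht)] at h
      exact Or.inl ⟨n, rfl, ht, List.mem_singleton.mp h⟩
    · rw [if_neg (by simpa using ht)] at h
      exact absurd h List.not_mem_nil
  · rw [h4] at h ⊢
    by_cases ht : cc P (σ ++ [b]) < σ.length + 1
    · rw [if_pos (decide_eq_true ht)] at h
      obtain ⟨h5, h6⟩ := List.mem_filter.mp h
      obtain ⟨y, hy, rfl⟩ := List.mem_map.mp h5
      exact Or.inr ⟨rfl, by simpa using ht, y, hy, rfl, of_decide_eq_true h6⟩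
    · rw [if_neg (by simpa using ht)] at h
      exact absurd h List.not_mem_nil

theorem new_of_act {σ : List Bool} {b : Bool} {n : ℕ} (h : (Dt P (σ ++ [b])).1 = n + 1) (hn : ty n = 0) :
    yy n (wt P (Dt P) n σ) ∈ (Dt P (σ ++ [b])).2 := by
  rcases NEW_cases (P := P) σ b with ⟨n', -, -, -, h4⟩ | ⟨-, h4⟩
  · rw [h4] at h ⊢
    have : n' = n := Nat.succ.inj h
    subst this
    rw [if_pos (decide_eq_true hn)]
    exact List.mem_singleton.mpr rfl
  · rw [h4] at h
    exact absurd h (Nat.succ_ne_zero n).symm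

theorem new_of_copy {σ : List Bool} {b : Bool} {y : ℕ} (h : (Dt P (σ ++ [b])).1 = 0)
    (hc : cc P (σ ++ [b]) < (σ ++ [b]).length) (hy : y ∈ V (Dt P) (P.F (cc P (σ ++ [b])) σ))
    (hl : lastA P (Dt P) (cc P (σ ++ [b])) σ ≤ Nat.pair (cc P (σ ++ [b]) + 1) y) :
    Nat.pair (cc P (σ ++ [b]) + 1) y ∈ (Dt P (σ ++ [b])).2 := by
  rcases NEW_cases (P := P) σ b with ⟨n', -, -, -, h4⟩ | ⟨-, h4⟩
  · rw [h4] at h
    exact absurd h (Nat.succ_ne_zero n')
  · rw [h4]
    rw [if_pos (decide_eq_true (by simpa using hc))]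
    exact List.mem_filter.mpr ⟨List.mem_map.mpr ⟨y, hy, rfl⟩, decide_eq_true hl⟩

end Pool.Agent.CMG
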