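import Pool.Agent.CMG.COH
import Pool.Agent.CMG.CD

/-!
# CMG/RED: the degrees of `W` agree along a pointer

PROOF.  Let `t` be the threshold (`thr_of_Q`).
(1) `VX Z ≤ WX X`: there is a finite list `L` of the `y` with `⟨l + 1, y⟩ < t` and `VX P Z y = true` (such `y` are `< t`, `Nat.right_le_pair`); so
`VX Z y = if t ≤ ⟨l + 1, y⟩ then WX X (2 * ⟨l + 1, y⟩ + 1) else decide (y ∈ L)` (`copy_eq`); `turingReducible_of_computable` (H19/Reduce).
`Z ≤ X ≤ WX X` (`red_of_maps`, `left_le_jn`), `jn_le`.
(2) `VX X ≤ WX Z`: `red_of_option` with the function `F x σ` (`σ` an initial segment of `WX Z = jn Z (VX Z)`): if `x = ⟨l + 1, y⟩` (that is `x.unpair.1 = l + 1`) and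
`t ≤ x`: `σ[2 * y + 1]?` (`y = x.unpair.2`).  Otherwise let `ζ = (List.range (|σ| / 2)).map (fun i => σ.getD (2 * i) false)` (an initial segment of `Z`), `ξ = P.G l ζ`
(an initial segment of `X`), and look for the first `i ≤ |ξ|` with `x < i`, `isL l (ξ.take i)` and `lastA l (ξ.take i) = t`; the value is
`decide (x ∈ V (Dt P) (ξ.take i))`, and `none` if there is no such `i`.  Correct by `settled`, defined for long `σ` by `inf_stages` and `maps_len`.
Computability: `comp_isL`, `comp_lastA` (`D` constant, `comp_Dt`), `comp_VDt`.  `X ≤ Z ≤ WX Z`, `jn_le`.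
-/

set_option autoImplicit false

namespace Pool.Agent.CMG

open Encodable Nat.Partrec Pool.Agent.H19 Pool.Agent.AEI

variable {P : PSys}

private theorem RED_zeta (Z V : ℕ → Bool) (s : ℕ) :
    (List.range ((pre (jn Z V) s).length / 2)).map (fun i => (pre (jn Z V) s).getD (2 * i) false) = pre Z (s / 2) := by
  rw [pre_length, pre]
  refine List.map_congr_left fun i hi => ?_
  rw [List.mem_range] at hi
  have h1 : 2 * i < s := by omega
  show (pre (jn Z V) s).getD (2 * i) false = Z i
  rw [pre_getD _ h1, jn_even]

/-- The search function. -/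
private def REDF (P : PSys) (l t : ℕ) (x : ℕ) (σ : List Bool) : Option Bool :=
  if decide (x.unpair.1 = l + 1) && decide (t ≤ x) then σ[2 * x.unpair.2 + 1]? else
    (((List.range ((P.G l ((List.range (σ.length / 2)).map (fun i => σ.getD (2 * i) false))).length + 1)).filter
      (fun i => (decide (x < i) && isL P (Dt P) l
        ((P.G l ((List.range (σ.length / 2)).map (fun i => σ.getD (2 * i) false))).take i)) &&
        decide (lastA P (Dt P) l
        ((P.G l ((List.range (σ.length / 2)).map (fun i => σ.getD (2 * i) false))).take i) = t))).head?).map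
      (fun i => decide (x ∈ V (Dt P) ((P.G l ((List.range (σ.length / 2)).map
        (fun i => σ.getD (2 * i) false))).take i)))

private theorem REDF_comp (P : PSys) (l t : ℕ) : Computable₂ (REDF P l t) := by
  have hx : Computable fun p : ℕ × List Bool => p.1 := Computable.fst
  have hσ : Computable fun p : ℕ × List Bool => p.2 := Computable.snd
  have hu : Computable fun p : ℕ × List Bool => p.1.unpair := Computable.unpair.comp hx
  have hζ : Computable fun p : ℕ × List Bool =>
      (List.range (p.2.length / 2)).map (fun i => p.2.getD (2 * i) false) := by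
    refine comp_list_map (comp_range (comp_div (Computable.list_length.comp hσ) (Computable.const 2))) ?_
    exact comp_getD (hσ.comp Computable.fst) (comp_two_mul.comp Computable.snd)
  have hξ : Computable fun p : ℕ × List Bool =>
      P.G l ((List.range (p.2.length / 2)).map (fun i => p.2.getD (2 * i) false)) :=
    P.compG.comp (Computable.const l) hζ
  have hD : Computable₂ fun (_ : (ℕ × List Bool) × ℕ) => Dt P := comp_Dt.comp Computable.snd
  have ht : Computable fun q : (ℕ × List Bool) × ℕ =>
      (P.G l ((List.range (q.1.2.length / 2)).map (fun i => q.1.2.getD (2 * i) false))).take q.2 :=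
    comp_take Computable.snd (hξ.comp Computable.fst)
  refine comp_ite (c := fun p : ℕ × List Bool => decide (p.1.unpair.1 = l + 1) && decide (t ≤ p.1)) ?_ ?_ ?_
  · exact comp_and (comp_decEq (Computable.fst.comp hu) (Computable.const _))
      (comp_decLe (Computable.const _) hx)
  · exact Computable.list_getElem?.comp hσ
      (Computable.succ.comp (comp_two_mul.comp (Computable.snd.comp hu)))
  · refine Computable.option_map (comp_head (comp_list_filter (comp_range (Computable.succ.comp
      (Computable.list_length.comp hξ))) ?_)) ?_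
    · refine comp_and (comp_and (comp_decLt (hx.comp Computable.fst) Computable.snd) ?_) ?_
      · exact comp_isL hD (Computable.const l) ht
      · exact comp_decEq (comp_lastA hD (Computable.const l) ht) (Computable.const t)
    · exact comp_VDt (hx.comp Computable.fst) ht

theorem WX_le1 (h : GoodSys P) {X Z : ℕ → Bool} {l : ℕ} (hQ : Q P l X) (hm : Maps (P.F l) X Z) :
    TuringReducible (chi (WX P Z)) (chi (WX P X)) := by
  obtain ⟨t, ht⟩ := thr_of_Q h hQ
  have hcF : Computable (P.F l) := P.compF.comp (Computable.const l) Computable.id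
  refine jn_le ((red_of_maps hcF hm (P.monoF l)).trans (left_le_jn X (VX P X))) ?_
  have hpair : Computable fun y : ℕ => Nat.pair (l + 1) y := comp_natpair (Computable.const _) Computable.id
  refine turingReducible_of_computable (F := fun y σ => if decide (t ≤ Nat.pair (l + 1) y) then
      σ.getD (2 * Nat.pair (l + 1) y + 1) false else
      decide (y ∈ (List.range t).filter fun y => VX P Z y))
    (g := fun y => 2 * Nat.pair (l + 1) y + 2) ?_ ?_ ?_
  · refine comp_ite (c := fun p : ℕ × List Bool => decide (t ≤ Nat.pair (l + 1) p.1)) ?_ ?_ ?_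
    · exact comp_decLe (Computable.const _) (hpair.comp Computable.fst)
    · exact comp_getD Computable.snd (Computable.succ.comp (comp_two_mul.comp (hpair.comp Computable.fst)))
    · exact comp_mem Computable.fst (Computable.const _)
  · exact Computable.succ.comp (Computable.succ.comp (comp_two_mul.comp hpair))
  · intro y
    by_cases hy : t ≤ Nat.pair (l + 1) y
    · simp only [hy, decide_true, if_true]
      rw [pre_getD _ (by omega)]
      show jn X (VX P X) (2 * Nat.pair (l + 1) y + 1) = _
      rw [jn_odd]
      exact copy_eq hQ hm ht hy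
    · simp only [hy, decide_false, Bool.false_eq_true, if_false]
      have h1 : y < t := lt_of_le_of_lt (Nat.right_le_pair (l + 1) y) (not_le.1 hy)
      by_cases h2 : VX P Z y = true
      · rw [h2]
        simp [h1, h2]
      · rw [Bool.not_eq_true] at h2
        rw [h2]
        simp [h2]

theorem WX_le2 (h : GoodSys P) {X Z : ℕ → Bool} {l : ℕ} (hQ : Q P l X) (hm : Maps (P.F l) X Z)
    (hg : Maps (P.G l) Z X) : TuringReducible (chi (WX P X)) (chi (WX P Z)) := by
  obtain ⟨t, ht⟩ := thr_of_Q h hQ
  have hcG : Computable (P.G l) := P.compG.comp (Computable.const l) Computable.id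
  refine jn_le ((red_of_maps hcG hg (P.monoG l)).trans (left_le_jn Z (VX P Z))) ?_
  refine red_of_option (REDF_comp P l t) ?_ ?_
  · intro x s b hb
    rw [REDF] at hb
    by_cases hc : x.unpair.1 = l + 1 ∧ t ≤ x
    · rw [if_pos (by simp [hc.1, hc.2])] at hb
      have hx : Nat.pair (l + 1) x.unpair.2 = x := by
        rw [← hc.1, Nat.pair_unpair]
      have h1 : 2 * x.unpair.2 + 1 < s := by
        by_contra h2
        rw [List.getElem?_eq_none (by rw [pre_length]; omega)] at hb
        cases hb
      rw [pre_getElem? _ h1, Option.some_inj] at hb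
      rw [← hb]
      show jn Z (VX P Z) (2 * x.unpair.2 + 1) = _
      rw [jn_odd]
      have h3 := copy_eq (P := P) hQ hm ht (y := x.unpair.2) (by rw [hx]; exact hc.2)
      rw [hx] at h3
      exact h3.symm
    · rw [if_neg (by
        intro h1
        apply hc
        simpa [Bool.and_eq_true, decide_eq_true_eq] using h1)] at hb
      rw [show WX P Z = jn Z (VX P Z) from rfl, RED_zeta, Option.map_eq_some_iff] at hb
      obtain ⟨i, hi, rfl⟩ := hb
      have hi2 := List.mem_of_mem_head? hi
      rw [List.mem_filter, List.mem_range] at hi2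
      obtain ⟨hi3, hi4⟩ := hi2
      simp only [Bool.and_eq_true, decide_eq_true_eq] at hi4
      obtain ⟨⟨hi5, hi6⟩, hi7⟩ := hi4
      have h8 : (P.G l (pre Z (s / 2))).take i = pre X i := by
        rw [maps_pre (P.monoG l) hg (s / 2)]
        exact pre_take X (by omega)
      rw [h8] at hi6 hi7 ⊢
      have h9 := settled ht hi6 hi7 hi5 (fun y hy => by
        by_contra h10
        apply hc
        rw [hy, Nat.unpair_pair]
        exact ⟨rfl, by rw [← hy]; exact not_lt.1 h10⟩)
      by_cases h10 : VX P X x = true
      · rw [h10]
        exact decide_eq_true (h9.1 h10)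
      · have h11 := h10
        rw [Bool.not_eq_true] at h11
        rw [h11]
        exact decide_eq_false fun h12 => h10 (h9.2 h12)
  · intro x
    by_cases hc : x.unpair.1 = l + 1 ∧ t ≤ x
    · refine ⟨2 * x.unpair.2 + 2, ?_⟩
      rw [REDF, if_pos (by simp [hc.1, hc.2]), pre_getElem? _ (by omega)]
      rfl
    · have ht' := ht
      obtain ⟨T, hT⟩ := ht'
      obtain ⟨i, hi1, hi2⟩ := inf_stages hQ ht (max T (x + 1))
      obtain ⟨s0, hs0⟩ := maps_len (P.monoG l) hg i
      refine ⟨2 * s0, ?_⟩
      rw [REDF, if_neg (by
        intro h1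
        apply hc
        simpa [Bool.and_eq_true, decide_eq_true_eq] using h1),
        show WX P Z = jn Z (VX P Z) from rfl, RED_zeta, Option.isSome_map, List.isSome_head?]
      have h2 : 2 * s0 / 2 = s0 := by omega
      rw [h2]
      have h3 := hs0 s0 le_rfl
      have h8 : (P.G l (pre Z s0)).take i = pre X i := by
        rw [maps_pre (P.monoG l) hg s0]
        exact pre_take X h3
      have hmem : i ∈ (List.range ((P.G l (pre Z s0)).length + 1)).filter
          (fun i => (decide (x < i) && isL P (Dt P) l ((P.G l (pre Z s0)).take i)) &&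
            decide (lastA P (Dt P) l ((P.G l (pre Z s0)).take i) = t)) := by
        rw [List.mem_filter, List.mem_range]
        refine ⟨by omega, ?_⟩
        rw [h8, hi2, (hT i (le_trans (le_max_left _ _) hi1)).2]
        have h4 : x < i := lt_of_lt_of_le (Nat.lt_succ_self x) (le_trans (le_max_right _ _) hi1)
        simp [h4]
      exact List.ne_nil_of_mem hmem

end Pool.Agent.CMG
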