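import Pool.Agent.CMG.NEW

/-!
# CMG/STG: elements enumerated after a stage are large

PROOFS.  `late_L`: apply `mem_new` (`pre X (i + 1) = pre X i ++ [X i]`).  First case, requirement `n`: as `evt` fails,
`¬ n + 1 ≤ l`, so `l ≤ n`; then `rst n (pre X s) = true` (`cc = l ≤ n`, `l < s`), so `s ≤ wt n (pre X i)` (`le_lastI_pre`) `≤ x`
(`Nat.right_le_pair`).  Second case, pointer `c = cc P (pre X (i + 1))`: as `evt` fails, `l ≤ c`.  If `c = l` we are in the second alternative.
If `l < c`: `evt c (pre X s) = true`, so `s ≤ lastA c (pre X i) ≤ x`.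
`late_A`: the same with the requirement `n` acting at `pre X s`.
-/

set_option autoImplicit false

namespace Pool.Agent.CMG

open Encodable Nat.Partrec Pool.Agent.H19 Pool.Agent.AEI

variable {P : PSys}

private theorem STG_isL {l : ℕ} {ρ : List Bool} (h : isL P (Dt P) l ρ = true) :
    cc P ρ = l ∧ l < ρ.length ∧ (Dt P ρ).1 = 0 := by
  simp only [isL, Bool.and_eq_true, decide_eq_true_eq] at h
  exact ⟨h.1.1, h.1.2, h.2⟩

private theorem STG_evt {n : ℕ} {ρ : List Bool}
    (h : (cc P ρ < ρ.length ∧ cc P ρ < n) ∨ (0 < (Dt P ρ).1 ∧ (Dt P ρ).1 ≤ n)) : evt P (Dt P) n ρ = true := by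
  simp only [evt, Bool.or_eq_true, Bool.and_eq_true, decide_eq_true_eq]
  exact h

private theorem STG_rst {n : ℕ} {ρ : List Bool}
    (h : (cc P ρ < ρ.length ∧ cc P ρ ≤ n) ∨ (0 < (Dt P ρ).1 ∧ (Dt P ρ).1 ≤ n)) : rst P (Dt P) n ρ = true := by
  simp only [rst, Bool.or_eq_true, Bool.and_eq_true, decide_eq_true_eq]
  exact Or.inl h

theorem le_yy (n w : ℕ) : w ≤ yy n w := by
  exact (Nat.right_le_pair n w).trans (Nat.right_le_pair 0 _)

/-- After an `l`-stage `s`, as long as there is no event of higher priority, only numbers `≥ s` and copies are enumerated. -/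
theorem late_L {X : ℕ → Bool} {l s i x : ℕ} (hL : isL P (Dt P) l (pre X s) = true) (hs : s ≤ i)
    (he : evt P (Dt P) l (pre X (i + 1)) = false) (hx : x ∈ (Dt P (pre X (i + 1))).2) :
    s ≤ x ∨ ∃ y ∈ V (Dt P) (P.F l (pre X i)), x = Nat.pair (l + 1) y ∧ lastA P (Dt P) l (pre X i) ≤ x := by
  obtain ⟨h1, h2, h3⟩ := STG_isL hL
  have he' : ∀ h, evt P (Dt P) l (pre X (i + 1)) = true → (h : Prop) := by
    intro h h'
    rw [he] at h'
    exact absurd h' (by simp)
  rw [pre_succ] at hx he'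
  rcases mem_new hx with ⟨n, hn1, -, hn3⟩ | ⟨-, hn2, y, hy1, hy2, hy3⟩
  · left
    have h4 : l ≤ n := by
      by_contra h
      exact he' _ (STG_evt (Or.inr ⟨by omega, by omega⟩))
    have h5 : rst P (Dt P) n (pre X s) = true := STG_rst (Or.inl ⟨by rw [h1]; exact h2, by rw [h1]; exact h4⟩)
    have h6 : s ≤ wt P (Dt P) n (pre X i) := le_lastI_pre hs h5
    rw [hn3]
    exact h6.trans (le_yy _ _)
  · have h4 : l ≤ cc P (pre X i ++ [X i]) := by
      by_contra h
      exact he' _ (STG_evt (Or.inl ⟨hn2, by omega⟩))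
    rcases Nat.eq_or_lt_of_le h4 with h5 | h5
    · right
      rw [← h5] at hy1 hy2 hy3
      exact ⟨y, hy1, hy2, hy3⟩
    · left
      have h6 : evt P (Dt P) (cc P (pre X i ++ [X i])) (pre X s) = true :=
        STG_evt (Or.inl ⟨by rw [h1]; exact h2, by rw [h1]; exact h5⟩)
      exact le_trans (le_lastI_pre hs h6) hy3

/-- After the requirement `n` of type `1` acted at stage `s`, as long as it is not reset, only numbers `≥ s` are enumerated. -/
theorem late_A {X : ℕ → Bool} {n s i x : ℕ} (hn : ty n = 1) (hA : (Dt P (pre X s)).1 = n + 1) (hs : s ≤ i)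
    (he : rst P (Dt P) n (pre X (i + 1)) = false) (hx : x ∈ (Dt P (pre X (i + 1))).2) : s ≤ x := by
  have he' : ∀ h, rst P (Dt P) n (pre X (i + 1)) = true → (h : Prop) := by
    intro h h'
    rw [he] at h'
    exact absurd h' (by simp)
  rw [pre_succ] at hx he'
  rcases mem_new hx with ⟨m, hm1, hm2, hm3⟩ | ⟨-, hn2, y, hy1, hy2, hy3⟩
  · have h4 : n ≤ m := by
      by_contra h
      exact he' _ (STG_rst (Or.inr ⟨by omega, by omega⟩))
    have h4' : n ≠ m := by
      rintro rfl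
      omega
    have h5 : rst P (Dt P) m (pre X s) = true := STG_rst (Or.inr ⟨by omega, by omega⟩)
    have h6 : s ≤ wt P (Dt P) m (pre X i) := le_lastI_pre hs h5
    rw [hm3]
    exact h6.trans (le_yy _ _)
  · have h4 : n < cc P (pre X i ++ [X i]) := by
      by_contra h
      exact he' _ (STG_rst (Or.inl ⟨hn2, by omega⟩))
    have h6 : evt P (Dt P) (cc P (pre X i ++ [X i])) (pre X s) = true :=
      STG_evt (Or.inr ⟨by omega, by omega⟩)
    exact le_trans (le_lastI_pre hs h6) hy3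

/-- Numbers of the form `⟨l + 1, y⟩` are only enumerated by copying along the pointer `l`. -/
theorem new_pair {X : ℕ → Bool} {l i y : ℕ} (hx : Nat.pair (l + 1) y ∈ (Dt P (pre X (i + 1))).2) :
    cc P (pre X (i + 1)) = l ∧ y ∈ V (Dt P) (P.F l (pre X i)) := by
  rw [pre_succ] at hx ⊢
  rcases mem_new hx with ⟨m, -, -, hm3⟩ | ⟨-, -, y', hy1, hy2, -⟩
  · exfalso
    rw [yy, Nat.pair_eq_pair] at hm3
    omega
  · rw [Nat.pair_eq_pair] at hy2
    obtain ⟨h1, h2⟩ := hy2
    have h3 : cc P (pre X i ++ [X i]) = l := by omega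
    rw [h3] at hy1
    rw [h2]
    exact ⟨h3, hy1⟩

/-- Numbers `yy n w` are only enumerated when `n` acts with witness `w`. -/
theorem new_yy {X : ℕ → Bool} {n w i : ℕ} (hx : yy n w ∈ (Dt P (pre X (i + 1))).2) :
    (Dt P (pre X (i + 1))).1 = n + 1 ∧ ty n = 0 ∧ wt P (Dt P) n (pre X i) = w := by
  rw [pre_succ] at hx ⊢
  rcases mem_new hx with ⟨m, hm1, hm2, hm3⟩ | ⟨-, -, y', -, hy2, -⟩
  · rw [yy, yy, Nat.pair_eq_pair, Nat.pair_eq_pair] at hm3
    obtain ⟨-, h1, h2⟩ := hm3
    subst h1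
    exact ⟨hm1, hm2, h2.symm⟩
  · exfalso
    rw [yy, Nat.pair_eq_pair] at hy2
    omega

end Pool.Agent.CMG
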