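import Pool.Agent.CMG.NEW

/-!
# CMG/THR: existence of thresholds

PROOFS.  `thr_of`: for every `p < l` there is `s_p` such that `q p (pre X s) = false` for `s ≥ s_p`, and `s'_m` for every `m < l` with
`(Dt P (pre X s)).1 ≠ m + 1` for `s ≥ s'_m`.  Let `T` be larger than all of them.  For `s ≥ T` the event `evt l (pre X s)` does not occur:
if `cc < |ρ|` and `cc < l` then `q_of_cc` contradicts the choice of `T`; if `0 < (Dt ρ).1 ≤ l` take `m = (Dt ρ).1 - 1`.
So `lastA l (pre X s) = lastA l (pre X T)` for `s ≥ T` (`lastI_pre_eq`).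
`thr_eq`: `lastA` is monotone along `X`.
`no_evt`: if `evt l (pre X i) = true` with `i > s` then `i ≤ lastA l (pre X i') ` for `i' ≥ i`, and it is `t` for large `i'`, but `t = lastA l (pre X s) ≤ s`.
`fw_sg` (`sg` is eventually constant): induction on `a`; the tail by the induction hypothesis; for the head let `τ s = bk P (l :: a) (pre X s)`, increasing in `s`
(`bk_mono`).  If the lengths `|τ s|` are bounded, `τ s` is eventually constant.  Otherwise there is `Y` with `τ s = pre Y |τ s|` (`exists_ext`, `maps_pre`).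
If `isL l (pre Y i)` holds for only finitely many `i`, `lst l (pre Y i)` is eventually constant (`lastI_pre_eq`; note `(pre Y i).take j = pre Y j`).  Otherwise
`Q P l Y` (at an `l`-stage `cc P ρ = l < |ρ|`, so `P.q l ρ = true`), hence `Thr P l Y t` by hypothesis, and `lst l (pre Y i) = pre Y j` with `j → ∞`, so that
`lastA l (lst l (τ s)) = t` for large `s`.
-/

set_option autoImplicit false

namespace Pool.Agent.CMG

open Encodable Nat.Partrec Pool.Agent.H19 Pool.Agent.AEI

variable {P : PSys}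

private theorem THR_bound {R : ℕ → ℕ → Prop} (l : ℕ) (h : ∀ p < l, ∃ N, ∀ s ≥ N, R p s) :
    ∃ T, ∀ p < l, ∀ s ≥ T, R p s := by
  induction l with
  | zero => exact ⟨0, fun p hp => absurd hp (Nat.not_lt_zero p)⟩
  | succ l ih =>
    obtain ⟨T, hT⟩ := ih fun p hp => h p (Nat.lt_succ_of_lt hp)
    obtain ⟨N, hN⟩ := h l (Nat.lt_succ_self l)
    refine ⟨max T N, fun p hp s hs => ?_⟩
    rcases Nat.lt_succ_iff_lt_or_eq.1 hp with h1 | h1
    · exact hT p h1 s (le_trans (le_max_left _ _) hs)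
    · rw [h1]
      exact hN s (le_trans (le_max_right _ _) hs)

theorem thr_of {X : ℕ → Bool} {l : ℕ} (h1 : ∀ p < l, ¬ Q P p X)
    (h2 : ∀ m < l, ∃ s0, ∀ s ≥ s0, (Dt P (pre X s)).1 ≠ m + 1) : ∃ t, Thr P l X t := by
  have h3 : ∀ p < l, ∃ N, ∀ s ≥ N, ¬ P.q p (pre X s) = true := by
    intro p hp
    have h4 := h1 p hp
    unfold Q at h4
    push Not at h4
    obtain ⟨N, hN⟩ := h4
    exact ⟨N, fun s hs => hN s hs⟩
  obtain ⟨T1, hT1⟩ := THR_bound (R := fun p s => ¬ P.q p (pre X s) = true) l h3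
  obtain ⟨T2, hT2⟩ := THR_bound (R := fun m s => (Dt P (pre X s)).1 ≠ m + 1) l h2
  have h5 : ∀ s ≥ max T1 T2, evt P (Dt P) l (pre X s) = false := by
    intro s hs
    have hs1 : s ≥ T1 := le_trans (le_max_left _ _) hs
    have hs2 : s ≥ T2 := le_trans (le_max_right _ _) hs
    rw [Bool.eq_false_iff]
    intro hev
    unfold evt at hev
    simp only [Bool.or_eq_true, Bool.and_eq_true, decide_eq_true_eq] at hev
    rcases hev with ⟨h6, h7⟩ | ⟨h6, h7⟩
    · exact hT1 _ h7 s hs1 (q_of_cc h6)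
    · exact hT2 ((Dt P (pre X s)).1 - 1) (by omega) s hs2 (by omega)
  refine ⟨lastA P (Dt P) l (pre X (max T1 T2)), max T1 T2, fun s hs => ⟨h5 s hs, ?_⟩⟩
  exact lastI_pre_eq hs fun i hi _ => h5 i hi.le

theorem thr_unique {X : ℕ → Bool} {l t t' : ℕ} (h : Thr P l X t) (h' : Thr P l X t') : t = t' := by
  obtain ⟨T, hT⟩ := h
  obtain ⟨T', hT'⟩ := h'
  rw [← (hT (max T T') (le_max_left _ _)).2, (hT' (max T T') (le_max_right _ _)).2]

theorem lastA_le_thr {X : ℕ → Bool} {l t : ℕ} (h : Thr P l X t) (s : ℕ) : lastA P (Dt P) l (pre X s) ≤ t := by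
  obtain ⟨T, hT⟩ := h
  rw [← (hT (max s T) (le_max_right _ _)).2]
  exact lastI_mono _ (pre_mono X (le_max_left _ _))

theorem no_evt {X : ℕ → Bool} {l t s : ℕ} (h : Thr P l X t) (hs : lastA P (Dt P) l (pre X s) = t) {i : ℕ} (hi : s < i) :
    evt P (Dt P) l (pre X i) = false := by
  rw [Bool.eq_false_iff]
  intro hev
  have h1 : i ≤ lastA P (Dt P) l (pre X i) := le_lastI_pre (le_refl i) hev
  have h2 := lastA_le_thr h i
  have h3 : lastA P (Dt P) l (pre X s) ≤ (pre X s).length := lastI_le _ _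
  rw [pre_length] at h3
  omega

private theorem THR_head (l : ℕ) (a : List ℕ) (X : ℕ → Bool) (h : ∀ Y, Q P l Y → ∃ t, Thr P l Y t) :
    ∃ t s0, ∀ s ≥ s0, lastA P (Dt P) l (lst P (Dt P) l (bk P (l :: a) (pre X s))) = t := by
  have hF : ∀ σ τ, σ <+: τ → bk P (l :: a) σ <+: bk P (l :: a) τ := fun σ τ h => bk_mono P (l :: a) h
  by_cases hB : ∀ n, ∃ s, n ≤ (bk P (l :: a) (pre X s)).length
  · obtain ⟨Y, hY⟩ := exists_ext hF hB
    have h1 : ∀ s, bk P (l :: a) (pre X s) = pre Y (bk P (l :: a) (pre X s)).length := fun s => maps_pre hF hY s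
    have h2 : ∀ i, lst P (Dt P) l (pre Y i) = pre Y (lastI (isL P (Dt P) l) (pre Y i)) := by
      intro i
      have h3 := lastI_le (isL P (Dt P) l) (pre Y i)
      rw [pre_length] at h3
      unfold lst
      exact pre_take Y h3
    by_cases hI : ∃ N, ∀ i ≥ N, isL P (Dt P) l (pre Y i) = false
    · obtain ⟨N, hN⟩ := hI
      obtain ⟨s0, hs0⟩ := maps_len hF hY N
      refine ⟨lastA P (Dt P) l (pre Y (lastI (isL P (Dt P) l) (pre Y N))), s0, fun s hs => ?_⟩
      rw [h1 s, h2, lastI_pre_eq (hs0 s hs) fun i hi _ => hN i hi.le]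
    · push Not at hI
      have hQ : Q P l Y := by
        intro N
        obtain ⟨i, hi, hi2⟩ := hI N
        refine ⟨i, hi, ?_⟩
        have hi3 : isL P (Dt P) l (pre Y i) = true := by simpa using hi2
        unfold isL at hi3
        simp only [Bool.and_eq_true, decide_eq_true_eq] at hi3
        obtain ⟨⟨h4, h5⟩, -⟩ := hi3
        have h6 := q_of_cc (P := P) (ρ := pre Y i) (by omega)
        rw [h4] at h6
        exact h6
      obtain ⟨t, T, hT⟩ := h Y hQ
      obtain ⟨i0, hi0, hi1⟩ := hI T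
      have hi3 : isL P (Dt P) l (pre Y i0) = true := by simpa using hi1
      obtain ⟨s0, hs0⟩ := maps_len hF hY i0
      refine ⟨t, s0, fun s hs => ?_⟩
      rw [h1 s, h2]
      refine (hT _ ?_).2
      exact le_trans hi0 (le_lastI_pre (hs0 s hs) hi3)
  · push Not at hB
    obtain ⟨L, hL⟩ := hB
    have h3 : ∀ n, n ≤ L → (∃ s, n ≤ (bk P (l :: a) (pre X s)).length) ∨
        ∃ s1, ∀ s ≥ s1, (bk P (l :: a) (pre X s)).length = (bk P (l :: a) (pre X s1)).length := by
      intro n
      induction n with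
      | zero => exact fun _ => Or.inl ⟨0, Nat.zero_le _⟩
      | succ n ih =>
        intro hn
        rcases ih (by omega) with ⟨s, hs⟩ | h4
        · by_cases h5 : ∃ s', s ≤ s' ∧ n + 1 ≤ (bk P (l :: a) (pre X s')).length
          · obtain ⟨s', -, hs'⟩ := h5
            exact Or.inl ⟨s', hs'⟩
          · push Not at h5
            refine Or.inr ⟨s, fun s' hs' => ?_⟩
            have h6 := h5 s' hs'
            have h7 := h5 s le_rfl
            have h8 := (hF _ _ (pre_mono X hs')).length_le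
            omega
        · exact Or.inr h4
    have h4 : ∃ s1, ∀ s ≥ s1, (bk P (l :: a) (pre X s)).length = (bk P (l :: a) (pre X s1)).length := by
      rcases h3 L le_rfl with ⟨s, hs⟩ | h5
      · have := hL s
        omega
      · exact h5
    obtain ⟨s1, hs1⟩ := h4
    refine ⟨lastA P (Dt P) l (lst P (Dt P) l (bk P (l :: a) (pre X s1))), s1, fun s hs => ?_⟩
    have h5 := (hF _ _ (pre_mono X hs)).eq_of_length (hs1 s hs).symm
    rw [h5]

theorem sg_const (a : List ℕ) (X : ℕ → Bool) (h : ∀ l ∈ a, ∀ Y, Q P l Y → ∃ t, Thr P l Y t) :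
    ∃ ts s0, ∀ s ≥ s0, sg P (Dt P) a (pre X s) = ts := by
  induction a with
  | nil => exact ⟨[], 0, fun _ _ => rfl⟩
  | cons l a ih =>
    obtain ⟨ts, s0, hs0⟩ := ih fun l' hl' => h l' (List.mem_cons_of_mem _ hl')
    obtain ⟨t, s1, hs1⟩ := THR_head l a X (h l List.mem_cons_self)
    refine ⟨t :: ts, max s0 s1, fun s hs => ?_⟩
    show lastA P (Dt P) l (lst P (Dt P) l (bk P (l :: a) (pre X s))) :: sg P (Dt P) a (pre X s) = t :: ts
    rw [hs0 s (le_trans (le_max_left _ _) hs), hs1 s (le_trans (le_max_right _ _) hs)]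

end Pool.Agent.CMG
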