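import Pool.Agent.CMG.LIB

/-!
# CMG/VLM: the enumerated set along a string

PROOFS.  `mem_V`: `List.mem_flatMap`, `List.mem_range`.  The rest follows with `(τ ++ [b]).take i = τ.take i` for `i ≤ |τ|`.
`Dt_nil`: unfold.  `exists_new`: the least `i ≤ s'` with `x ∈ (D (pre X i)).2` is `> s`.
-/

set_option autoImplicit false

namespace Pool.Agent.CMG

open Encodable Nat.Partrec Pool.Agent.H19 Pool.Agent.AEI

theorem mem_V {D : List Bool → ℕ × List ℕ} {τ : List Bool} {x : ℕ} :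
    x ∈ V D τ ↔ ∃ i ≤ τ.length, x ∈ (D (τ.take i)).2 := by
  rw [V, List.mem_flatMap]
  constructor
  · rintro ⟨i, hi, hx⟩
    rw [List.mem_range] at hi
    exact ⟨i, by omega, hx⟩
  · rintro ⟨i, hi, hx⟩
    exact ⟨i, List.mem_range.2 (by omega), hx⟩

theorem mem_V_append {D : List Bool → ℕ × List ℕ} {σ : List Bool} {b : Bool} {x : ℕ} :
    x ∈ V D (σ ++ [b]) ↔ x ∈ V D σ ∨ x ∈ (D (σ ++ [b])).2 := by
  have hlen : (σ ++ [b]).length = σ.length + 1 := by simp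
  have htk : ∀ i ≤ σ.length, (σ ++ [b]).take i = σ.take i := by
    intro i hi
    rw [List.take_append_of_le_length hi]
  have hfull : (σ ++ [b]).take (σ.length + 1) = σ ++ [b] := by
    rw [← hlen, List.take_length]
  rw [mem_V, mem_V]
  constructor
  · rintro ⟨i, hi, hx⟩
    rw [hlen] at hi
    rcases Nat.lt_or_ge σ.length i with h | h
    · have h1 : i = σ.length + 1 := by omega
      rw [h1, hfull] at hx
      exact Or.inr hx
    · rw [htk i h] at hx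
      exact Or.inl ⟨i, h, hx⟩
  · rintro (⟨i, hi, hx⟩ | hx)
    · exact ⟨i, by rw [hlen]; omega, by rw [htk i hi]; exact hx⟩
    · exact ⟨σ.length + 1, by rw [hlen], by rw [hfull]; exact hx⟩

theorem V_mono {D : List Bool → ℕ × List ℕ} {σ τ : List Bool} (h : σ <+: τ) {x : ℕ} (hx : x ∈ V D σ) : x ∈ V D τ := by
  obtain ⟨i, hi, hx'⟩ := mem_V.1 hx
  obtain ⟨u, hu⟩ := h
  refine mem_V.2 ⟨i, ?_, ?_⟩
  · rw [← hu, List.length_append]; omega
  · rw [← hu, List.take_append_of_le_length hi]; exact hx'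

theorem mem_V_pre {D : List Bool → ℕ × List ℕ} {X : ℕ → Bool} {s x : ℕ} :
    x ∈ V D (pre X s) ↔ ∃ i ≤ s, x ∈ (D (pre X i)).2 := by
  rw [mem_V, pre_length]
  constructor
  · rintro ⟨i, hi, hx⟩
    rw [pre_take X hi] at hx
    exact ⟨i, hi, hx⟩
  · rintro ⟨i, hi, hx⟩
    exact ⟨i, hi, by rw [pre_take X hi]; exact hx⟩

theorem VX_iff {P : PSys} {X : ℕ → Bool} {x : ℕ} : VX P X x = true ↔ ∃ s, x ∈ V (Dt P) (pre X s) := by
  simp [VX]

theorem VX_iff' {P : PSys} {X : ℕ → Bool} {x : ℕ} : VX P X x = true ↔ ∃ i, x ∈ (Dt P (pre X i)).2 := by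
  rw [VX_iff]
  constructor
  · rintro ⟨s, hs⟩
    obtain ⟨i, _, hx⟩ := mem_V_pre.1 hs
    exact ⟨i, hx⟩
  · rintro ⟨i, hx⟩
    exact ⟨i, mem_V_pre.2 ⟨i, le_rfl, hx⟩⟩

theorem exists_new {D : List Bool → ℕ × List ℕ} {X : ℕ → Bool} {s s' x : ℕ} (h : x ∈ V D (pre X s'))
    (h' : x ∉ V D (pre X s)) : ∃ i, s ≤ i ∧ i < s' ∧ x ∈ (D (pre X (i + 1))).2 := by
  obtain ⟨i, hi, hx⟩ := mem_V_pre.1 h
  have h1 : s < i := by
    by_contra hc
    exact h' (mem_V_pre.2 ⟨i, not_lt.1 hc, hx⟩)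
  refine ⟨i - 1, by omega, by omega, ?_⟩
  rw [Nat.sub_add_cancel (by omega)]
  exact hx

theorem exists_new' {P : PSys} {X : ℕ → Bool} {s x : ℕ} (h : VX P X x = true)
    (h' : x ∉ V (Dt P) (pre X s)) : ∃ i, s ≤ i ∧ x ∈ (Dt P (pre X (i + 1))).2 := by
  obtain ⟨s', hs'⟩ := VX_iff.1 h
  obtain ⟨i, h1, _, h3⟩ := exists_new hs' h'
  exact ⟨i, h1, h3⟩

/-- The elements below `u` have been enumerated from some stage on. -/
theorem V_settle (P : PSys) (X : ℕ → Bool) (u : ℕ) :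
    ∃ s0, ∀ s ≥ s0, ∀ x < u, VX P X x = true → x ∈ V (Dt P) (pre X s) := by
  induction u with
  | zero => exact ⟨0, fun s _ x hx _ => absurd hx (Nat.not_lt_zero x)⟩
  | succ u ih =>
    obtain ⟨s0, hs0⟩ := ih
    by_cases hu : VX P X u = true
    · obtain ⟨s1, hs1⟩ := VX_iff.1 hu
      refine ⟨max s0 s1, fun s hs x hx hxV => ?_⟩
      rcases Nat.lt_succ_iff_lt_or_eq.1 hx with h | h
      · exact hs0 s (le_trans (le_max_left _ _) hs) x h hxV
      · rw [h]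
        exact V_mono (pre_mono X (le_trans (le_max_right _ _) hs)) hs1
    · refine ⟨s0, fun s hs x hx hxV => ?_⟩
      rcases Nat.lt_succ_iff_lt_or_eq.1 hx with h | h
      · exact hs0 s hs x h hxV
      · rw [h] at hxV; exact absurd hxV hu

end Pool.Agent.CMG
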